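import Mathlib

set_option autoImplicit false

/-!
Definitions for the counterexample behind frozen statement S00234 (MP_6babc4_ag).

Complexes are matrices `d` on an index type `ι` together with a degree function `deg : ι → ℕ`;
the differential lowers the degree by one.  `cone` is the only constructor.
`Datum` collects the ring-theoretic input.
-/

namespace Pool.Agent.H19.KG

open Matrix

section Graded

variable {R : Type*} [CommRing R] {ι κ n : Type*}

/-- `d` lowers the degree by one. -/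
def Low (deg : ι → ℕ) (d : Matrix ι ι R) : Prop := ∀ i j, deg j ≠ deg i + 1 → d i j = 0

/-- `T` preserves the degree. -/
def Lev (deg : ι → ℕ) (deg' : κ → ℕ) (T : Matrix ι κ R) : Prop := ∀ i j, deg i ≠ deg' j → T i j = 0

/-- `h` raises the degree by one. -/
def Upp (deg : ι → ℕ) (h : Matrix ι ι R) : Prop := ∀ i j, deg i ≠ deg j + 1 → h i j = 0

/-- `d` is the differential of a complex of free modules. -/
structure Cpx [Fintype ι] (deg : ι → ℕ) (d : Matrix ι ι R) : Prop where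
  low : Low deg d
  sq : d * d = 0

/-- The ideal of all `r` such that multiplication by `r` is null-homotopic. -/
def nulI [Fintype ι] [DecidableEq ι] (deg : ι → ℕ) (d : Matrix ι ι R) : Ideal R where
  carrier := {r | ∃ h : Matrix ι ι R, Upp deg h ∧ d * h + h * d = r • (1 : Matrix ι ι R)}
  add_mem' := by
    rintro a b ⟨h, hh, e⟩ ⟨h', hh', e'⟩
    refine ⟨h + h', fun i j hij => by simp [hh i j hij, hh' i j hij], ?_⟩
    rw [mul_add, add_mul, add_smul, ← e, ← e']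
    abel
  zero_mem' := ⟨0, fun _ _ _ => rfl, by simp⟩
  smul_mem' := by
    rintro c a ⟨h, hh, e⟩
    refine ⟨c • h, fun i j hij => by simp [hh i j hij], ?_⟩
    rw [Matrix.mul_smul, Matrix.smul_mul, ← smul_add, e, smul_smul, smul_eq_mul]

/-- The mapping cone of `Θ : G → F`. -/
def cone (dF : Matrix ι ι R) (Θ : Matrix ι κ R) (dG : Matrix κ κ R) :
    Matrix (ι ⊕ κ) (ι ⊕ κ) R := fromBlocks dF Θ 0 (-dG)

/-- The degree function of the mapping cone. -/
def cdeg (a : ι → ℕ) (b : κ → ℕ) : ι ⊕ κ → ℕ := Sum.elim a (fun i => b i + 1)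

/-- Index type of the Koszul complex on two commuting endomorphisms of `R^n`. -/
abbrev I4 (n : Type*) := (n ⊕ n) ⊕ (n ⊕ n)

/-- Koszul complex on two commuting endomorphisms `a`, `b` of `R^n`. -/
def kos (a b : Matrix n n R) : Matrix (I4 n) (I4 n) R :=
  cone (cone 0 b 0) (fromBlocks a 0 0 a) (cone 0 b 0)

/-- degrees `1, 2, 2, 3`. -/
def kdeg (n : Type*) : I4 n → ℕ :=
  cdeg (cdeg (fun _ => 1) (fun _ => 1)) (cdeg (fun _ => 1) (fun _ => 1))

end Graded

section Explicit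

variable {R : Type*} [CommRing R]

/-- the nilpotent shift -/
def Sm : Matrix (Fin 3) (Fin 3) R := !![0, 0, 0; 1, 0, 0; 0, 1, 0]

/-- `y - v t` on `R[t]/t^3`. -/
def al (y v : R) : Matrix (Fin 3) (Fin 3) R := y • 1 - v • Sm

/-- `u + v^2 - x t` on `R[t]/t^3`. -/
def be (x u v : R) : Matrix (Fin 3) (Fin 3) R := (u + v ^ 2) • 1 - x • Sm

/-- The complex `F`. -/
def Fc (x y u v : R) : Matrix (I4 (Fin 3)) (I4 (Fin 3)) R := kos (al y v) (be x u v)

/-- The complex `Z`: Koszul on `u^3, v^3`. -/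
def Zc (u v : R) : Matrix (I4 (Fin 1)) (I4 (Fin 1)) R := kos !![u ^ 3] !![v ^ 3]

/-- The map `π : Z → F`. -/
def pim (x u v : R) : Matrix (I4 (Fin 3)) (I4 (Fin 1)) R :=
  fromBlocks
    (fromBlocks !![1; 0; 0] 0 0 !![v; 0; 0])
    (fromBlocks 0 0 !![(u + v ^ 2) ^ 2 - v ^ 4; (u + v ^ 2) * x; x ^ 2] 0)
    (fromBlocks 0 !![-x; 0; 0] 0 0)
    (fromBlocks !![v ^ 3 * x; 0; 0] 0 0 !![x * (u + v ^ 2) ^ 2; x * ((u + v ^ 2) * x); x * x ^ 2])

/-- The map `ι : F → Z`. -/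
def iom (x u v : R) : Matrix (I4 (Fin 1)) (I4 (Fin 3)) R :=
  fromBlocks
    (fromBlocks !![x ^ 3, x ^ 2 * (u + v ^ 2), x * (u + v ^ 2) ^ 2] 0 0 !![0, 0, x * v ^ 3])
    (fromBlocks 0 0 !![-x ^ 2, -(x * (u + v ^ 2)), 2 * u ^ 2 + u * v ^ 2] 0)
    (fromBlocks 0 !![0, 0, x] 0 0)
    (fromBlocks !![0, 0, v] 0 0 !![0, 0, 1])

/-- The matrix of the homotopy on `F`. -/
def Bm (x u v : R) : Matrix (Fin 3) (Fin 3) R :=
  !![0, -x ^ 2, -(x * (u + v ^ 2)); 0, 0, -x ^ 2; 0, 0, 0]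

/-- The homotopy on `F`: `F k + k F = x^3 - π ι`. -/
def km (x u v : R) : Matrix (I4 (Fin 3)) (I4 (Fin 3)) R :=
  fromBlocks
    (fromBlocks 0 0 (Bm x u v) 0) 0
    0 (fromBlocks 0 0 (-(Bm x u v)) 0)

/-- The swap `Z(v,u) → Z(u,v)`. -/
def wm : Matrix (I4 (Fin 1)) (I4 (Fin 1)) R :=
  fromBlocks (fromBlocks 1 0 0 0) (fromBlocks 0 0 1 0) (fromBlocks 0 1 0 0) (fromBlocks 0 0 0 (-1))

/-- The chain map `Θ : G → F`, `G` being `F` with `u` and `v` exchanged. -/
def Th (x u v : R) : Matrix (I4 (Fin 3)) (I4 (Fin 3)) R :=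
  (pim x u v * (wm : Matrix (I4 (Fin 1)) (I4 (Fin 1)) R) : Matrix (I4 (Fin 3)) (I4 (Fin 1)) R) * iom x v u

/-- index type of `RW` -/
abbrev I8 := I4 (Fin 3) ⊕ I4 (Fin 3)

/-- degrees of `RW` -/
def rdeg : I8 → ℕ := cdeg (kdeg (Fin 3)) (kdeg (Fin 3))

/-- The cone of `Θ : G → F`; ranks `3, 9, 9, 3` in degrees `1, 2, 3, 4`. -/
def RW (x y u v : R) : Matrix I8 I8 R := cone (Fc x y u v) (Th x u v) (Fc x y v u)

/-- index type of the two complexes `X` and `Y` -/
abbrev I32 := (I8 ⊕ I8) ⊕ (I8 ⊕ I8)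

/-- degrees of the two complexes `X` and `Y` -/
def deg32 : I32 → ℕ := cdeg (cdeg rdeg rdeg) (cdeg rdeg rdeg)

/-- The complex `X`: four copies of `RW`, two of them with `u`, `v` exchanged. -/
def Xc (x y u v : R) : Matrix I32 I32 R :=
  cone (cone (RW x y u v) 0 (RW x y v u)) 0 (cone (RW x y v u) 0 (RW x y u v))

/-- The complex `Y`: `RW(1-x, 0, u, 0)` tensored with the Koszul complex on `v, sx`. -/
def Yc (x u v s : R) : Matrix I32 I32 R :=
  cone (cone (RW (1 - x) 0 u 0) (v • 1) (RW (1 - x) 0 u 0)) ((s * x) • 1)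
    (cone (RW (1 - x) 0 u 0) (v • 1) (RW (1 - x) 0 u 0))

end Explicit

section Data

/-- The ring-theoretic input: a semilocal domain `B` with two points with the same residue field `κ`,
a height-three node point `ker ρ₁` and a height-four regular point `ker ρ₂`, and the quotient
`N = B/(x,u)`. -/
structure Datum (κ B N : Type) [Field κ] [CommRing B] [CommRing N] where
  x : B
  y : B
  u : B
  v : B
  s : B
  ρ₁ : B →+* κ
  ρ₂ : B →+* κ
  τ : B →+* N
  σ : N →+* κ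
  three : (3 : B) = 0
  xy : x * y = u * v
  ρ₁x : ρ₁ x = 0
  ρ₁y : ρ₁ y = 0
  ρ₁u : ρ₁ u = 0
  ρ₁v : ρ₁ v = 0
  ρ₂x : ρ₂ x = 1
  ρ₂y : ρ₂ y = 0
  ρ₂u : ρ₂ u = 0
  ρ₂v : ρ₂ v = 0
  ρ₂s : ρ₂ s = 0
  surj : ∀ a b : κ, ∃ c : B, ρ₁ c = a ∧ ρ₂ c = b
  ker₁ : ∀ b : B, ρ₁ b = 0 → b ∈ Ideal.span ({x, y, u, v} : Set B)
  ker₂ : ∀ b : B, ρ₂ b = 0 → b ∈ Ideal.span ({1 - x, u, v, s * x} : Set B)
  τ_surj : Function.Surjective τ
  τx : τ x = 0
  τu : τ u = 0
  τy : τ y ≠ 0
  τv : τ v ≠ 0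
  στ : ∀ b : B, σ (τ b) = ρ₁ b
  reg : ∀ m n : N, τ y * m = τ v * n → ∃ m', m = τ v * m'

variable {κ B N : Type} [Field κ] [CommRing B] [CommRing N]

/-- The pinched ring. -/
def Datum.A (D : Datum κ B N) : Subring B := RingHom.eqLocus D.ρ₁ D.ρ₂

/-- `A → N`. -/
def Datum.toN (D : Datum κ B N) : D.A →+* N := D.τ.comp D.A.subtype

end Data

section HL

variable {ι κ : Type*} (A : Type*) {N : Type*} [CommRing A] [CommRing N] [Algebra A N]

/-- the degree `j` part of `ι → N` -/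
def Vj (N : Type*) [CommRing N] [Algebra A N] (deg : ι → ℕ) (j : ℕ) : Submodule A (ι → N) where
  carrier := {w | ∀ i, deg i ≠ j → w i = 0}
  add_mem' := by
    intro a b ha hb i hi
    simp [ha i hi, hb i hi]
  zero_mem' := fun _ _ => rfl
  smul_mem' := by
    intro c a ha i hi
    simp [ha i hi]

/-- a matrix over `N` as an `A`-linear map -/
def act [Fintype κ] (e : Matrix ι κ N) : (κ → N) →ₗ[A] (ι → N) :=
  (Matrix.mulVecLin e).restrictScalars A

/-- length over `A` of the homology in degree `j` of the complex `e` over `N` -/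
noncomputable def hl [Fintype ι] (deg : ι → ℕ) (e : Matrix ι ι N) (j : ℕ) : ℕ∞ :=
  Module.length A ↥(Submodule.map (Submodule.map (act A e) (Vj A N deg (j + 1))).mkQ
    (Vj A N deg j ⊓ LinearMap.ker (act A e)))

end HL

section Ten

variable {ι : Type*} [Fintype ι] {A : Type*} [CommRing A]

/-- rank in degree `j` -/
def nn (deg : ι → ℕ) (j : ℕ) : ℕ := Fintype.card {i // deg i = j}

/-- numbering of the indices of degree `j` -/
noncomputable def ee (deg : ι → ℕ) (j : ℕ) : Fin (nn deg j) ≃ {i // deg i = j} :=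
  (Fintype.equivFin {i // deg i = j}).symm

/-- the `j`-th differential between free modules `Fin _ → A` -/
noncomputable def DD (deg : ι → ℕ) (d : Matrix ι ι A) (j : ℕ) :
    (Fin (nn deg (j + 1)) → A) →ₗ[A] (Fin (nn deg j) → A) :=
  Matrix.mulVecLin (Matrix.of fun a b => d (ee deg j a).1 (ee deg (j + 1) b).1)

end Ten

end Pool.Agent.H19.KG
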