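import Pool.Agent.H19.KG.Defs

set_option autoImplicit false
set_option linter.unusedSimpArgs false
set_option linter.unusedVariables false
set_option linter.unusedTactic false
set_option linter.unreachableTactic false
set_option linter.unnecessarySeqFocus false

/-!
Explicit matrices: the chain map `Th` and its homotopies.
-/

namespace Pool.Agent.H19.KG

open Matrix

section EXFaux

variable {R : Type} [CommRing R] {n m l : Type}

/-- shape of the Koszul matrices -/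
def Fb (a b : Matrix n n R) : Matrix (I4 n) (I4 n) R := fromBlocks
    (fromBlocks 0 b 0 0) (fromBlocks a 0 0 a) 0 (fromBlocks 0 (-b) 0 0)

/-- shape of the chain maps -/
def Pb (p1 p22 p23 p32 p33 p4 : Matrix n m R) : Matrix (I4 n) (I4 m) R := fromBlocks
    (fromBlocks p1 0 0 p22) (fromBlocks 0 0 p23 0) (fromBlocks 0 p32 0 0) (fromBlocks p33 0 0 p4)

/-- shape of the homotopies -/
def Kb (B : Matrix n n R) : Matrix (I4 n) (I4 n) R :=
  fromBlocks (fromBlocks 0 0 B 0) 0 0 (fromBlocks 0 0 (-B) 0)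

theorem Fb_mul_Pb [Fintype n] [Fintype m] (a b : Matrix n n R) (a' b' : Matrix m m R)
    (p1 p22 p23 p32 p33 p4 : Matrix n m R)
    (e1 : b * p22 + a * p32 = p1 * b') (e2 : b * p23 + a * p33 = p1 * a')
    (e3 : a * p4 = p22 * a' - p23 * b') (e4 : -(b * p4) = p32 * a' - p33 * b') :
    Fb a b * Pb p1 p22 p23 p32 p33 p4 = Pb p1 p22 p23 p32 p33 p4 * Fb a' b' := by
  simp only [Fb, Pb, Matrix.fromBlocks_multiply, Matrix.fromBlocks_add, Matrix.zero_mul,
    Matrix.mul_zero, add_zero, zero_add, Matrix.mul_neg, Matrix.neg_mul, e1, e2, e3, e4,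
    sub_eq_add_neg, neg_zero, Matrix.fromBlocks_zero]

theorem Pb_mul_Pb [Fintype m] (p1 p22 p23 p32 p33 p4 : Matrix n m R)
    (q1 q22 q23 q32 q33 q4 : Matrix m l R) :
    Pb p1 p22 p23 p32 p33 p4 * Pb q1 q22 q23 q32 q33 q4 =
      Pb (p1 * q1) (p22 * q22 + p23 * q32) (p22 * q23 + p23 * q33) (p32 * q22 + p33 * q32)
        (p32 * q23 + p33 * q33) (p4 * q4) := by
  simp only [Pb, Matrix.fromBlocks_multiply, Matrix.fromBlocks_add, Matrix.zero_mul,
    Matrix.mul_zero, add_zero, zero_add]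

theorem Pb_add (p1 p22 p23 p32 p33 p4 q1 q22 q23 q32 q33 q4 : Matrix n m R) :
    Pb p1 p22 p23 p32 p33 p4 + Pb q1 q22 q23 q32 q33 q4 =
      Pb (p1 + q1) (p22 + q22) (p23 + q23) (p32 + q32) (p33 + q33) (p4 + q4) := by
  simp only [Pb, Matrix.fromBlocks_add, add_zero]

theorem Pb_smul (r : R) (p1 p22 p23 p32 p33 p4 : Matrix n m R) :
    r • Pb p1 p22 p23 p32 p33 p4 = Pb (r • p1) (r • p22) (r • p23) (r • p32) (r • p33) (r • p4) := by
  simp only [Pb, Matrix.fromBlocks_smul, smul_zero]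

theorem Pb_one [DecidableEq n] : Pb (1 : Matrix n n R) 1 0 0 1 1 = 1 := by
  simp only [Pb, ← Matrix.fromBlocks_one, Matrix.fromBlocks_zero]

theorem Pb_zero : Pb (0 : Matrix n m R) 0 0 0 0 0 = 0 := by
  simp only [Pb, Matrix.fromBlocks_zero]

theorem Fb_Kb [Fintype n] (a b B : Matrix n n R) : Fb a b * Kb B + Kb B * Fb a b =
    Pb (b * B) (B * b) (B * a - a * B) 0 (b * B) (B * b) := by
  have h : -(a * B) + B * a = B * a + -(a * B) := add_comm _ _
  simp only [Fb, Kb, Pb, Matrix.fromBlocks_multiply, Matrix.fromBlocks_add, Matrix.zero_mul,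
    Matrix.mul_zero, add_zero, zero_add, Matrix.mul_neg, Matrix.neg_mul, neg_neg, neg_zero,
    sub_eq_add_neg, Matrix.fromBlocks_zero, h]

theorem kos_eq_Fb [Fintype n] (a b : Matrix n n R) : kos a b = Fb a b := by
  simp [Fb, kos, cone, Matrix.fromBlocks_neg]

theorem chain_aux {k : Type} [Fintype n] [Fintype m] [Fintype k] {F : Matrix n n R}
    {p : Matrix n m R} {Z Z' W : Matrix m m R} {i : Matrix m k R} {F' : Matrix k k R}
    (h1 : F * p = p * Z) (h2 : W * Z' = Z * W) (h3 : i * F' = Z' * i) :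
    F * (p * W * i) = p * W * i * F' := by
  calc F * (p * W * i) = (F * p) * W * i := by simp only [Matrix.mul_assoc]
    _ = p * (Z * W) * i := by rw [h1]; simp only [Matrix.mul_assoc]
    _ = p * W * (Z' * i) := by rw [← h2]; simp only [Matrix.mul_assoc]
    _ = p * W * i * F' := by rw [← h3]; simp only [Matrix.mul_assoc]

theorem Th_aux {k : Type} [Fintype n] [Fintype m] [DecidableEq m] [Fintype k] (r : R)
    {p : Matrix n m R} {W : Matrix m m R} {i : Matrix m k R} {p' : Matrix k m R}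
    {i' : Matrix m n R}
    (h1 : i * p' = r • (1 : Matrix m m R)) (h2 : W * W = 1) :
    (p * W * i) * (p' * W * i') = r • (p * i') := by
  calc (p * W * i) * (p' * W * i') = p * W * (i * p') * W * i' := by
        simp only [Matrix.mul_assoc]
    _ = r • (p * (W * W) * i') := by
        rw [h1]
        simp only [Matrix.mul_assoc, Matrix.mul_smul, Matrix.smul_mul, Matrix.one_mul]
    _ = r • (p * i') := by rw [h2, Matrix.mul_one]

end EXFaux

section EXF

variable {R : Type} [CommRing R] (x y u v : R)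

theorem be_eq_lit : be x u v = !![u + v ^ 2, 0, 0; -x, u + v ^ 2, 0; 0, -x, u + v ^ 2] := by
  ext i j
  fin_cases i <;> fin_cases j <;> simp [be, Sm]

theorem al_eq_lit : al y v = !![y, 0, 0; -v, y, 0; 0, -v, y] := by
  ext i j
  fin_cases i <;> fin_cases j <;> simp [al, Sm]

theorem id_e1 (h3 : (3 : R) = 0) (hxy : x * y = u * v) :
    be x u v * (!![v; 0; 0] : Matrix (Fin 3) (Fin 1) R) + al y v * (!![-x; 0; 0] : Matrix (Fin 3) (Fin 1) R) = (!![1; 0; 0] : Matrix (Fin 3) (Fin 1) R) * (!![v ^ 3] : Matrix (Fin 1) (Fin 1) R) := by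
  ext i j
  fin_cases i <;> fin_cases j
  · simp [be_eq_lit, al_eq_lit, Bm, Matrix.mul_apply, Fin.sum_univ_three, Matrix.add_apply, Matrix.sub_apply, Matrix.neg_apply] <;>
    linear_combination ((-1)) * hxy + (0) * h3
  · simp [be_eq_lit, al_eq_lit, Bm, Matrix.mul_apply, Fin.sum_univ_three, Matrix.add_apply, Matrix.sub_apply, Matrix.neg_apply] <;>
    linear_combination (0) * hxy + (0) * h3
  · simp [be_eq_lit, al_eq_lit, Bm, Matrix.mul_apply, Fin.sum_univ_three, Matrix.add_apply, Matrix.sub_apply, Matrix.neg_apply] <;>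
    linear_combination (0) * hxy + (0) * h3

theorem id_e2 (h3 : (3 : R) = 0) (hxy : x * y = u * v) :
    be x u v * (!![(u + v ^ 2) ^ 2 - v ^ 4; (u + v ^ 2) * x; x ^ 2] : Matrix (Fin 3) (Fin 1) R) + al y v * (!![v ^ 3 * x; 0; 0] : Matrix (Fin 3) (Fin 1) R) = (!![1; 0; 0] : Matrix (Fin 3) (Fin 1) R) * (!![u ^ 3] : Matrix (Fin 1) (Fin 1) R) := by
  ext i j
  fin_cases i <;> fin_cases j
  · simp [be_eq_lit, al_eq_lit, Bm, Matrix.mul_apply, Fin.sum_univ_three, Matrix.add_apply, Matrix.sub_apply, Matrix.neg_apply] <;>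
    linear_combination ((1) * v ^ 3) * hxy + ((1) * u ^ 2 * v ^ 2 + (1) * u * v ^ 4) * h3
  · simp [be_eq_lit, al_eq_lit, Bm, Matrix.mul_apply, Fin.sum_univ_three, Matrix.add_apply, Matrix.sub_apply, Matrix.neg_apply] <;>
    linear_combination (0) * hxy + (0) * h3
  · simp [be_eq_lit, al_eq_lit, Bm, Matrix.mul_apply, Fin.sum_univ_three, Matrix.add_apply, Matrix.sub_apply, Matrix.neg_apply] <;>
    linear_combination (0) * hxy + (0) * h3

theorem id_e3 (h3 : (3 : R) = 0) (hxy : x * y = u * v) :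
    al y v * (!![x * (u + v ^ 2) ^ 2; x * ((u + v ^ 2) * x); x * x ^ 2] : Matrix (Fin 3) (Fin 1) R) = (!![v; 0; 0] : Matrix (Fin 3) (Fin 1) R) * (!![u ^ 3] : Matrix (Fin 1) (Fin 1) R) - (!![(u + v ^ 2) ^ 2 - v ^ 4; (u + v ^ 2) * x; x ^ 2] : Matrix (Fin 3) (Fin 1) R) * (!![v ^ 3] : Matrix (Fin 1) (Fin 1) R) := by
  ext i j
  fin_cases i <;> fin_cases j
  · simp [be_eq_lit, al_eq_lit, Bm, Matrix.mul_apply, Fin.sum_univ_three, Matrix.add_apply, Matrix.sub_apply, Matrix.neg_apply] <;>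
    linear_combination ((1) * u ^ 2 + (2) * u * v ^ 2 + (1) * v ^ 4) * hxy + ((1) * u ^ 2 * v ^ 3 + (1) * u * v ^ 5) * h3
  · simp [be_eq_lit, al_eq_lit, Bm, Matrix.mul_apply, Fin.sum_univ_three, Matrix.add_apply, Matrix.sub_apply, Matrix.neg_apply] <;>
    linear_combination ((1) * x * u + (1) * x * v ^ 2) * hxy + (0) * h3
  · simp [be_eq_lit, al_eq_lit, Bm, Matrix.mul_apply, Fin.sum_univ_three, Matrix.add_apply, Matrix.sub_apply, Matrix.neg_apply] <;>
    linear_combination ((1) * x ^ 2) * hxy + (0) * h3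

theorem id_e4 (h3 : (3 : R) = 0) (hxy : x * y = u * v) :
    -(be x u v * (!![x * (u + v ^ 2) ^ 2; x * ((u + v ^ 2) * x); x * x ^ 2] : Matrix (Fin 3) (Fin 1) R)) = (!![-x; 0; 0] : Matrix (Fin 3) (Fin 1) R) * (!![u ^ 3] : Matrix (Fin 1) (Fin 1) R) - (!![v ^ 3 * x; 0; 0] : Matrix (Fin 3) (Fin 1) R) * (!![v ^ 3] : Matrix (Fin 1) (Fin 1) R) := by
  ext i j
  fin_cases i <;> fin_cases j
  · simp [be_eq_lit, al_eq_lit, Bm, Matrix.mul_apply, Fin.sum_univ_three, Matrix.add_apply, Matrix.sub_apply, Matrix.neg_apply] <;>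
    linear_combination (0) * hxy + ((-1) * x * u ^ 2 * v ^ 2 + (-1) * x * u * v ^ 4) * h3
  · simp [be_eq_lit, al_eq_lit, Bm, Matrix.mul_apply, Fin.sum_univ_three, Matrix.add_apply, Matrix.sub_apply, Matrix.neg_apply] <;>
    linear_combination (0) * hxy + (0) * h3
  · simp [be_eq_lit, al_eq_lit, Bm, Matrix.mul_apply, Fin.sum_univ_three, Matrix.add_apply, Matrix.sub_apply, Matrix.neg_apply] <;>
    linear_combination (0) * hxy + (0) * h3

theorem id_f1 (h3 : (3 : R) = 0) (hxy : x * y = u * v) :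
    (!![v ^ 3] : Matrix (Fin 1) (Fin 1) R) * (!![0, 0, x * v ^ 3] : Matrix (Fin 1) (Fin 3) R) + (!![u ^ 3] : Matrix (Fin 1) (Fin 1) R) * (!![0, 0, x] : Matrix (Fin 1) (Fin 3) R) = (!![x ^ 3, x ^ 2 * (u + v ^ 2), x * (u + v ^ 2) ^ 2] : Matrix (Fin 1) (Fin 3) R) * be x u v := by
  ext i j
  fin_cases i <;> fin_cases j
  · simp [be_eq_lit, al_eq_lit, Bm, Matrix.mul_apply, Fin.sum_univ_three, Matrix.add_apply, Matrix.sub_apply, Matrix.neg_apply] <;>
    linear_combination (0) * hxy + (0) * h3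
  · simp [be_eq_lit, al_eq_lit, Bm, Matrix.mul_apply, Fin.sum_univ_three, Matrix.add_apply, Matrix.sub_apply, Matrix.neg_apply] <;>
    linear_combination (0) * hxy + (0) * h3
  · simp [be_eq_lit, al_eq_lit, Bm, Matrix.mul_apply, Fin.sum_univ_three, Matrix.add_apply, Matrix.sub_apply, Matrix.neg_apply] <;>
    linear_combination (0) * hxy + ((-1) * x * u ^ 2 * v ^ 2 + (-1) * x * u * v ^ 4) * h3

theorem id_f2 (h3 : (3 : R) = 0) (hxy : x * y = u * v) :
    (!![v ^ 3] : Matrix (Fin 1) (Fin 1) R) * (!![-x ^ 2, -(x * (u + v ^ 2)), 2 * u ^ 2 + u * v ^ 2] : Matrix (Fin 1) (Fin 3) R) + (!![u ^ 3] : Matrix (Fin 1) (Fin 1) R) * (!![0, 0, v] : Matrix (Fin 1) (Fin 3) R) = (!![x ^ 3, x ^ 2 * (u + v ^ 2), x * (u + v ^ 2) ^ 2] : Matrix (Fin 1) (Fin 3) R) * al y v := by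
  ext i j
  fin_cases i <;> fin_cases j
  · simp [be_eq_lit, al_eq_lit, Bm, Matrix.mul_apply, Fin.sum_univ_three, Matrix.add_apply, Matrix.sub_apply, Matrix.neg_apply] <;>
    linear_combination ((-1) * x ^ 2) * hxy + (0) * h3
  · simp [be_eq_lit, al_eq_lit, Bm, Matrix.mul_apply, Fin.sum_univ_three, Matrix.add_apply, Matrix.sub_apply, Matrix.neg_apply] <;>
    linear_combination ((-1) * x * u + (-1) * x * v ^ 2) * hxy + (0) * h3
  · simp [be_eq_lit, al_eq_lit, Bm, Matrix.mul_apply, Fin.sum_univ_three, Matrix.add_apply, Matrix.sub_apply, Matrix.neg_apply] <;>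
    linear_combination ((-1) * u ^ 2 + (-2) * u * v ^ 2 + (-1) * v ^ 4) * hxy + (0) * h3

theorem id_f3 (h3 : (3 : R) = 0) (hxy : x * y = u * v) :
    (!![u ^ 3] : Matrix (Fin 1) (Fin 1) R) * (!![0, 0, 1] : Matrix (Fin 1) (Fin 3) R) = (!![0, 0, x * v ^ 3] : Matrix (Fin 1) (Fin 3) R) * al y v - (!![-x ^ 2, -(x * (u + v ^ 2)), 2 * u ^ 2 + u * v ^ 2] : Matrix (Fin 1) (Fin 3) R) * be x u v := by
  ext i j
  fin_cases i <;> fin_cases j
  · simp [be_eq_lit, al_eq_lit, Bm, Matrix.mul_apply, Fin.sum_univ_three, Matrix.add_apply, Matrix.sub_apply, Matrix.neg_apply] <;>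
    linear_combination (0) * hxy + (0) * h3
  · simp [be_eq_lit, al_eq_lit, Bm, Matrix.mul_apply, Fin.sum_univ_three, Matrix.add_apply, Matrix.sub_apply, Matrix.neg_apply] <;>
    linear_combination (0) * hxy + ((-1) * x * u ^ 2 + (-1) * x * u * v ^ 2) * h3
  · simp [be_eq_lit, al_eq_lit, Bm, Matrix.mul_apply, Fin.sum_univ_three, Matrix.add_apply, Matrix.sub_apply, Matrix.neg_apply] <;>
    linear_combination ((-1) * v ^ 3) * hxy + ((1) * u ^ 3 + (1) * u ^ 2 * v ^ 2) * h3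

theorem id_f4 (h3 : (3 : R) = 0) (hxy : x * y = u * v) :
    -((!![v ^ 3] : Matrix (Fin 1) (Fin 1) R) * (!![0, 0, 1] : Matrix (Fin 1) (Fin 3) R)) = (!![0, 0, x] : Matrix (Fin 1) (Fin 3) R) * al y v - (!![0, 0, v] : Matrix (Fin 1) (Fin 3) R) * be x u v := by
  ext i j
  fin_cases i <;> fin_cases j
  · simp [be_eq_lit, al_eq_lit, Bm, Matrix.mul_apply, Fin.sum_univ_three, Matrix.add_apply, Matrix.sub_apply, Matrix.neg_apply] <;>
    linear_combination (0) * hxy + (0) * h3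
  · simp [be_eq_lit, al_eq_lit, Bm, Matrix.mul_apply, Fin.sum_univ_three, Matrix.add_apply, Matrix.sub_apply, Matrix.neg_apply] <;>
    linear_combination (0) * hxy + (0) * h3
  · simp [be_eq_lit, al_eq_lit, Bm, Matrix.mul_apply, Fin.sum_univ_three, Matrix.add_apply, Matrix.sub_apply, Matrix.neg_apply] <;>
    linear_combination ((-1)) * hxy + (0) * h3

theorem id_g1 (h3 : (3 : R) = 0) (hxy : x * y = u * v) :
    (!![x ^ 3, x ^ 2 * (u + v ^ 2), x * (u + v ^ 2) ^ 2] : Matrix (Fin 1) (Fin 3) R) * (!![1; 0; 0] : Matrix (Fin 3) (Fin 1) R) = (x ^ 3 • (1 : Matrix (Fin 1) (Fin 1) R)) := by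
  ext i j
  fin_cases i <;> fin_cases j
  · simp [be_eq_lit, al_eq_lit, Bm, Matrix.mul_apply, Fin.sum_univ_three, Matrix.add_apply, Matrix.sub_apply, Matrix.neg_apply] <;>
    linear_combination (0) * hxy + (0) * h3

theorem id_g2 (h3 : (3 : R) = 0) (hxy : x * y = u * v) :
    (!![0, 0, x * v ^ 3] : Matrix (Fin 1) (Fin 3) R) * (!![v; 0; 0] : Matrix (Fin 3) (Fin 1) R) + (!![-x ^ 2, -(x * (u + v ^ 2)), 2 * u ^ 2 + u * v ^ 2] : Matrix (Fin 1) (Fin 3) R) * (!![-x; 0; 0] : Matrix (Fin 3) (Fin 1) R) = (x ^ 3 • (1 : Matrix (Fin 1) (Fin 1) R)) := by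
  ext i j
  fin_cases i <;> fin_cases j
  · simp [be_eq_lit, al_eq_lit, Bm, Matrix.mul_apply, Fin.sum_univ_three, Matrix.add_apply, Matrix.sub_apply, Matrix.neg_apply] <;>
    linear_combination (0) * hxy + (0) * h3

theorem id_g3 (h3 : (3 : R) = 0) (hxy : x * y = u * v) :
    (!![0, 0, x * v ^ 3] : Matrix (Fin 1) (Fin 3) R) * (!![(u + v ^ 2) ^ 2 - v ^ 4; (u + v ^ 2) * x; x ^ 2] : Matrix (Fin 3) (Fin 1) R) + (!![-x ^ 2, -(x * (u + v ^ 2)), 2 * u ^ 2 + u * v ^ 2] : Matrix (Fin 1) (Fin 3) R) * (!![v ^ 3 * x; 0; 0] : Matrix (Fin 3) (Fin 1) R) = 0 := by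
  ext i j
  fin_cases i <;> fin_cases j
  · simp [be_eq_lit, al_eq_lit, Bm, Matrix.mul_apply, Fin.sum_univ_three, Matrix.add_apply, Matrix.sub_apply, Matrix.neg_apply] <;>
    linear_combination (0) * hxy + (0) * h3

theorem id_g4 (h3 : (3 : R) = 0) (hxy : x * y = u * v) :
    (!![0, 0, x] : Matrix (Fin 1) (Fin 3) R) * (!![v; 0; 0] : Matrix (Fin 3) (Fin 1) R) + (!![0, 0, v] : Matrix (Fin 1) (Fin 3) R) * (!![-x; 0; 0] : Matrix (Fin 3) (Fin 1) R) = 0 := by
  ext i j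
  fin_cases i <;> fin_cases j
  · simp [be_eq_lit, al_eq_lit, Bm, Matrix.mul_apply, Fin.sum_univ_three, Matrix.add_apply, Matrix.sub_apply, Matrix.neg_apply] <;>
    linear_combination (0) * hxy + (0) * h3

theorem id_g5 (h3 : (3 : R) = 0) (hxy : x * y = u * v) :
    (!![0, 0, x] : Matrix (Fin 1) (Fin 3) R) * (!![(u + v ^ 2) ^ 2 - v ^ 4; (u + v ^ 2) * x; x ^ 2] : Matrix (Fin 3) (Fin 1) R) + (!![0, 0, v] : Matrix (Fin 1) (Fin 3) R) * (!![v ^ 3 * x; 0; 0] : Matrix (Fin 3) (Fin 1) R) = (x ^ 3 • (1 : Matrix (Fin 1) (Fin 1) R)) := by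
  ext i j
  fin_cases i <;> fin_cases j
  · simp [be_eq_lit, al_eq_lit, Bm, Matrix.mul_apply, Fin.sum_univ_three, Matrix.add_apply, Matrix.sub_apply, Matrix.neg_apply] <;>
    linear_combination (0) * hxy + (0) * h3

theorem id_g6 (h3 : (3 : R) = 0) (hxy : x * y = u * v) :
    (!![0, 0, 1] : Matrix (Fin 1) (Fin 3) R) * (!![x * (u + v ^ 2) ^ 2; x * ((u + v ^ 2) * x); x * x ^ 2] : Matrix (Fin 3) (Fin 1) R) = (x ^ 3 • (1 : Matrix (Fin 1) (Fin 1) R)) := by
  ext i j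
  fin_cases i <;> fin_cases j
  · simp [be_eq_lit, al_eq_lit, Bm, Matrix.mul_apply, Fin.sum_univ_three, Matrix.add_apply, Matrix.sub_apply, Matrix.neg_apply] <;>
    linear_combination (0) * hxy + (0) * h3

theorem id_h1 (h3 : (3 : R) = 0) (hxy : x * y = u * v) :
    be x u v * Bm x u v + (!![1; 0; 0] : Matrix (Fin 3) (Fin 1) R) * (!![x ^ 3, x ^ 2 * (u + v ^ 2), x * (u + v ^ 2) ^ 2] : Matrix (Fin 1) (Fin 3) R) = (x ^ 3 • (1 : Matrix (Fin 3) (Fin 3) R)) := by
  ext i j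
  fin_cases i <;> fin_cases j
  · simp [be_eq_lit, al_eq_lit, Bm, Matrix.mul_apply, Fin.sum_univ_three, Matrix.add_apply, Matrix.sub_apply, Matrix.neg_apply] <;>
    linear_combination (0) * hxy + (0) * h3
  · simp [be_eq_lit, al_eq_lit, Bm, Matrix.mul_apply, Fin.sum_univ_three, Matrix.add_apply, Matrix.sub_apply, Matrix.neg_apply] <;>
    linear_combination (0) * hxy + (0) * h3
  · simp [be_eq_lit, al_eq_lit, Bm, Matrix.mul_apply, Fin.sum_univ_three, Matrix.add_apply, Matrix.sub_apply, Matrix.neg_apply] <;>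
    linear_combination (0) * hxy + (0) * h3
  · simp [be_eq_lit, al_eq_lit, Bm, Matrix.mul_apply, Fin.sum_univ_three, Matrix.add_apply, Matrix.sub_apply, Matrix.neg_apply] <;>
    linear_combination (0) * hxy + (0) * h3
  · simp [be_eq_lit, al_eq_lit, Bm, Matrix.mul_apply, Fin.sum_univ_three, Matrix.add_apply, Matrix.sub_apply, Matrix.neg_apply] <;>
    linear_combination (0) * hxy + (0) * h3
  · simp [be_eq_lit, al_eq_lit, Bm, Matrix.mul_apply, Fin.sum_univ_three, Matrix.add_apply, Matrix.sub_apply, Matrix.neg_apply] <;>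
    linear_combination (0) * hxy + (0) * h3
  · simp [be_eq_lit, al_eq_lit, Bm, Matrix.mul_apply, Fin.sum_univ_three, Matrix.add_apply, Matrix.sub_apply, Matrix.neg_apply] <;>
    linear_combination (0) * hxy + (0) * h3
  · simp [be_eq_lit, al_eq_lit, Bm, Matrix.mul_apply, Fin.sum_univ_three, Matrix.add_apply, Matrix.sub_apply, Matrix.neg_apply] <;>
    linear_combination (0) * hxy + (0) * h3
  · simp [be_eq_lit, al_eq_lit, Bm, Matrix.mul_apply, Fin.sum_univ_three, Matrix.add_apply, Matrix.sub_apply, Matrix.neg_apply] <;>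
    linear_combination (0) * hxy + (0) * h3

theorem id_h2 (h3 : (3 : R) = 0) (hxy : x * y = u * v) :
    Bm x u v * be x u v + ((!![v; 0; 0] : Matrix (Fin 3) (Fin 1) R) * (!![0, 0, x * v ^ 3] : Matrix (Fin 1) (Fin 3) R) + (!![(u + v ^ 2) ^ 2 - v ^ 4; (u + v ^ 2) * x; x ^ 2] : Matrix (Fin 3) (Fin 1) R) * (!![0, 0, x] : Matrix (Fin 1) (Fin 3) R)) = (x ^ 3 • (1 : Matrix (Fin 3) (Fin 3) R)) := by
  ext i j
  fin_cases i <;> fin_cases j
  · simp [be_eq_lit, al_eq_lit, Bm, Matrix.mul_apply, Fin.sum_univ_three, Matrix.add_apply, Matrix.sub_apply, Matrix.neg_apply] <;>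
    linear_combination (0) * hxy + (0) * h3
  · simp [be_eq_lit, al_eq_lit, Bm, Matrix.mul_apply, Fin.sum_univ_three, Matrix.add_apply, Matrix.sub_apply, Matrix.neg_apply] <;>
    linear_combination (0) * hxy + (0) * h3
  · simp [be_eq_lit, al_eq_lit, Bm, Matrix.mul_apply, Fin.sum_univ_three, Matrix.add_apply, Matrix.sub_apply, Matrix.neg_apply] <;>
    linear_combination (0) * hxy + (0) * h3
  · simp [be_eq_lit, al_eq_lit, Bm, Matrix.mul_apply, Fin.sum_univ_three, Matrix.add_apply, Matrix.sub_apply, Matrix.neg_apply] <;>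
    linear_combination (0) * hxy + (0) * h3
  · simp [be_eq_lit, al_eq_lit, Bm, Matrix.mul_apply, Fin.sum_univ_three, Matrix.add_apply, Matrix.sub_apply, Matrix.neg_apply] <;>
    linear_combination (0) * hxy + (0) * h3
  · simp [be_eq_lit, al_eq_lit, Bm, Matrix.mul_apply, Fin.sum_univ_three, Matrix.add_apply, Matrix.sub_apply, Matrix.neg_apply] <;>
    linear_combination (0) * hxy + (0) * h3
  · simp [be_eq_lit, al_eq_lit, Bm, Matrix.mul_apply, Fin.sum_univ_three, Matrix.add_apply, Matrix.sub_apply, Matrix.neg_apply] <;>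
    linear_combination (0) * hxy + (0) * h3
  · simp [be_eq_lit, al_eq_lit, Bm, Matrix.mul_apply, Fin.sum_univ_three, Matrix.add_apply, Matrix.sub_apply, Matrix.neg_apply] <;>
    linear_combination (0) * hxy + (0) * h3
  · simp [be_eq_lit, al_eq_lit, Bm, Matrix.mul_apply, Fin.sum_univ_three, Matrix.add_apply, Matrix.sub_apply, Matrix.neg_apply] <;>
    linear_combination (0) * hxy + (0) * h3

theorem id_h3 (h3 : (3 : R) = 0) (hxy : x * y = u * v) :
    (Bm x u v * al y v - al y v * Bm x u v) + ((!![v; 0; 0] : Matrix (Fin 3) (Fin 1) R) * (!![-x ^ 2, -(x * (u + v ^ 2)), 2 * u ^ 2 + u * v ^ 2] : Matrix (Fin 1) (Fin 3) R) + (!![(u + v ^ 2) ^ 2 - v ^ 4; (u + v ^ 2) * x; x ^ 2] : Matrix (Fin 3) (Fin 1) R) * (!![0, 0, v] : Matrix (Fin 1) (Fin 3) R)) = 0 := by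
  ext i j
  fin_cases i <;> fin_cases j
  · simp [be_eq_lit, al_eq_lit, Bm, Matrix.mul_apply, Fin.sum_univ_three, Matrix.add_apply, Matrix.sub_apply, Matrix.neg_apply] <;>
    linear_combination (0) * hxy + (0) * h3
  · simp [be_eq_lit, al_eq_lit, Bm, Matrix.mul_apply, Fin.sum_univ_three, Matrix.add_apply, Matrix.sub_apply, Matrix.neg_apply] <;>
    linear_combination (0) * hxy + (0) * h3
  · simp [be_eq_lit, al_eq_lit, Bm, Matrix.mul_apply, Fin.sum_univ_three, Matrix.add_apply, Matrix.sub_apply, Matrix.neg_apply] <;>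
    linear_combination (0) * hxy + ((1) * u ^ 2 * v + (1) * u * v ^ 3) * h3
  · simp [be_eq_lit, al_eq_lit, Bm, Matrix.mul_apply, Fin.sum_univ_three, Matrix.add_apply, Matrix.sub_apply, Matrix.neg_apply] <;>
    linear_combination (0) * hxy + (0) * h3
  · simp [be_eq_lit, al_eq_lit, Bm, Matrix.mul_apply, Fin.sum_univ_three, Matrix.add_apply, Matrix.sub_apply, Matrix.neg_apply] <;>
    linear_combination (0) * hxy + (0) * h3
  · simp [be_eq_lit, al_eq_lit, Bm, Matrix.mul_apply, Fin.sum_univ_three, Matrix.add_apply, Matrix.sub_apply, Matrix.neg_apply] <;>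
    linear_combination (0) * hxy + (0) * h3
  · simp [be_eq_lit, al_eq_lit, Bm, Matrix.mul_apply, Fin.sum_univ_three, Matrix.add_apply, Matrix.sub_apply, Matrix.neg_apply] <;>
    linear_combination (0) * hxy + (0) * h3
  · simp [be_eq_lit, al_eq_lit, Bm, Matrix.mul_apply, Fin.sum_univ_three, Matrix.add_apply, Matrix.sub_apply, Matrix.neg_apply] <;>
    linear_combination (0) * hxy + (0) * h3
  · simp [be_eq_lit, al_eq_lit, Bm, Matrix.mul_apply, Fin.sum_univ_three, Matrix.add_apply, Matrix.sub_apply, Matrix.neg_apply] <;>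
    linear_combination (0) * hxy + (0) * h3

theorem id_h4 (h3 : (3 : R) = 0) (hxy : x * y = u * v) :
    0 + ((!![-x; 0; 0] : Matrix (Fin 3) (Fin 1) R) * (!![0, 0, x * v ^ 3] : Matrix (Fin 1) (Fin 3) R) + (!![v ^ 3 * x; 0; 0] : Matrix (Fin 3) (Fin 1) R) * (!![0, 0, x] : Matrix (Fin 1) (Fin 3) R)) = 0 := by
  ext i j
  fin_cases i <;> fin_cases j
  · simp [be_eq_lit, al_eq_lit, Bm, Matrix.mul_apply, Fin.sum_univ_three, Matrix.add_apply, Matrix.sub_apply, Matrix.neg_apply] <;>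
    linear_combination (0) * hxy + (0) * h3
  · simp [be_eq_lit, al_eq_lit, Bm, Matrix.mul_apply, Fin.sum_univ_three, Matrix.add_apply, Matrix.sub_apply, Matrix.neg_apply] <;>
    linear_combination (0) * hxy + (0) * h3
  · simp [be_eq_lit, al_eq_lit, Bm, Matrix.mul_apply, Fin.sum_univ_three, Matrix.add_apply, Matrix.sub_apply, Matrix.neg_apply] <;>
    linear_combination (0) * hxy + (0) * h3
  · simp [be_eq_lit, al_eq_lit, Bm, Matrix.mul_apply, Fin.sum_univ_three, Matrix.add_apply, Matrix.sub_apply, Matrix.neg_apply] <;>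
    linear_combination (0) * hxy + (0) * h3
  · simp [be_eq_lit, al_eq_lit, Bm, Matrix.mul_apply, Fin.sum_univ_three, Matrix.add_apply, Matrix.sub_apply, Matrix.neg_apply] <;>
    linear_combination (0) * hxy + (0) * h3
  · simp [be_eq_lit, al_eq_lit, Bm, Matrix.mul_apply, Fin.sum_univ_three, Matrix.add_apply, Matrix.sub_apply, Matrix.neg_apply] <;>
    linear_combination (0) * hxy + (0) * h3
  · simp [be_eq_lit, al_eq_lit, Bm, Matrix.mul_apply, Fin.sum_univ_three, Matrix.add_apply, Matrix.sub_apply, Matrix.neg_apply] <;>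
    linear_combination (0) * hxy + (0) * h3
  · simp [be_eq_lit, al_eq_lit, Bm, Matrix.mul_apply, Fin.sum_univ_three, Matrix.add_apply, Matrix.sub_apply, Matrix.neg_apply] <;>
    linear_combination (0) * hxy + (0) * h3
  · simp [be_eq_lit, al_eq_lit, Bm, Matrix.mul_apply, Fin.sum_univ_three, Matrix.add_apply, Matrix.sub_apply, Matrix.neg_apply] <;>
    linear_combination (0) * hxy + (0) * h3

theorem id_h5 (h3 : (3 : R) = 0) (hxy : x * y = u * v) :
    be x u v * Bm x u v + ((!![-x; 0; 0] : Matrix (Fin 3) (Fin 1) R) * (!![-x ^ 2, -(x * (u + v ^ 2)), 2 * u ^ 2 + u * v ^ 2] : Matrix (Fin 1) (Fin 3) R) + (!![v ^ 3 * x; 0; 0] : Matrix (Fin 3) (Fin 1) R) * (!![0, 0, v] : Matrix (Fin 1) (Fin 3) R)) = (x ^ 3 • (1 : Matrix (Fin 3) (Fin 3) R)) := by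
  ext i j
  fin_cases i <;> fin_cases j
  · simp [be_eq_lit, al_eq_lit, Bm, Matrix.mul_apply, Fin.sum_univ_three, Matrix.add_apply, Matrix.sub_apply, Matrix.neg_apply] <;>
    linear_combination (0) * hxy + (0) * h3
  · simp [be_eq_lit, al_eq_lit, Bm, Matrix.mul_apply, Fin.sum_univ_three, Matrix.add_apply, Matrix.sub_apply, Matrix.neg_apply] <;>
    linear_combination (0) * hxy + (0) * h3
  · simp [be_eq_lit, al_eq_lit, Bm, Matrix.mul_apply, Fin.sum_univ_three, Matrix.add_apply, Matrix.sub_apply, Matrix.neg_apply] <;>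
    linear_combination (0) * hxy + ((-1) * x * u ^ 2 + (-1) * x * u * v ^ 2) * h3
  · simp [be_eq_lit, al_eq_lit, Bm, Matrix.mul_apply, Fin.sum_univ_three, Matrix.add_apply, Matrix.sub_apply, Matrix.neg_apply] <;>
    linear_combination (0) * hxy + (0) * h3
  · simp [be_eq_lit, al_eq_lit, Bm, Matrix.mul_apply, Fin.sum_univ_three, Matrix.add_apply, Matrix.sub_apply, Matrix.neg_apply] <;>
    linear_combination (0) * hxy + (0) * h3
  · simp [be_eq_lit, al_eq_lit, Bm, Matrix.mul_apply, Fin.sum_univ_three, Matrix.add_apply, Matrix.sub_apply, Matrix.neg_apply] <;>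
    linear_combination (0) * hxy + (0) * h3
  · simp [be_eq_lit, al_eq_lit, Bm, Matrix.mul_apply, Fin.sum_univ_three, Matrix.add_apply, Matrix.sub_apply, Matrix.neg_apply] <;>
    linear_combination (0) * hxy + (0) * h3
  · simp [be_eq_lit, al_eq_lit, Bm, Matrix.mul_apply, Fin.sum_univ_three, Matrix.add_apply, Matrix.sub_apply, Matrix.neg_apply] <;>
    linear_combination (0) * hxy + (0) * h3
  · simp [be_eq_lit, al_eq_lit, Bm, Matrix.mul_apply, Fin.sum_univ_three, Matrix.add_apply, Matrix.sub_apply, Matrix.neg_apply] <;>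
    linear_combination (0) * hxy + (0) * h3

theorem id_h6 (h3 : (3 : R) = 0) (hxy : x * y = u * v) :
    Bm x u v * be x u v + (!![x * (u + v ^ 2) ^ 2; x * ((u + v ^ 2) * x); x * x ^ 2] : Matrix (Fin 3) (Fin 1) R) * (!![0, 0, 1] : Matrix (Fin 1) (Fin 3) R) = (x ^ 3 • (1 : Matrix (Fin 3) (Fin 3) R)) := by
  ext i j
  fin_cases i <;> fin_cases j
  · simp [be_eq_lit, al_eq_lit, Bm, Matrix.mul_apply, Fin.sum_univ_three, Matrix.add_apply, Matrix.sub_apply, Matrix.neg_apply] <;>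
    linear_combination (0) * hxy + (0) * h3
  · simp [be_eq_lit, al_eq_lit, Bm, Matrix.mul_apply, Fin.sum_univ_three, Matrix.add_apply, Matrix.sub_apply, Matrix.neg_apply] <;>
    linear_combination (0) * hxy + (0) * h3
  · simp [be_eq_lit, al_eq_lit, Bm, Matrix.mul_apply, Fin.sum_univ_three, Matrix.add_apply, Matrix.sub_apply, Matrix.neg_apply] <;>
    linear_combination (0) * hxy + (0) * h3
  · simp [be_eq_lit, al_eq_lit, Bm, Matrix.mul_apply, Fin.sum_univ_three, Matrix.add_apply, Matrix.sub_apply, Matrix.neg_apply] <;>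
    linear_combination (0) * hxy + (0) * h3
  · simp [be_eq_lit, al_eq_lit, Bm, Matrix.mul_apply, Fin.sum_univ_three, Matrix.add_apply, Matrix.sub_apply, Matrix.neg_apply] <;>
    linear_combination (0) * hxy + (0) * h3
  · simp [be_eq_lit, al_eq_lit, Bm, Matrix.mul_apply, Fin.sum_univ_three, Matrix.add_apply, Matrix.sub_apply, Matrix.neg_apply] <;>
    linear_combination (0) * hxy + (0) * h3
  · simp [be_eq_lit, al_eq_lit, Bm, Matrix.mul_apply, Fin.sum_univ_three, Matrix.add_apply, Matrix.sub_apply, Matrix.neg_apply] <;>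
    linear_combination (0) * hxy + (0) * h3
  · simp [be_eq_lit, al_eq_lit, Bm, Matrix.mul_apply, Fin.sum_univ_three, Matrix.add_apply, Matrix.sub_apply, Matrix.neg_apply] <;>
    linear_combination (0) * hxy + (0) * h3
  · simp [be_eq_lit, al_eq_lit, Bm, Matrix.mul_apply, Fin.sum_univ_three, Matrix.add_apply, Matrix.sub_apply, Matrix.neg_apply] <;>
    linear_combination (0) * hxy + (0) * h3


theorem Fc_Fb : Fc x y u v = Fb (al y v) (be x u v) := by rw [Fc, kos_eq_Fb]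

theorem Zc_Fb : Zc u v = Fb !![u ^ 3] !![v ^ 3] := by rw [Zc, kos_eq_Fb]

theorem pim_Pb : pim x u v = Pb !![1; 0; 0] !![v; 0; 0]
    !![(u + v ^ 2) ^ 2 - v ^ 4; (u + v ^ 2) * x; x ^ 2] !![-x; 0; 0] !![v ^ 3 * x; 0; 0]
    !![x * (u + v ^ 2) ^ 2; x * ((u + v ^ 2) * x); x * x ^ 2] := rfl

theorem iom_Pb : iom x u v = Pb !![x ^ 3, x ^ 2 * (u + v ^ 2), x * (u + v ^ 2) ^ 2]
    !![0, 0, x * v ^ 3] !![-x ^ 2, -(x * (u + v ^ 2)), 2 * u ^ 2 + u * v ^ 2] !![0, 0, x]
    !![0, 0, v] !![0, 0, 1] := rfl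

theorem km_Kb : km x u v = Kb (Bm x u v) := rfl

theorem wm_Pb : (wm : Matrix (I4 (Fin 1)) (I4 (Fin 1)) R) = Pb 1 0 1 1 0 (-1) := rfl

theorem F_pim (h3 : (3 : R) = 0) (hxy : x * y = u * v) :
    Fc x y u v * pim x u v = pim x u v * Zc u v := by
  rw [Fc_Fb, Zc_Fb, pim_Pb]
  exact Fb_mul_Pb _ _ _ _ _ _ _ _ _ _ (id_e1 x y u v h3 hxy) (id_e2 x y u v h3 hxy)
    (id_e3 x y u v h3 hxy) (id_e4 x y u v h3 hxy)

theorem iom_F (h3 : (3 : R) = 0) (hxy : x * y = u * v) :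
    iom x u v * Fc x y u v = Zc u v * iom x u v := by
  rw [Fc_Fb, Zc_Fb, iom_Pb]
  exact (Fb_mul_Pb _ _ _ _ _ _ _ _ _ _ (id_f1 x y u v h3 hxy) (id_f2 x y u v h3 hxy)
    (id_f3 x y u v h3 hxy) (id_f4 x y u v h3 hxy)).symm

theorem iom_pim (h3 : (3 : R) = 0) (hxy : x * y = u * v) :
    iom x u v * pim x u v = x ^ 3 • (1 : Matrix (I4 (Fin 1)) (I4 (Fin 1)) R) := by
  rw [pim_Pb, iom_Pb, Pb_mul_Pb, id_g1 x y u v h3 hxy, id_g2 x y u v h3 hxy,
    id_g3 x y u v h3 hxy, id_g4 x y u v h3 hxy, id_g5 x y u v h3 hxy, id_g6 x y u v h3 hxy,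
    ← Pb_one, Pb_smul, smul_zero]

theorem km_homotopy (h3 : (3 : R) = 0) (hxy : x * y = u * v) :
    Fc x y u v * km x u v + km x u v * Fc x y u v + pim x u v * iom x u v
      = x ^ 3 • (1 : Matrix (I4 (Fin 3)) (I4 (Fin 3)) R) := by
  rw [pim_Pb, iom_Pb, Pb_mul_Pb, Fc_Fb, km_Kb, Fb_Kb, Pb_add, id_h1 x y u v h3 hxy,
    id_h2 x y u v h3 hxy, id_h3 x y u v h3 hxy, id_h4 x y u v h3 hxy, id_h5 x y u v h3 hxy,
    id_h6 x y u v h3 hxy, ← Pb_one, Pb_smul, smul_zero]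

theorem wm_Zc : (wm : Matrix (I4 (Fin 1)) (I4 (Fin 1)) R) * Zc v u = Zc u v * wm := by
  rw [wm_Pb, Zc_Fb, Zc_Fb]
  refine (Fb_mul_Pb _ _ _ _ _ _ _ _ _ _ ?_ ?_ ?_ ?_).symm <;> simp

theorem wm_wm : (wm : Matrix (I4 (Fin 1)) (I4 (Fin 1)) R) * wm = 1 := by
  rw [wm_Pb, Pb_mul_Pb, ← Pb_one]
  simp

theorem Th_lev : Lev (kdeg (Fin 3)) (kdeg (Fin 3)) (Th x u v) := by
  intro i j hij
  rw [Th, wm_Pb, pim_Pb, iom_Pb, Pb_mul_Pb, Pb_mul_Pb]
  rcases i with (i | i) | (i | i) <;> rcases j with (j | j) | (j | j) <;>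
    first
    | rfl
    | exact absurd rfl hij

theorem Th_chain (h3 : (3 : R) = 0) (hxy : x * y = u * v) :
    Fc x y u v * Th x u v = Th x u v * Fc x y v u := by
  have hyx : x * y = v * u := by rw [hxy, mul_comm]
  exact chain_aux (F_pim x y u v h3 hxy) (wm_Zc u v) (iom_F x y v u h3 hyx)

theorem km_upp : Upp (kdeg (Fin 3)) (km x u v) := by
  intro i j hij
  rcases i with (i | i) | (i | i) <;> rcases j with (j | j) | (j | j) <;>
    first
    | rfl
    | exact absurd rfl hij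

theorem Th_Th (h3 : (3 : R) = 0) (hxy : x * y = u * v) :
    Th x u v * Th x v u = x ^ 3 • (pim x u v * iom x u v) := by
  have hyx : x * y = v * u := by rw [hxy, mul_comm]
  exact Th_aux _ (iom_pim x y v u h3 hyx) wm_wm

theorem Th_homotopy (h3 : (3 : R) = 0) (hxy : x * y = u * v) :
    Fc x y u v * (x ^ 3 • km x u v) + (x ^ 3 • km x u v) * Fc x y u v + Th x u v * Th x v u
      = x ^ 6 • (1 : Matrix (I4 (Fin 3)) (I4 (Fin 3)) R) := by
  rw [Th_Th x y u v h3 hxy, Matrix.mul_smul, Matrix.smul_mul, ← smul_add, ← smul_add,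
    km_homotopy x y u v h3 hxy, smul_smul, ← pow_add]

/-- `Θ` vanishes where `x = u = 0` -/
theorem Th_zero (v : R) : Th 0 0 v = 0 := by
  have e : (v ^ 2) ^ 2 - v ^ 4 = 0 := by ring
  rw [Th, wm_Pb, pim_Pb, iom_Pb, Pb_mul_Pb, Pb_mul_Pb, ← Pb_zero]
  congr 1 <;> (ext i j; fin_cases i <;> fin_cases j <;> simp [Matrix.mul_apply, e])

/-- `Θ` vanishes where `x = v = 0` -/
theorem Th_zero' (u : R) : Th 0 u 0 = 0 := by
  rw [Th, wm_Pb, pim_Pb, iom_Pb, Pb_mul_Pb, Pb_mul_Pb, ← Pb_zero]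
  congr 1 <;> (ext i j; fin_cases i <;> fin_cases j <;> simp [Matrix.mul_apply])

end EXF

end Pool.Agent.H19.KG
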