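import Pool.Agent.H19.KG.Defs

set_option autoImplicit false

/-!
Module GLU: gluing the complexes `X` and `Y` to a complex over the pinched ring.
-/

namespace Pool.Agent.H19.KG

open Matrix

section GLU

variable {κ B N : Type} [Field κ] [CommRing B] [CommRing N] (D : Datum κ B N)

theorem Datum.lift {p q : Type} (M : Matrix p q B) (h : M.map D.ρ₁ = M.map D.ρ₂) :
    ∃ M' : Matrix p q D.A, M'.map D.A.subtype = M := by
  refine ⟨Matrix.of fun i j => ⟨M i j, ?_⟩, ?_⟩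
  · have := congrFun (congrFun h i) j
    exact this
  · ext i j
    rfl

theorem Datum.map_inj {p q : Type} {M M' : Matrix p q D.A}
    (h : M.map D.A.subtype = M'.map D.A.subtype) : M = M' := by
  ext i j
  exact congrFun (congrFun h i) j

/-- the block matrix with scalar blocks -/
def gm {R : Type} [CommRing R] (ι : Type) [DecidableEq ι] (a b c d : R) :
    Matrix (ι ⊕ ι) (ι ⊕ ι) R :=
  fromBlocks (a • 1) (b • 1) (c • 1) (d • 1)

theorem gm_mul {R : Type} [CommRing R] {ι : Type} [Fintype ι] [DecidableEq ι]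
    (a b c d a' b' c' d' : R) :
    gm ι a b c d * gm ι a' b' c' d' =
      gm ι (a * a' + b * c') (a * b' + b * d') (c * a' + d * c') (c * b' + d * d') := by
  rw [gm, gm, gm, fromBlocks_multiply]
  simp only [Matrix.smul_mul, Matrix.mul_smul, mul_one, smul_smul, add_smul]
  simp only [mul_comm]

theorem gm_one {R : Type} [CommRing R] {ι : Type} [DecidableEq ι] :
    gm ι (1 : R) 0 0 1 = 1 := by
  rw [gm, ← fromBlocks_one]
  simp

theorem gm_lev {R : Type} [CommRing R] {ι : Type} [DecidableEq ι] (deg : ι → ℕ) (a b c d : R) :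
    Lev (Sum.elim deg deg) (Sum.elim deg deg) (gm ι a b c d) := by
  have key : ∀ (r : R) (i j : ι), deg i ≠ deg j → (r • (1 : Matrix ι ι R)) i j = 0 := by
    intro r i j hij
    have hne : i ≠ j := fun hh => hij (by rw [hh])
    rw [Matrix.smul_apply, Matrix.one_apply_ne hne, smul_zero]
  rintro (i | i) (j | j) hij
  · exact key a i j hij
  · exact key b i j hij
  · exact key c i j hij
  · exact key d i j hij

theorem gm_conj {R : Type} [CommRing R] {ι : Type} [Fintype ι] [DecidableEq ι]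
    (a b c d a' b' c' d' : R) (X Y : Matrix ι ι R) :
    gm ι a b c d * fromBlocks X 0 0 Y * gm ι a' b' c' d' =
      fromBlocks ((a * a') • X + (b * c') • Y) ((a * b') • X + (b * d') • Y)
        ((c * a') • X + (d * c') • Y) ((c * b') • X + (d * d') • Y) := by
  rw [gm, gm, fromBlocks_multiply, fromBlocks_multiply]
  simp only [Matrix.smul_mul, Matrix.mul_smul, mul_zero, mul_one, one_mul, add_zero,
    zero_add, smul_smul]
  congr 1 <;> (congr 1 <;> rw [mul_comm])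

theorem fromBlocks_low {R : Type} [CommRing R] {ι : Type} (deg : ι → ℕ) {X Y : Matrix ι ι R}
    (hX : Low deg X) (hY : Low deg Y) (p q r s p' q' r' s' : R) :
    Low (Sum.elim deg deg) (fromBlocks (p • X + p' • Y) (q • X + q' • Y) (r • X + r' • Y)
      (s • X + s' • Y)) := by
  have key : ∀ (c c' : R) (i j : ι), deg j ≠ deg i + 1 → (c • X + c' • Y) i j = 0 := by
    intro c c' i j hij
    rw [Matrix.add_apply, Matrix.smul_apply, Matrix.smul_apply, hX i j hij, hY i j hij]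
    simp
  rintro (i | i) (j | j) hij
  · exact key p p' i j hij
  · exact key q q' i j hij
  · exact key r r' i j hij
  · exact key s s' i j hij

theorem fromBlocks_upp {R : Type} [CommRing R] {ι : Type} (deg : ι → ℕ) {X Y : Matrix ι ι R}
    (hX : Upp deg X) (hY : Upp deg Y) (p q r s p' q' r' s' : R) :
    Upp (Sum.elim deg deg) (fromBlocks (p • X + p' • Y) (q • X + q' • Y) (r • X + r' • Y)
      (s • X + s' • Y)) := by
  have key : ∀ (c c' : R) (i j : ι), deg i ≠ deg j + 1 → (c • X + c' • Y) i j = 0 := by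
    intro c c' i j hij
    rw [Matrix.add_apply, Matrix.smul_apply, Matrix.smul_apply, hX i j hij, hY i j hij]
    simp
  rintro (i | i) (j | j) hij
  · exact key p p' i j hij
  · exact key q q' i j hij
  · exact key r r' i j hij
  · exact key s s' i j hij

theorem Datum.glue {ι : Type} [Fintype ι] [DecidableEq ι] (deg : ι → ℕ) (X Y : Matrix ι ι B)
    (hX : Cpx deg X) (hY : Cpx deg Y) (hX1 : X.map D.ρ₁ = 0) (hY2 : Y.map D.ρ₂ = 0)
    (hXY : X.map D.ρ₂ = Y.map D.ρ₁)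
    (hXn : ∀ b, D.ρ₁ b = 0 → ∃ k : ℕ, b ^ k ∈ nulI deg X)
    (hYn : ∀ b, D.ρ₂ b = 0 → ∃ k : ℕ, b ^ k ∈ nulI deg Y) :
    ∃ (d : Matrix (ι ⊕ ι) (ι ⊕ ι) D.A) (T T' : Matrix (ι ⊕ ι) (ι ⊕ ι) B),
      T * T' = 1 ∧ T' * T = 1 ∧ Lev (Sum.elim deg deg) (Sum.elim deg deg) T ∧
      Lev (Sum.elim deg deg) (Sum.elim deg deg) T' ∧
      d.map D.A.subtype * T' = T' * fromBlocks X 0 0 Y ∧
      Cpx (Sum.elim deg deg) d ∧
      ∀ a : D.A, D.ρ₁ (a : B) = 0 → ∃ k : ℕ, a ^ k ∈ nulI (Sum.elim deg deg) d := by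
  obtain ⟨f, hf⟩ : ∃ f : B, f = 1 - D.x := ⟨_, rfl⟩
  have f1 : D.ρ₁ f = 1 := by rw [hf, map_sub, map_one, D.ρ₁x, sub_zero]
  have f2 : D.ρ₂ f = 0 := by rw [hf, map_sub, map_one, D.ρ₂x, sub_self]
  obtain ⟨T', hT'⟩ : ∃ T', T' = gm ι (1 - f ^ 2) (2 * f - f ^ 3) (-f) (1 - f ^ 2) := ⟨_, rfl⟩
  obtain ⟨T, hT⟩ : ∃ T, T = gm ι (1 - f ^ 2) (-(2 * f - f ^ 3)) f (1 - f ^ 2) := ⟨_, rfl⟩
  have hTT' : T * T' = 1 := by
    rw [hT, hT', gm_mul, ← gm_one]
    congr 1 <;> ring
  have hT'T : T' * T = 1 := by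
    rw [hT, hT', gm_mul, ← gm_one]
    congr 1 <;> ring
  -- the differential over `B`
  have hdB := gm_conj (1 - f ^ 2) (2 * f - f ^ 3) (-f) (1 - f ^ 2) (1 - f ^ 2)
    (-(2 * f - f ^ 3)) f (1 - f ^ 2) X Y
  rw [← hT', ← hT] at hdB
  have r12 : D.ρ₁ 2 = 2 := map_ofNat D.ρ₁ 2
  have r22 : D.ρ₂ 2 = 2 := map_ofNat D.ρ₂ 2
  have hX1' : ∀ i j, D.ρ₁ (X i j) = 0 := fun i j => congrFun (congrFun hX1 i) j
  have hY2' : ∀ i j, D.ρ₂ (Y i j) = 0 := fun i j => congrFun (congrFun hY2 i) j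
  have hXY' : ∀ i j, D.ρ₂ (X i j) = D.ρ₁ (Y i j) := fun i j => congrFun (congrFun hXY i) j
  obtain ⟨d, hd⟩ : ∃ d : Matrix (ι ⊕ ι) (ι ⊕ ι) D.A,
      d.map D.A.subtype = T' * fromBlocks X 0 0 Y * T := by
    apply D.lift
    rw [hdB]
    ext (i | i) (j | j) <;>
      simp [f1, f2, hX1', hY2', hXY', r12, r22] <;> norm_num
  refine ⟨d, T, T', hTT', hT'T, ?_, ?_, ?_, ⟨?_, ?_⟩, ?_⟩
  · rw [hT]; exact gm_lev deg _ _ _ _
  · rw [hT']; exact gm_lev deg _ _ _ _
  · rw [hd, mul_assoc, hTT', mul_one]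
  · intro i j hij
    have h1 := fromBlocks_low deg hX.low hY.low ((1 - f ^ 2) * (1 - f ^ 2))
      ((1 - f ^ 2) * -(2 * f - f ^ 3)) (-f * (1 - f ^ 2)) (-f * -(2 * f - f ^ 3))
      ((2 * f - f ^ 3) * f) ((2 * f - f ^ 3) * (1 - f ^ 2)) ((1 - f ^ 2) * f)
      ((1 - f ^ 2) * (1 - f ^ 2)) i j hij
    rw [← hdB, ← hd] at h1
    exact Subtype.ext h1
  · apply D.map_inj
    rw [Matrix.map_mul, hd]
    have h1 : T' * fromBlocks X 0 0 Y * T * (T' * fromBlocks X 0 0 Y * T) =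
        T' * (fromBlocks X 0 0 Y * (T * T') * fromBlocks X 0 0 Y) * T := by
      simp only [mul_assoc]
    rw [h1, hTT', mul_one, fromBlocks_multiply]
    simp only [hX.sq, hY.sq, mul_zero, zero_mul, add_zero, zero_add]
    ext i j
    simp
  · intro a ha
    have ha2 : D.ρ₂ (a : B) = 0 := by
      have : D.ρ₁ (a : B) = D.ρ₂ (a : B) := a.2
      rw [← this, ha]
    obtain ⟨k1, hk1⟩ := hXn a ha
    obtain ⟨k2, hk2⟩ := hYn a ha2
    have hk1' : (a : B) ^ (k1 + k2) ∈ nulI deg X := by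
      rw [pow_add]; exact Ideal.mul_mem_right _ _ hk1
    have hk2' : (a : B) ^ (k1 + k2) ∈ nulI deg Y := by
      rw [pow_add]; exact Ideal.mul_mem_left _ _ hk2
    obtain ⟨p, hp, ep⟩ := hk1'
    obtain ⟨q, hq, eq⟩ := hk2'
    obtain ⟨H, hH⟩ : ∃ H, H = T' * fromBlocks p 0 0 q * T := ⟨_, rfl⟩
    have hHB := gm_conj (1 - f ^ 2) (2 * f - f ^ 3) (-f) (1 - f ^ 2) (1 - f ^ 2)
      (-(2 * f - f ^ 3)) f (1 - f ^ 2) p q
    rw [← hT', ← hT, ← hH] at hHB
    have hHupp : Upp (Sum.elim deg deg) H := by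
      rw [hHB]
      exact fromBlocks_upp deg hp hq _ _ _ _ _ _ _ _
    obtain ⟨h', hh'⟩ : ∃ h' : Matrix (ι ⊕ ι) (ι ⊕ ι) D.A,
        h'.map D.A.subtype = (a : B) • H := by
      apply D.lift
      ext i j
      simp [ha, ha2]
    have hdH : d.map D.A.subtype * H + H * d.map D.A.subtype =
        (a : B) ^ (k1 + k2) • (1 : Matrix (ι ⊕ ι) (ι ⊕ ι) B) := by
      rw [hd, hH]
      have h1 : T' * fromBlocks X 0 0 Y * T * (T' * fromBlocks p 0 0 q * T) =
          T' * (fromBlocks X 0 0 Y * (T * T') * fromBlocks p 0 0 q) * T := by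
        simp only [mul_assoc]
      have h2 : T' * fromBlocks p 0 0 q * T * (T' * fromBlocks X 0 0 Y * T) =
          T' * (fromBlocks p 0 0 q * (T * T') * fromBlocks X 0 0 Y) * T := by
        simp only [mul_assoc]
      rw [h1, h2, hTT', mul_one, mul_one, fromBlocks_multiply, fromBlocks_multiply, ← add_mul,
        ← mul_add, fromBlocks_add]
      simp only [mul_zero, zero_mul, add_zero, zero_add]
      rw [ep, eq]
      have h3 : fromBlocks ((a : B) ^ (k1 + k2) • (1 : Matrix ι ι B)) 0 0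
          ((a : B) ^ (k1 + k2) • (1 : Matrix ι ι B)) =
          (a : B) ^ (k1 + k2) • (1 : Matrix (ι ⊕ ι) (ι ⊕ ι) B) := by
        rw [← fromBlocks_one, fromBlocks_smul]
        simp
      rw [h3, Matrix.mul_smul, Matrix.smul_mul, mul_one, hT'T]
    refine ⟨k1 + k2 + 1, h', ?_, ?_⟩
    · intro i j hij
      have h1 : (h'.map D.A.subtype) i j = 0 := by
        rw [hh', Matrix.smul_apply, hHupp i j hij, smul_zero]
      exact Subtype.ext h1
    · apply D.map_inj
      rw [Matrix.map_add _ (map_add _), Matrix.map_mul, Matrix.map_mul, hh', Matrix.mul_smul,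
        Matrix.smul_mul, ← smul_add, hdH, smul_smul]
      ext i j
      by_cases hij : i = j
      · subst hij
        simp [pow_succ']
      · simp [hij]

end GLU

end Pool.Agent.H19.KG
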