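import Pool.Agent.H19.KG.HlBasic

set_option autoImplicit false

/-! Module HLA: additivity of homology lengths, contractible complexes, conjugation, finiteness. -/

namespace Pool.Agent.H19.KG

open Matrix

section HLA

variable {A N : Type} [CommRing A] [CommRing N] [Algebra A N] {ι κ : Type} [Fintype ι] [DecidableEq ι]
  [Fintype κ] [DecidableEq κ]

theorem act_fromBlocks (a : Matrix ι ι N) (b : Matrix ι κ N) (c : Matrix κ ι N) (d : Matrix κ κ N)
    (w : ι ⊕ κ → N) :
    act A (fromBlocks a b c d) w = Sum.elim (a *ᵥ (w ∘ Sum.inl) + b *ᵥ (w ∘ Sum.inr))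
      (c *ᵥ (w ∘ Sum.inl) + d *ᵥ (w ∘ Sum.inr)) := by
  rw [act_apply]
  exact Matrix.fromBlocks_mulVec a b c d w

theorem hl_blocks (a : ι → ℕ) (b b' : κ → ℕ) (c : ι ⊕ κ → ℕ) (dF : Matrix ι ι N) (dG dG' : Matrix κ κ N)
    (j j' : ℕ) (hc : ∀ i, c (Sum.inl i) = a i) (hc' : ∀ i, c (Sum.inr i) = b' i)
    (hb : ∀ i, b' i = j ↔ b i = j') (hb1 : ∀ i, b' i = j + 1 ↔ b i = j' + 1)
    (hdd : dG' = dG ∨ dG' = -dG) :
    hl A c (fromBlocks dF 0 0 dG') j = hl A a dF j + hl A b dG j' := by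
  let e : (ι ⊕ κ → N) ≃ₗ[A] (ι → N) × (κ → N) := LinearEquiv.sumArrowLequivProdArrow ι κ A N
  have he : ∀ w, e w = (w ∘ Sum.inl, w ∘ Sum.inr) := fun w => rfl
  have hs : ∀ z, e.symm z = Sum.elim z.1 z.2 := fun z => rfl
  have hmem : ∀ w, w ∈ Vj A N c j ↔ (w ∘ Sum.inl ∈ Vj A N a j ∧ w ∘ Sum.inr ∈ Vj A N b j') := by
    intro w
    simp only [mem_Vj]
    constructor
    · intro h
      exact ⟨fun i hi => h _ (by rw [hc]; exact hi), fun i hi => h _ (by rw [hc']; exact fun h' => hi ((hb i).mp h'))⟩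
    · rintro ⟨h1, h2⟩ (i | i) hi
      · exact h1 i (by rwa [hc] at hi)
      · exact h2 i (fun h' => hi (by rw [hc']; exact (hb i).mpr h'))
  have hmem1 : ∀ w, w ∈ Vj A N c (j + 1) ↔
      (w ∘ Sum.inl ∈ Vj A N a (j + 1) ∧ w ∘ Sum.inr ∈ Vj A N b (j' + 1)) := by
    intro w
    simp only [mem_Vj]
    constructor
    · intro h
      exact ⟨fun i hi => h _ (by rw [hc]; exact hi), fun i hi => h _ (by rw [hc']; exact fun h' => hi ((hb1 i).mp h'))⟩
    · rintro ⟨h1, h2⟩ (i | i) hi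
      · exact h1 i (by rwa [hc] at hi)
      · exact h2 i (fun h' => hi (by rw [hc']; exact (hb1 i).mpr h'))
  have hact : ∀ w, act A (fromBlocks dF 0 0 dG') w = Sum.elim (dF *ᵥ (w ∘ Sum.inl)) (dG' *ᵥ (w ∘ Sum.inr)) := by
    intro w
    rw [act_fromBlocks]
    simp
  have hker : ∀ w : κ → N, dG' *ᵥ w = 0 ↔ dG *ᵥ w = 0 := by
    intro w
    rcases hdd with h | h
    · rw [h]
    · rw [h, Matrix.neg_mulVec, neg_eq_zero]
  have h1 : ((Vj A N c j ⊓ LinearMap.ker (act A (fromBlocks dF 0 0 dG'))).map (e : (ι ⊕ κ → N) →ₗ[A] _)) =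
      (Vj A N a j ⊓ LinearMap.ker (act A dF)).prod (Vj A N b j' ⊓ LinearMap.ker (act A dG)) := by
    ext z
    rw [Submodule.mem_map_equiv, Submodule.mem_inf, hmem, LinearMap.mem_ker, hact, hs,
      Submodule.mem_prod, Submodule.mem_inf, Submodule.mem_inf, LinearMap.mem_ker, LinearMap.mem_ker,
      act_apply, act_apply, ← hker]
    have : (Sum.elim (dF *ᵥ (Sum.elim z.1 z.2 ∘ Sum.inl)) (dG' *ᵥ (Sum.elim z.1 z.2 ∘ Sum.inr)) = 0) ↔
        (dF *ᵥ z.1 = 0 ∧ dG' *ᵥ z.2 = 0) := by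
      constructor
      · intro h
        exact ⟨funext fun i => congrFun h (Sum.inl i), funext fun i => congrFun h (Sum.inr i)⟩
      · rintro ⟨h, h'⟩
        funext i
        rcases i with i | i
        · exact congrFun h i
        · exact congrFun h' i
    rw [this]
    simp only [Sum.elim_comp_inl, Sum.elim_comp_inr]
    tauto
  have h2 : (((Vj A N c (j + 1)).map (act A (fromBlocks dF 0 0 dG'))).map (e : (ι ⊕ κ → N) →ₗ[A] _)) =
      ((Vj A N a (j + 1)).map (act A dF)).prod ((Vj A N b (j' + 1)).map (act A dG)) := by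
    ext z
    rw [Submodule.mem_map_equiv, Submodule.mem_prod, Submodule.mem_map, Submodule.mem_map,
      Submodule.mem_map]
    constructor
    · rintro ⟨w, hw, hwz⟩
      rw [hact, hs] at hwz
      obtain ⟨hw1, hw2⟩ := (hmem1 w).mp hw
      refine ⟨⟨w ∘ Sum.inl, hw1, ?_⟩, ?_⟩
      · funext i; exact congrFun hwz (Sum.inl i)
      · have h3 : dG' *ᵥ (w ∘ Sum.inr) = z.2 := by
          funext i; exact congrFun hwz (Sum.inr i)
        rcases hdd with h | h
        · exact ⟨w ∘ Sum.inr, hw2, by rw [act_apply, ← h]; exact h3⟩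
        · refine ⟨-(w ∘ Sum.inr), Submodule.neg_mem _ hw2, ?_⟩
          rw [act_apply, Matrix.mulVec_neg, ← Matrix.neg_mulVec, ← h]
          exact h3
    · rintro ⟨⟨w1, hw1, h1⟩, ⟨w2, hw2, h2⟩⟩
      rw [act_apply] at h1 h2
      rcases hdd with h | h
      · refine ⟨Sum.elim w1 w2, (hmem1 _).mpr ⟨by simpa using hw1, by simpa using hw2⟩, ?_⟩
        rw [hact, hs]
        simp only [Sum.elim_comp_inl, Sum.elim_comp_inr]
        rw [h1, h, h2]
      · refine ⟨Sum.elim w1 (-w2), (hmem1 _).mpr ⟨by simpa using hw1, by simpa using hw2⟩, ?_⟩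
        rw [hact, hs]
        simp only [Sum.elim_comp_inl, Sum.elim_comp_inr]
        rw [h1, h, Matrix.neg_mulVec_neg, h2]
  rw [hl, ← length_map_inj (e : (ι ⊕ κ → N) →ₗ[A] (ι → N) × (κ → N)) (by exact e.injective), h1, h2,
    length_subquot_prod]
  rfl

theorem hl_cone (a : ι → ℕ) (b : κ → ℕ) (dF : Matrix ι ι N) (dG : Matrix κ κ N) (j : ℕ) :
    hl A (cdeg a b) (cone dF 0 dG) (j + 1) = hl A a dF (j + 1) + hl A b dG j :=
  hl_blocks a b (fun i => b i + 1) (cdeg a b) dF dG (-dG) (j + 1) j (fun _ => rfl) (fun _ => rfl)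
    (fun _ => by omega) (fun _ => by omega) (Or.inr rfl)

theorem hl_dsum (a : ι → ℕ) (b : κ → ℕ) (dF : Matrix ι ι N) (dG : Matrix κ κ N) (j : ℕ) :
    hl A (Sum.elim a b) (fromBlocks dF 0 0 dG) j = hl A a dF j + hl A b dG j :=
  hl_blocks a b b (Sum.elim a b) dF dG dG j j (fun _ => rfl) (fun _ => rfl)
    (fun _ => Iff.rfl) (fun _ => Iff.rfl) (Or.inl rfl)

theorem upp_mem (deg : ι → ℕ) (h : Matrix ι ι N) (hh : Upp deg h) (j : ℕ) (w : ι → N)
    (hw : w ∈ Vj A N deg j) : h *ᵥ w ∈ Vj A N deg (j + 1) := by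
  intro i hi
  rw [Matrix.mulVec, dotProduct]
  apply Finset.sum_eq_zero
  intro k _
  by_cases hk : deg k = j
  · rw [hh i k (by omega), zero_mul]
  · rw [hw k hk, mul_zero]

theorem lev_mem (deg : ι → ℕ) (T : Matrix ι ι N) (hT : Lev deg deg T) (j : ℕ) (w : ι → N)
    (hw : w ∈ Vj A N deg j) : T *ᵥ w ∈ Vj A N deg j := by
  intro i hi
  rw [Matrix.mulVec, dotProduct]
  apply Finset.sum_eq_zero
  intro k _
  by_cases hk : deg k = j
  · rw [hT i k (by omega), zero_mul]
  · rw [hw k hk, mul_zero]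

/-- elements of `nulI` kill homology -/
theorem nulI_kills (deg : ι → ℕ) (e : Matrix ι ι N) (r : N) (h : r ∈ nulI deg e) (j : ℕ) (w : ι → N)
    (hw : w ∈ Vj A N deg j ⊓ LinearMap.ker (act A e)) :
    r • w ∈ Submodule.map (act A e) (Vj A N deg (j + 1)) := by
  obtain ⟨k, hk, hk'⟩ := h
  obtain ⟨hw1, hw2⟩ := hw
  refine ⟨k *ᵥ w, upp_mem deg k hk j w hw1, ?_⟩
  rw [SetLike.mem_coe, LinearMap.mem_ker, act_apply] at hw2
  rw [act_apply, Matrix.mulVec_mulVec]
  have : (e * k + k * e) *ᵥ w = r • w := by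
    rw [hk', Matrix.smul_mulVec, Matrix.one_mulVec]
  have h0 : (k * e) *ᵥ w = 0 := by rw [← Matrix.mulVec_mulVec, hw2, Matrix.mulVec_zero]
  rw [← this, Matrix.add_mulVec, h0, add_zero]

theorem hl_contractible (deg : ι → ℕ) (e : Matrix ι ι N) (h : (1 : N) ∈ nulI deg e) (j : ℕ) :
    hl A deg e j = 0 := by
  rw [hl]
  apply length_subquot_eq_zero
  intro w hw
  have := nulI_kills deg e 1 h j w hw
  rwa [one_smul] at this

theorem hl_conj (deg : ι → ℕ) (e e' T T' : Matrix ι ι N) (h1 : T * T' = 1) (h2 : T' * T = 1)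
    (hT : Lev deg deg T) (hT' : Lev deg deg T') (h : e' * T' = T' * e) (j : ℕ) :
    hl A deg e' j = hl A deg e j := by
  have hinj : Function.Injective (act A T') := by
    intro w w' hw
    have := congrArg (act A T) hw
    rw [← act_mul, ← act_mul, h1] at this
    simpa [act_apply] using this
  have hTT : ∀ w : ι → N, T' *ᵥ (T *ᵥ w) = w := by
    intro w; rw [Matrix.mulVec_mulVec, h2, Matrix.one_mulVec]
  have hcomm : ∀ w : ι → N, e' *ᵥ (T' *ᵥ w) = T' *ᵥ (e *ᵥ w) := by
    intro w; rw [Matrix.mulVec_mulVec, h, Matrix.mulVec_mulVec]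
  have hV : ∀ j, (Vj A N deg j).map (act A T') = Vj A N deg j := by
    intro j
    apply le_antisymm
    · rw [Submodule.map_le_iff_le_comap]
      intro w hw
      exact lev_mem deg T' hT' j w hw
    · intro w hw
      exact ⟨T *ᵥ w, lev_mem deg T hT j w hw, hTT w⟩
  have hA : (Vj A N deg j ⊓ LinearMap.ker (act A e)).map (act A T') =
      Vj A N deg j ⊓ LinearMap.ker (act A e') := by
    rw [Submodule.map_inf _ hinj, hV]
    congr 1
    ext w
    rw [Submodule.mem_map, LinearMap.mem_ker, act_apply]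
    constructor
    · rintro ⟨z, hz, rfl⟩
      rw [LinearMap.mem_ker, act_apply] at hz
      rw [act_apply, hcomm, hz, Matrix.mulVec_zero]
    · intro hw
      refine ⟨T *ᵥ w, ?_, hTT w⟩
      rw [LinearMap.mem_ker]
      apply hinj
      rw [map_zero, act_apply, act_apply, ← hcomm, hTT, hw]
  have hB : ((Vj A N deg (j + 1)).map (act A e)).map (act A T') = (Vj A N deg (j + 1)).map (act A e') := by
    conv_rhs => rw [← hV (j + 1)]
    rw [← Submodule.map_comp, ← Submodule.map_comp]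
    congr 1
    ext w
    simp only [LinearMap.comp_apply, act_apply, hcomm]
  rw [hl, ← hA, ← hB, length_map_inj _ hinj]
  rfl

theorem hl_zero (deg : ι → ℕ) (e : Matrix ι ι N) (j : ℕ) (h : ∀ i, deg i ≠ j) : hl A deg e j = 0 := by
  rw [hl]
  apply length_subquot_eq_zero
  rintro w ⟨hw, -⟩
  have : w = 0 := funext fun i => hw i (h i)
  rw [this]
  exact Submodule.zero_mem _

/-- finite length criterion -/
theorem length_lt_top_of_nilp {A M : Type*} [CommRing A] [IsLocalRing A] [IsNoetherianRing A]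
    [AddCommGroup M] [Module A M] [Module.Finite A M]
    (h : ∀ a ∈ IsLocalRing.maximalIdeal A, ∃ k : ℕ, a ^ k ∈ Module.annihilator A M) :
    Module.length A M < ⊤ := by
  set I := Module.annihilator A M with hI
  by_cases htop : I = ⊤
  · have : Subsingleton M := by
      rw [← Module.annihilator_eq_top_iff (R := A)]
      exact htop
    rw [Module.length_eq_zero]
    exact ENat.top_pos
  have hnt : Nontrivial (A ⧸ I) := Ideal.Quotient.nontrivial_iff.mpr htop
  have hloc : IsLocalRing (A ⧸ I) := IsLocalRing.of_surjective' (Ideal.Quotient.mk I)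
    Ideal.Quotient.mk_surjective
  have hart : IsArtinianRing (A ⧸ I) := by
    rw [isArtinianRing_iff_isNilpotent_maximalIdeal,
      Ideal.FG.isNilpotent_iff_le_nilradical (IsNoetherian.noetherian _)]
    intro q hq
    obtain ⟨a, rfl⟩ := Ideal.Quotient.mk_surjective q
    have ha : a ∈ IsLocalRing.maximalIdeal A := by
      rw [IsLocalRing.mem_maximalIdeal, mem_nonunits_iff] at hq ⊢
      exact fun hu => hq (hu.map _)
    obtain ⟨k, hk⟩ := h a ha
    refine ⟨k, ?_⟩
    rw [← map_pow]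
    exact Ideal.Quotient.eq_zero_iff_mem.mpr hk
  have ht : Module.IsTorsionBySet A M I := Module.isTorsionBySet_annihilator A M
  let _ : Module (A ⧸ I) M := ht.module
  have : IsScalarTower A (A ⧸ I) M := ht.isScalarTower
  have : Module.Finite (A ⧸ I) M := Module.Finite.of_restrictScalars_finite A (A ⧸ I) M
  have : IsArtinian (A ⧸ I) M := inferInstance
  have : IsArtinian A M := isArtinian_of_surjective_algebraMap (R := A ⧸ I) Ideal.Quotient.mk_surjective
  exact (Module.length_ne_top).lt_top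

theorem hl_finite [IsLocalRing A] [IsNoetherianRing A] (deg : ι → ℕ) (d : Matrix ι ι A)
    (h : ∀ a ∈ IsLocalRing.maximalIdeal A, ∃ k : ℕ, a ^ k ∈ nulI deg d) (j : ℕ) :
    hl A deg d j < ⊤ := by
  rw [hl]
  apply length_lt_top_of_nilp
  intro a ha
  obtain ⟨k, hk⟩ := h a ha
  refine ⟨k, ?_⟩
  rw [Module.mem_annihilator]
  rintro ⟨z, w, hw, rfl⟩
  apply Subtype.ext
  have := nulI_kills deg d _ hk j w hw
  change (a ^ k) • (Submodule.mkQ _ w) = 0
  rw [← map_smul, Submodule.mkQ_apply, Submodule.Quotient.mk_eq_zero]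
  exact this

end HLA

end Pool.Agent.H19.KG
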