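import Pool.Agent.H19.KG.Hlk

set_option autoImplicit false

/-! Module LEN: lengths over `A` of the complexes on `N`. -/

namespace Pool.Agent.H19.KG

open Matrix

section LEN

theorem len_hl_zero {A N ι : Type} [CommRing A] [CommRing N] [Algebra A N] [Fintype ι]
    (deg : ι → ℕ) (e : Matrix ι ι N) (j : ℕ) (h : ∀ i, deg i ≠ j) : hl A deg e j = 0 := by
  unfold hl
  refine length_subquot_eq_zero _ _ ?_
  rintro w ⟨hw, _⟩
  have : w = 0 := by
    funext i
    exact hw i (h i)
  rw [this]
  exact Submodule.zero_mem _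

variable {κ A N : Type} [Field κ] [CommRing A] [CommRing N] [IsDomain N] [Algebra A N]
  (σ : N →+* κ) (y v : N)

/-- the residue map on `N ^ 3`, its kernel and its length -/
theorem len_phi {κ A N : Type} [Field κ] [CommRing A] [CommRing N] [Algebra A N] (σ : N →+* κ)
    (hA : ∀ c : κ, ∃ a : A, σ (algebraMap A N a) = c) :
    ∃ (_ : Module A (Fin 3 → κ)) (Φ : (Fin 3 → N) →ₗ[A] (Fin 3 → κ)), Function.Surjective Φ ∧
      Module.length A (Fin 3 → κ) = 3 ∧ ∀ w, Φ w = 0 ↔ ∀ i, σ (w i) = 0 := by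
  let alg : Algebra A κ := (σ.comp (algebraMap A N)).toAlgebra
  have hal : ∀ a : A, algebraMap A κ a = σ (algebraMap A N a) := fun a => rfl
  refine ⟨inferInstance,
    { toFun := fun w i => σ (w i)
      map_add' := by
        intro x z
        funext i
        simp
      map_smul' := by
        intro c x
        funext i
        simp only [Pi.smul_apply, RingHom.id_apply, Algebra.smul_def, map_mul, hal] }, ?_, ?_, ?_⟩
  · intro z
    choose a ha using fun i => hA (z i)
    refine ⟨fun i => algebraMap A N (a i), ?_⟩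
    funext i
    exact ha i
  · rw [Module.length_pi]
    have h1 : Module.length A κ = 1 := by
      rw [Module.length_eq_of_surjective (R := κ) (S := A) (M := κ) hA]
      exact Module.length_eq_one κ κ
    rw [h1]
    simp
  · intro w
    constructor
    · intro h i
      exact congrFun h i
    · intro h
      funext i
      exact h i

omit [IsDomain N] in
/-- `range (y • 1) ⊔ range (v • 1)` -/
theorem len_mem_yv (hσ : ∀ m : N, σ m = 0 ↔ ∃ p q : N, m = y * p + v * q) (w : Fin 3 → N) :
    w ∈ (LinearMap.range (act A (y • (1 : Matrix (Fin 3) (Fin 3) N))) ⊔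
      LinearMap.range (act A (v • (1 : Matrix (Fin 3) (Fin 3) N)))) ↔ ∀ i, σ (w i) = 0 := by
  have hact : ∀ (r : N) (z : Fin 3 → N), act A (r • (1 : Matrix (Fin 3) (Fin 3) N)) z = r • z := by
    intro r z
    rw [act_apply, Matrix.smul_mulVec, Matrix.one_mulVec]
  constructor
  · intro h i
    obtain ⟨z1, ⟨w1, rfl⟩, z2, ⟨w2, rfl⟩, rfl⟩ := Submodule.mem_sup.mp h
    rw [hact, hact, hσ]
    exact ⟨w1 i, w2 i, rfl⟩
  · intro h
    choose p q hpq using fun i => (hσ (w i)).mp (h i)
    refine Submodule.mem_sup.mpr ⟨y • p, ⟨p, hact y p⟩, v • q, ⟨q, hact v q⟩, ?_⟩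
    funext i
    exact (hpq i).symm

/-- the complexes which become Koszul on `y, v` -/
theorem hl_G (hA : ∀ c : κ, ∃ a : A, σ (algebraMap A N a) = c)
    (hσ : ∀ m : N, σ m = 0 ↔ ∃ p q : N, m = y * p + v * q) (hy : y ≠ 0) (hv : v ≠ 0)
    (reg : ∀ m n : N, y * m = v * n → ∃ m', m = v * m') :
    hl A (kdeg (Fin 3)) (kos (y • (1 : Matrix (Fin 3) (Fin 3) N)) (v • 1)) 1 = 3 ∧
    ∀ j, j ≠ 1 → hl A (kdeg (Fin 3)) (kos (y • (1 : Matrix (Fin 3) (Fin 3) N)) (v • 1)) j = 0 := by
  have hsm : ∀ (r : N) (z : Fin 3 → N), (r • (1 : Matrix (Fin 3) (Fin 3) N)) *ᵥ z = r • z := by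
    intro r z
    rw [Matrix.smul_mulVec, Matrix.one_mulVec]
  have hb : ∀ w : Fin 3 → N, (v • (1 : Matrix (Fin 3) (Fin 3) N)) *ᵥ w = 0 → w = 0 := by
    intro w hw
    rw [hsm] at hw
    funext i
    have := congrFun hw i
    simp only [Pi.smul_apply, smul_eq_mul, Pi.zero_apply, mul_eq_zero] at this
    exact this.resolve_left hv
  constructor
  · rw [hl_kos_one]
    obtain ⟨mod, Φ, hΦs, hΦl, hΦk⟩ := len_phi (A := A) σ hA
    have hker : LinearMap.ker Φ = LinearMap.range (act A (y • (1 : Matrix (Fin 3) (Fin 3) N))) ⊔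
      LinearMap.range (act A (v • (1 : Matrix (Fin 3) (Fin 3) N))) := by
      ext w
      rw [len_mem_yv σ y v hσ, LinearMap.mem_ker, hΦk]
    rw [← hker, ← hΦl]
    exact (Φ.quotKerEquivOfSurjective hΦs).length_eq
  · intro j hj
    rcases j with _ | _ | _ | _ | j
    · refine len_hl_zero _ _ _ ?_
      rintro ((i | i) | (i | i)) <;> simp [kdeg, cdeg]
    · exact absurd rfl hj
    · refine hl_kos_two _ _ ?_ hb ?_
      · rw [Matrix.mul_smul, Matrix.smul_mul, Matrix.mul_smul, Matrix.smul_mul, smul_smul, smul_smul,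
          mul_comm y v]
      · intro w z h
        rw [hsm, hsm] at h
        choose w' hw' using fun i => reg (w i) (z i) (congrFun h i)
        refine ⟨w', ?_⟩
        rw [hsm]
        funext i
        exact hw' i
    · exact hl_kos_three _ _ hb
    · refine len_hl_zero _ _ _ ?_
      rintro ((i | i) | (i | i)) <;> simp [kdeg, cdeg]

/-- the complex `F` on `N` -/
theorem hl_F (hA : ∀ c : κ, ∃ a : A, σ (algebraMap A N a) = c)
    (hσ : ∀ m : N, σ m = 0 ↔ ∃ p q : N, m = y * p + v * q) (hy : y ≠ 0) (hv : v ≠ 0)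
    (reg : ∀ m n : N, y * m = v * n → ∃ m', m = v * m') :
    (4 ≤ hl A (kdeg (Fin 3)) (Fc 0 y 0 v) 1 ∧ hl A (kdeg (Fin 3)) (Fc 0 y 0 v) 1 < ⊤) ∧
    ∀ j, j ≠ 1 → hl A (kdeg (Fin 3)) (Fc 0 y 0 v) j = 0 := by
  have hv2 : v ^ 2 ≠ 0 := pow_ne_zero 2 hv
  have hbe : be 0 0 v = (v ^ 2) • (1 : Matrix (Fin 3) (Fin 3) N) := by
    unfold be
    rw [zero_smul, sub_zero, zero_add]
  have hFc : Fc 0 y 0 v = kos (al y v) ((v ^ 2) • (1 : Matrix (Fin 3) (Fin 3) N)) := by
    unfold Fc
    rw [hbe]
  have hsm : ∀ (r : N) (z : Fin 3 → N), (r • (1 : Matrix (Fin 3) (Fin 3) N)) *ᵥ z = r • z := by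
    intro r z
    rw [Matrix.smul_mulVec, Matrix.one_mulVec]
  have hal0 : ∀ w : Fin 3 → N, (al y v *ᵥ w) 0 = y * w 0 := by
    intro w
    simp [al, Sm, Matrix.mulVec, dotProduct, Fin.sum_univ_three]
  have hal1 : ∀ w : Fin 3 → N, (al y v *ᵥ w) 1 = y * w 1 - v * w 0 := by
    intro w
    simp [al, Sm, Matrix.mulVec, dotProduct, Fin.sum_univ_three]
    ring
  have hal2 : ∀ w : Fin 3 → N, (al y v *ᵥ w) 2 = y * w 2 - v * w 1 := by
    intro w
    simp [al, Sm, Matrix.mulVec, dotProduct, Fin.sum_univ_three]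
    ring
  have hS : ∀ w : Fin 3 → N, al y v *ᵥ w = y • w - v • ((Sm : Matrix (Fin 3) (Fin 3) N) *ᵥ w) := by
    intro w
    unfold al
    rw [Matrix.sub_mulVec, Matrix.smul_mulVec, Matrix.smul_mulVec, Matrix.one_mulVec]
  have hb : ∀ w : Fin 3 → N, ((v ^ 2) • (1 : Matrix (Fin 3) (Fin 3) N)) *ᵥ w = 0 → w = 0 := by
    intro w hw
    rw [hsm] at hw
    funext i
    have := congrFun hw i
    simp only [Pi.smul_apply, smul_eq_mul, Pi.zero_apply, mul_eq_zero] at this
    exact this.resolve_left hv2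
  have reg2 : ∀ m n : N, y * m = v ^ 2 * n → ∃ m', m = v ^ 2 * m' := by
    intro m n h
    obtain ⟨m1, hm1⟩ := reg m (v * n) (by rw [h]; ring)
    obtain ⟨m2, hm2⟩ := reg m1 n (by
      have : v * (y * m1) = v * (v * n) := by
        rw [hm1] at h
        linear_combination h
      exact mul_left_cancel₀ hv this)
    exact ⟨m2, by rw [hm1, hm2]; ring⟩
  rw [hFc]
  constructor
  · rw [hl_kos_one]
    set P : Submodule A (Fin 3 → N) := LinearMap.range (act A (al y v)) ⊔
      LinearMap.range (act A ((v ^ 2) • (1 : Matrix (Fin 3) (Fin 3) N))) with hP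
    obtain ⟨mod, Φ, hΦs, hΦl, hΦk⟩ := len_phi (A := A) σ hA
    have hyv : ∀ w, w ∈ LinearMap.ker Φ ↔ ∃ w1 w2 : Fin 3 → N, w = y • w1 + v • w2 := by
      intro w
      rw [LinearMap.mem_ker, hΦk]
      constructor
      · intro h
        choose p q hpq using fun i => (hσ (w i)).mp (h i)
        exact ⟨p, q, funext hpq⟩
      · rintro ⟨w1, w2, rfl⟩ i
        rw [hσ]
        exact ⟨w1 i, w2 i, rfl⟩
    have hal_mem : ∀ w, al y v *ᵥ w ∈ P := fun w => Submodule.mem_sup_left ⟨w, rfl⟩
    have hv2_mem : ∀ w : Fin 3 → N, (v ^ 2) • w ∈ P := by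
      intro w
      refine Submodule.mem_sup_right ⟨w, ?_⟩
      rw [act_apply, hsm]
    have hPmem : ∀ w, w ∈ P → ∃ w1 w2 : Fin 3 → N, w = al y v *ᵥ w1 + (v ^ 2) • w2 := by
      intro w hw
      obtain ⟨z1, ⟨w1, rfl⟩, z2, ⟨w2, rfl⟩, rfl⟩ := Submodule.mem_sup.mp hw
      refine ⟨w1, w2, ?_⟩
      rw [act_apply, act_apply, hsm]
    have hPle : P ≤ LinearMap.ker Φ := by
      intro w hw
      obtain ⟨w1, w2, rfl⟩ := hPmem w hw
      rw [hyv]
      refine ⟨w1, v • w2 - (Sm : Matrix (Fin 3) (Fin 3) N) *ᵥ w1, ?_⟩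
      rw [hS, smul_sub, smul_smul, pow_two]
      abel
    -- the quotient map `g`
    set g : ((Fin 3 → N) ⧸ P) →ₗ[A] (Fin 3 → κ) := P.liftQ Φ hPle with hg
    have hgs : Function.Surjective g := by
      intro z
      obtain ⟨w, hw⟩ := hΦs z
      exact ⟨P.mkQ w, by rw [hg, Submodule.mkQ_apply, Submodule.liftQ_apply, hw]⟩
    have hlen := Module.length_eq_add_of_exact (LinearMap.ker g).subtype g
      (Submodule.subtype_injective _) hgs (LinearMap.exact_subtype_ker_map g)
    rw [hΦl] at hlen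
    -- multiplication by `v`
    set h : (Fin 3 → N) →ₗ[A] ((Fin 3 → N) ⧸ P) :=
      P.mkQ.comp (act A (v • (1 : Matrix (Fin 3) (Fin 3) N))) with hh
    have hhv : ∀ w, h w = P.mkQ (v • w) := by
      intro w
      rw [hh, LinearMap.comp_apply, act_apply, hsm]
    have hkerh : LinearMap.ker Φ ≤ LinearMap.ker h := by
      intro w hw
      obtain ⟨w1, w2, rfl⟩ := (hyv w).mp hw
      rw [LinearMap.mem_ker, hhv, ← LinearMap.mem_ker, Submodule.ker_mkQ]
      have e : v • (y • w1 + v • w2) = al y v *ᵥ (v • w1) +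
          (v ^ 2) • ((Sm : Matrix (Fin 3) (Fin 3) N) *ᵥ w1 + w2) := by
        rw [hS, Matrix.mulVec_smul, smul_add, smul_add, smul_smul, smul_smul, smul_smul, smul_smul,
          pow_two, mul_comm v y]
        abel
      rw [e]
      exact P.add_mem (hal_mem _) (hv2_mem _)
    have hrange : LinearMap.range h = LinearMap.ker g := by
      ext z
      obtain ⟨w, rfl⟩ := P.mkQ_surjective z
      rw [LinearMap.mem_ker, hg, Submodule.mkQ_apply, Submodule.liftQ_apply, ← LinearMap.mem_ker,
        ← Submodule.mkQ_apply]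
      constructor
      · rintro ⟨w', hw'⟩
        rw [hhv] at hw'
        have h1 : v • w' - w ∈ P := by
          rw [← Submodule.ker_mkQ P, LinearMap.mem_ker, map_sub, hw', sub_self]
        have h2 := hPle h1
        have h3 : v • w' ∈ LinearMap.ker Φ := (hyv _).mpr ⟨0, w', by rw [smul_zero, zero_add]⟩
        have h4 : w = v • w' - (v • w' - w) := by abel
        rw [h4]
        exact Submodule.sub_mem _ h3 h2
      · intro hw
        obtain ⟨w1, w2, rfl⟩ := (hyv w).mp hw
        refine ⟨(Sm : Matrix (Fin 3) (Fin 3) N) *ᵥ w1 + w2, ?_⟩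
        rw [hhv, ← sub_eq_zero, ← map_sub, ← LinearMap.mem_ker, Submodule.ker_mkQ]
        have e : v • ((Sm : Matrix (Fin 3) (Fin 3) N) *ᵥ w1 + w2) - (y • w1 + v • w2) =
            -(al y v *ᵥ w1) := by
          rw [hS, smul_add]
          abel
        rw [e]
        exact P.neg_mem (hal_mem _)
    have hle3 : Module.length A (LinearMap.ker g) ≤ 3 := by
      rw [← hrange]
      -- `N ^ 3 / ker Φ → range h`
      have hr : LinearMap.ker Φ ≤ LinearMap.ker h.rangeRestrict := by
        rw [LinearMap.ker_rangeRestrict]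
        exact hkerh
      have hsur : Function.Surjective ((LinearMap.ker Φ).liftQ h.rangeRestrict hr) := by
        intro z
        obtain ⟨w, hw⟩ := h.surjective_rangeRestrict z
        exact ⟨(LinearMap.ker Φ).mkQ w, by rw [Submodule.mkQ_apply, Submodule.liftQ_apply, hw]⟩
      have h1 := Module.length_le_of_surjective _ hsur
      rw [(Φ.quotKerEquivOfSurjective hΦs).length_eq, hΦl] at h1
      exact h1
    have hge1 : 1 ≤ Module.length A (LinearMap.ker g) := by
      rw [Order.one_le_iff_pos, Module.length_pos_iff, Submodule.nontrivial_iff_ne_bot]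
      intro hbot
      -- `v e₀` is in `P`
      have h1 : h (Pi.single 0 1) = 0 := by
        have : h (Pi.single 0 1) ∈ LinearMap.range h := ⟨_, rfl⟩
        rw [hrange, hbot, Submodule.mem_bot] at this
        exact this
      rw [hhv, ← LinearMap.mem_ker, Submodule.ker_mkQ] at h1
      obtain ⟨m, n, hmn⟩ := hPmem _ h1
      have h2 := congrFun hmn 0
      rw [Pi.add_apply, hal0] at h2
      simp only [Pi.smul_apply, Pi.single_eq_same, smul_eq_mul, mul_one] at h2
      obtain ⟨m', hm'⟩ := reg (m 0) (1 - v * n 0) (by linear_combination -h2)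
      rw [hm'] at h2
      have h3 : (1 : N) = y * m' + v * n 0 := by
        refine mul_left_cancel₀ hv ?_
        linear_combination h2
      have h4 := (hσ 1).mpr ⟨m', n 0, h3⟩
      rw [map_one] at h4
      exact one_ne_zero h4
    rw [hlen]
    constructor
    · calc (4 : ℕ∞) = 1 + 3 := by norm_num
        _ ≤ _ := by gcongr
    · have : Module.length A (LinearMap.ker g) + 3 ≤ 3 + 3 := by gcongr
      exact lt_of_le_of_lt this (by decide)
  · intro j hj
    rcases j with _ | _ | _ | _ | j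
    · refine len_hl_zero _ _ _ ?_
      rintro ((i | i) | (i | i)) <;> simp [kdeg, cdeg]
    · exact absurd rfl hj
    · refine hl_kos_two _ _ ?_ hb ?_
      · rw [Matrix.mul_smul, Matrix.smul_mul, mul_one, one_mul]
      · intro w z h
        rw [hsm] at h
        have h0 := congrFun h 0
        have h1 := congrFun h 1
        have h2 := congrFun h 2
        rw [hal0] at h0
        rw [hal1] at h1
        rw [hal2] at h2
        simp only [Pi.smul_apply, smul_eq_mul] at h0 h1 h2
        obtain ⟨a0, ha0⟩ := reg2 (w 0) (z 0) h0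
        obtain ⟨a1, ha1⟩ := reg2 (w 1) (z 1 + v * a0) (by
          rw [ha0] at h1
          linear_combination h1)
        obtain ⟨a2, ha2⟩ := reg2 (w 2) (z 2 + v * a1) (by
          rw [ha1] at h2
          linear_combination h2)
        refine ⟨![a0, a1, a2], ?_⟩
        rw [hsm]
        funext i
        fin_cases i
        · simpa using ha0
        · simpa using ha1
        · simpa using ha2
    · exact hl_kos_three _ _ hb
    · refine len_hl_zero _ _ _ ?_
      rintro ((i | i) | (i | i)) <;> simp [kdeg, cdeg]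

end LEN

end Pool.Agent.H19.KG
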