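import Pool.Agent.H19.KG.Defs

set_option autoImplicit false

/-! Free modules `Fin n → A` and tensor products (helper59). -/

namespace Pool.Agent.H19.KG

open Matrix TensorProduct

section core

variable {A : Type*} [CommRing A]

theorem length_map_mkQ {V V' : Type*} [AddCommGroup V] [Module A V] [AddCommGroup V'] [Module A V']
    (I : V' →ₗ[A] V) (hI : Function.Injective I) (p q : Submodule A V) (p' q' : Submodule A V')
    (hp : p'.map I = p) (hq : q'.map I = q) :
    Module.length A ↥(q'.map p'.mkQ) = Module.length A ↥(q.map p.mkQ) := by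
  let α : q' →ₗ[A] ↥(q'.map p'.mkQ) := p'.mkQ.submoduleMap q'
  have hα : Function.Surjective α := LinearMap.submoduleMap_surjective _ _
  let β : q' →ₗ[A] ↥(q.map p.mkQ) :=
    LinearMap.codRestrict (q.map p.mkQ) ((p.mkQ.comp I).comp q'.subtype) (by
      rintro ⟨t, ht⟩
      exact ⟨I t, by rw [← hq]; exact ⟨t, ht, rfl⟩, rfl⟩)
  have hβ : Function.Surjective β := by
    rintro ⟨_, ⟨v, hv, rfl⟩⟩
    have hv' : v ∈ q'.map I := by rw [hq]; exact hv
    obtain ⟨t, ht, rfl⟩ := hv'
    exact ⟨⟨t, ht⟩, rfl⟩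
  have hker : LinearMap.ker α = LinearMap.ker β := by
    ext ⟨t, ht⟩
    rw [LinearMap.mem_ker, LinearMap.mem_ker, Subtype.ext_iff, Subtype.ext_iff]
    change p'.mkQ t = 0 ↔ p.mkQ (I t) = 0
    rw [Submodule.mkQ_apply, Submodule.mkQ_apply, Submodule.Quotient.mk_eq_zero,
      Submodule.Quotient.mk_eq_zero, ← hp]
    constructor
    · intro h
      exact ⟨t, h, rfl⟩
    · rintro ⟨t', ht', h⟩
      rwa [← hI h]
  rw [← (α.quotKerEquivOfSurjective hα).length_eq, ← (β.quotKerEquivOfSurjective hβ).length_eq,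
    hker]

theorem len_core {N : Type*} [CommRing N] [Algebra A N] {ι : Type*} [Fintype ι] (deg : ι → ℕ)
    (e : Matrix ι ι N) (j : ℕ) {T0 T1 T2 : Type*} [AddCommGroup T0] [Module A T0]
    [AddCommGroup T1] [Module A T1] [AddCommGroup T2] [Module A T2]
    (I0 : T0 →ₗ[A] (ι → N)) (I1 : T1 →ₗ[A] (ι → N)) (I2 : T2 →ₗ[A] (ι → N))
    (f : T1 →ₗ[A] T0) (g : T2 →ₗ[A] T1) (h0 : Function.Injective I0) (h1 : Function.Injective I1)
    (r1 : LinearMap.range I1 = Vj A N deg (j + 1)) (r2 : LinearMap.range I2 = Vj A N deg (j + 2))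
    (c1 : ∀ t, act A e (I1 t) = I0 (f t)) (c2 : ∀ t, act A e (I2 t) = I1 (g t)) :
    Module.length A ↥(Submodule.map (LinearMap.range g).mkQ (LinearMap.ker f)) =
      hl A deg e (j + 1) := by
  rw [hl]
  apply length_map_mkQ I1 h1
  · rw [← r2]
    ext v
    constructor
    · rintro ⟨_, ⟨t, rfl⟩, rfl⟩
      exact ⟨I2 t, ⟨t, rfl⟩, c2 t⟩
    · rintro ⟨_, ⟨t, rfl⟩, rfl⟩
      exact ⟨g t, ⟨t, rfl⟩, (c2 t).symm⟩
  · rw [← r1]
    ext v
    constructor
    · rintro ⟨t, ht, rfl⟩
      refine ⟨⟨t, rfl⟩, ?_⟩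
      have ht' : f t = 0 := ht
      change act A e (I1 t) = 0
      rw [c1, ht', map_zero]
    · rintro ⟨⟨t, rfl⟩, ht⟩
      rw [SetLike.mem_coe, LinearMap.mem_ker, c1] at ht
      refine ⟨t, ?_, rfl⟩
      exact h0 (by rw [ht, map_zero])

end core

section TEN

variable {A : Type} [CommRing A] {ι : Type} [Fintype ι] (deg : ι → ℕ) (d : Matrix ι ι A)

/-- the inclusion of the degree `j` part -/
noncomputable def inc (N : Type) [CommRing N] [Algebra A N] (j : ℕ) :
    (Fin (nn deg j) → N) →ₗ[A] (ι → N) where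
  toFun w i := if h : deg i = j then w ((ee deg j).symm ⟨i, h⟩) else 0
  map_add' := by
    intro v w
    ext i
    by_cases h : deg i = j <;> simp [h]
  map_smul' := by
    intro c w
    ext i
    by_cases h : deg i = j <;> simp [h]

variable {deg} in
theorem inc_apply_ee {N : Type} [CommRing N] [Algebra A N] (j : ℕ) (w : Fin (nn deg j) → N)
    (b : Fin (nn deg j)) : inc (A := A) deg N j w (ee deg j b).1 = w b := by
  have h : deg (ee deg j b).1 = j := (ee deg j b).2
  change (if h : deg (ee deg j b).1 = j then w ((ee deg j).symm ⟨(ee deg j b).1, h⟩) else 0) = w b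
  rw [dif_pos h]
  congr 1
  exact (ee deg j).symm_apply_apply b

theorem inc_injective (N : Type) [CommRing N] [Algebra A N] (j : ℕ) :
    Function.Injective (inc (A := A) deg N j) := by
  intro v w h
  ext b
  rw [← inc_apply_ee (A := A) j v b, ← inc_apply_ee (A := A) j w b, h]

theorem range_inc (N : Type) [CommRing N] [Algebra A N] (j : ℕ) :
    LinearMap.range (inc (A := A) deg N j) = Vj A N deg j := by
  ext v
  constructor
  · rintro ⟨w, rfl⟩ i hi
    exact dif_neg hi
  · intro hv
    refine ⟨fun b => v (ee deg j b).1, ?_⟩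
    ext i
    by_cases h : deg i = j
    · have := inc_apply_ee (A := A) j (fun b => v (ee deg j b).1) ((ee deg j).symm ⟨i, h⟩)
      simp only [Equiv.apply_symm_apply] at this
      exact this
    · rw [hv i h]
      exact dif_neg h

/-- a sum over `ι` supported in degree `j`. -/
theorem sum_ee {M : Type} [AddCommMonoid M] (j : ℕ) (F : ι → M) (hF : ∀ i, deg i ≠ j → F i = 0) :
    ∑ i, F i = ∑ b : Fin (nn deg j), F (ee deg j b).1 := by
  classical
  have h1 : ∑ b : Fin (nn deg j), F (ee deg j b).1 = ∑ b : {i // deg i = j}, F b.1 :=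
    Equiv.sum_comp (ee deg j) (fun b : {i // deg i = j} => F b.1)
  rw [h1, ← Finset.sum_subtype (Finset.univ.filter (fun i => deg i = j)) (by simp) F,
    ← Finset.sum_filter_add_sum_filter_not Finset.univ (fun i => deg i = j)]
  have h3 : ∑ x with ¬ deg x = j, F x = 0 := Finset.sum_eq_zero (by
    intro x hx
    exact hF x (Finset.mem_filter.1 hx).2)
  rw [h3, add_zero]

theorem act_inc (N : Type) [CommRing N] [Algebra A N] (e : Matrix ι ι N) (he : Low deg e) (j : ℕ)
    (w : Fin (nn deg (j + 1)) → N) :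
    act A e (inc (A := A) deg N (j + 1) w) = inc (A := A) deg N j
      (fun a => ∑ b, e (ee deg j a).1 (ee deg (j + 1) b).1 * w b) := by
  ext i
  have h0 : act A e (inc (A := A) deg N (j + 1) w) i =
      ∑ k, e i k * inc (A := A) deg N (j + 1) w k := rfl
  rw [h0]
  by_cases hi : deg i = j
  · rw [sum_ee deg (j + 1)]
    · have h1 : inc (A := A) deg N j
          (fun a => ∑ b, e (ee deg j a).1 (ee deg (j + 1) b).1 * w b) i =
          ∑ b, e (ee deg j ((ee deg j).symm ⟨i, hi⟩)).1 (ee deg (j + 1) b).1 * w b := dif_pos hi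
      rw [h1, Equiv.apply_symm_apply]
      apply Finset.sum_congr rfl
      intro b _
      rw [inc_apply_ee]
    · intro k hk
      rw [show inc (A := A) deg N (j + 1) w k = 0 from dif_neg hk, mul_zero]
  · rw [show inc (A := A) deg N j
          (fun a => ∑ b, e (ee deg j a).1 (ee deg (j + 1) b).1 * w b) i = 0 from dif_neg hi]
    apply Finset.sum_eq_zero
    intro k _
    by_cases hk : deg k = j + 1
    · rw [he i k (by omega), zero_mul]
    · rw [show inc (A := A) deg N (j + 1) w k = 0 from dif_neg hk, mul_zero]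

theorem DD_apply (j : ℕ) (w : Fin (nn deg (j + 1)) → A) :
    DD deg d j w = fun a => ∑ b, d (ee deg j a).1 (ee deg (j + 1) b).1 * w b := rfl

theorem DD_inc (h : Cpx deg d) (j : ℕ) (w : Fin (nn deg (j + 1)) → A) :
    act A d (inc (A := A) deg A (j + 1) w) = inc (A := A) deg A j (DD deg d j w) := by
  rw [act_inc (A := A) deg A d h.low j w, DD_apply]

theorem DD_comp (h : Cpx deg d) (j : ℕ) : (DD deg d j).comp (DD deg d (j + 1)) = 0 := by
  apply LinearMap.ext
  intro w
  apply inc_injective (A := A) deg A j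
  rw [LinearMap.comp_apply, ← DD_inc deg d h, ← DD_inc deg d h, LinearMap.zero_apply, map_zero]
  change d *ᵥ (d *ᵥ (inc (A := A) deg A (j + 1 + 1) w)) = 0
  rw [Matrix.mulVec_mulVec, h.sq, Matrix.zero_mulVec]

theorem DD_len (h : Cpx deg d) (j : ℕ) :
    Module.length A ↥(Submodule.map (LinearMap.range (DD deg d (j + 1))).mkQ
      (LinearMap.ker (DD deg d j))) = hl A deg d (j + 1) :=
  len_core deg d j (inc deg A j) (inc deg A (j + 1)) (inc deg A (j + 2)) _ _
    (inc_injective deg A j) (inc_injective deg A (j + 1)) (range_inc deg A (j + 1))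
    (range_inc deg A (j + 2)) (DD_inc deg d h j) (DD_inc deg d h (j + 1))

/-- `(Fin n → A) ⊗ N ≃ (Fin n → N)` -/
noncomputable def tau (N : Type) [CommRing N] [Algebra A N] (n : ℕ) :
    (Fin n → A) ⊗[A] N ≃ₗ[A] (Fin n → N) :=
  (TensorProduct.comm A (Fin n → A) N).trans (TensorProduct.piScalarRight A A N (Fin n))

theorem tau_tmul (N : Type) [CommRing N] [Algebra A N] (n : ℕ) (w : Fin n → A) (m : N) :
    tau N n (w ⊗ₜ m) = fun i => w i • m := by
  simp [tau]

theorem tau_rTensor (N : Type) [CommRing N] [Algebra A N] (j : ℕ)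
    (t : (Fin (nn deg (j + 1)) → A) ⊗[A] N) :
    tau N (nn deg j) ((DD deg d j).rTensor N t) =
      fun a => ∑ b, (d.map (algebraMap A N)) (ee deg j a).1 (ee deg (j + 1) b).1 *
        (tau N (nn deg (j + 1)) t) b := by
  induction t using TensorProduct.induction_on with
  | zero => ext a; simp
  | add x y hx hy =>
    rw [map_add, map_add, hx, hy]
    ext a
    simp only [Pi.add_apply, map_add, mul_add, Finset.sum_add_distrib]
  | tmul w m =>
    rw [LinearMap.rTensor_tmul, tau_tmul, tau_tmul, DD_apply]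
    ext a
    simp only [Matrix.map_apply, Finset.sum_smul]
    apply Finset.sum_congr rfl
    intro b _
    rw [mul_smul, Algebra.smul_def]

theorem DD_len_tensor (N : Type) [CommRing N] [Algebra A N] (h : Cpx deg d) (j : ℕ) :
    Module.length A ↥(Submodule.map (LinearMap.range ((DD deg d (j + 1)).rTensor N)).mkQ
      (LinearMap.ker ((DD deg d j).rTensor N))) = hl A deg (d.map (algebraMap A N)) (j + 1) := by
  have hlow : Low deg (d.map (algebraMap A N)) := by
    intro i k hik
    rw [Matrix.map_apply, h.low i k hik, map_zero]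
  let I : ∀ j, ((Fin (nn deg j) → A) ⊗[A] N) →ₗ[A] (ι → N) :=
    fun j => (inc (A := A) deg N j).comp (tau N (nn deg j)).toLinearMap
  have hinj : ∀ j, Function.Injective (I j) := fun j =>
    (inc_injective (A := A) deg N j).comp (tau N (nn deg j)).injective
  have hran : ∀ j, LinearMap.range (I j) = Vj A N deg j := by
    intro j
    rw [← range_inc (A := A) deg N j]
    exact LinearMap.range_comp_of_range_eq_top _ (LinearEquiv.range _)
  have hc : ∀ j t, act A (d.map (algebraMap A N)) (I (j + 1) t) =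
      I j ((DD deg d j).rTensor N t) := by
    intro j t
    change act A (d.map (algebraMap A N)) (inc (A := A) deg N (j + 1) (tau N _ t)) =
      inc (A := A) deg N j (tau N _ ((DD deg d j).rTensor N t))
    rw [act_inc (A := A) deg N _ hlow, tau_rTensor]
  exact len_core deg _ j (I j) (I (j + 1)) (I (j + 2)) _ _ (hinj j) (hinj (j + 1)) (hran (j + 1))
    (hran (j + 2)) (hc j) (hc (j + 1))

end TEN

end Pool.Agent.H19.KG
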