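import Pool.Agent.H19.KG.NulH
import Pool.Agent.H19.KG.Exf

set_option autoImplicit false

/-! Module XYC: the complexes `RW`, `X` and `Y`. -/

namespace Pool.Agent.H19.KG

open Matrix

section XYC

variable {R R' : Type} [CommRing R] [CommRing R']

/-! #### base change -/

theorem xyc_cone_map {ι κ : Type} (f : R →+* R') (a : Matrix ι ι R) (b : Matrix ι κ R)
    (c : Matrix κ κ R) : (cone a b c).map f = cone (a.map f) (b.map f) (c.map f) := by
  unfold cone
  rw [Matrix.fromBlocks_map]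
  congr 1
  · ext i j; simp
  · ext i j; simp

theorem xyc_zero_map {ι κ : Type} (f : R →+* R') : (0 : Matrix ι κ R).map f = 0 := by
  ext i j; simp

theorem xyc_kos_map {n : Type} (f : R →+* R') (a b : Matrix n n R) :
    (kos a b).map f = kos (a.map f) (b.map f) := by
  unfold kos
  rw [xyc_cone_map, xyc_cone_map, Matrix.fromBlocks_map, xyc_zero_map]

theorem xyc_smul_one_map {n : Type} [DecidableEq n] (f : R →+* R') (r : R) :
    (r • (1 : Matrix n n R)).map f = f r • 1 := by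
  ext i j
  by_cases h : i = j
  · subst h; simp
  · simp [h]

theorem xyc_al_map (f : R →+* R') (y v : R) : (al y v).map f = al (f y) (f v) := by
  ext i j
  fin_cases i <;> fin_cases j <;> simp [al, Sm]

theorem xyc_be_map (f : R →+* R') (x u v : R) : (be x u v).map f = be (f x) (f u) (f v) := by
  ext i j
  fin_cases i <;> fin_cases j <;> simp [be, Sm]

theorem xyc_Fc_map (f : R →+* R') (x y u v : R) :
    (Fc x y u v).map f = Fc (f x) (f y) (f u) (f v) := by
  unfold Fc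
  rw [xyc_kos_map, xyc_al_map, xyc_be_map]

theorem xyc_pim_map (f : R →+* R') (x u v : R) : (pim x u v).map f = pim (f x) (f u) (f v) := by
  unfold pim
  simp only [Matrix.fromBlocks_map, xyc_zero_map]
  congr 2 <;> ext i j <;> fin_cases i <;> fin_cases j <;> simp

theorem xyc_iom_map (f : R →+* R') (x u v : R) : (iom x u v).map f = iom (f x) (f u) (f v) := by
  have h2 : f 2 = 2 := map_ofNat f 2
  unfold iom
  simp only [Matrix.fromBlocks_map, xyc_zero_map]
  congr 2 <;> ext i j <;> fin_cases i <;> fin_cases j <;> simp [h2]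

theorem xyc_wm_map (f : R →+* R') : (wm : Matrix (I4 (Fin 1)) (I4 (Fin 1)) R).map f = wm := by
  unfold wm
  simp only [Matrix.fromBlocks_map, xyc_zero_map]
  congr 2 <;> ext i j <;> fin_cases i <;> fin_cases j <;> simp

theorem xyc_Th_map (f : R →+* R') (x u v : R) : (Th x u v).map f = Th (f x) (f u) (f v) := by
  unfold Th
  rw [Matrix.map_mul, Matrix.map_mul, xyc_pim_map, xyc_wm_map, xyc_iom_map]

theorem RW_map (f : R →+* R') (x y u v : R) :
    (RW x y u v).map f = RW (f x) (f y) (f u) (f v) := by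
  unfold RW
  rw [xyc_cone_map, xyc_Fc_map, xyc_Fc_map, xyc_Th_map]

theorem Xc_map (f : R →+* R') (x y u v : R) :
    (Xc x y u v).map f = Xc (f x) (f y) (f u) (f v) := by
  unfold Xc
  rw [xyc_cone_map, xyc_cone_map, xyc_cone_map, xyc_zero_map, xyc_zero_map, RW_map, RW_map]

theorem Yc_map (f : R →+* R') (x u v s : R) :
    (Yc x u v s).map f = Yc (f x) (f u) (f v) (f s) := by
  unfold Yc
  rw [xyc_cone_map, xyc_cone_map, RW_map, xyc_smul_one_map, xyc_smul_one_map, map_sub, map_one,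
    map_zero, map_mul]

/-! #### complexes -/

theorem xyc_Sm3 : (Sm : Matrix (Fin 3) (Fin 3) R) * Sm * Sm = 0 := by
  ext i j
  fin_cases i <;> fin_cases j <;> simp [Sm, Matrix.mul_apply, Fin.sum_univ_three]

theorem al_be_comm (x y u v : R) : al y v * be x u v = be x u v * al y v := by
  unfold al be
  simp only [sub_mul, mul_sub, Matrix.smul_mul, Matrix.mul_smul, one_mul, mul_one, smul_smul]
  rw [mul_comm y x, mul_comm v x, mul_comm y, mul_comm v]
  abel

theorem RW_cpx (x y u v : R) (h3 : (3 : R) = 0) (hxy : x * y = u * v) : Cpx rdeg (RW x y u v) :=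
  cpx_cone (cpx_kos (al_be_comm x y u v)) (cpx_kos (al_be_comm x y v u)) (Th_lev x u v)
    (Th_chain x y u v h3 hxy)

theorem xyc_lev_zero {ι κ : Type} (a : ι → ℕ) (b : κ → ℕ) : Lev a b (0 : Matrix ι κ R) :=
  fun _ _ _ => rfl

theorem xyc_lev_smul {ι : Type} [DecidableEq ι] (a : ι → ℕ) (r : R) :
    Lev a a (r • (1 : Matrix ι ι R)) := by
  intro i j h
  have : i ≠ j := fun h' => h (by rw [h'])
  simp [this]

theorem xyc_comm_smul {ι : Type} [Fintype ι] [DecidableEq ι] (d : Matrix ι ι R) (r : R) :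
    d * (r • 1) = (r • 1) * d := by
  rw [Matrix.mul_smul, Matrix.smul_mul, mul_one, one_mul]

theorem Xc_cpx (x y u v : R) (h3 : (3 : R) = 0) (hxy : x * y = u * v) : Cpx deg32 (Xc x y u v) := by
  have h1 := RW_cpx x y u v h3 hxy
  have h2 := RW_cpx x y v u h3 (by rw [hxy, mul_comm])
  have h12 := cpx_cone h1 h2 (xyc_lev_zero _ _) (by rw [mul_zero, zero_mul])
  have h21 := cpx_cone h2 h1 (xyc_lev_zero _ _) (by rw [mul_zero, zero_mul])
  exact cpx_cone h12 h21 (xyc_lev_zero _ _) (by rw [mul_zero, zero_mul])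

theorem xyc_Y1_cpx (x u v : R) (h3 : (3 : R) = 0) :
    Cpx (cdeg rdeg rdeg) (cone (RW (1 - x) 0 u 0) (v • 1) (RW (1 - x) 0 u 0)) := by
  have h1 := RW_cpx (1 - x) 0 u 0 h3 (by ring)
  exact cpx_cone h1 h1 (xyc_lev_smul _ _) (xyc_comm_smul _ _)

theorem Yc_cpx (x u v s : R) (h3 : (3 : R) = 0) : Cpx deg32 (Yc x u v s) := by
  have h2 := xyc_Y1_cpx x u v h3
  exact cpx_cone h2 h2 (xyc_lev_smul _ _) (xyc_comm_smul _ _)

/-! #### special values -/

theorem xyc_cone_zero {ι κ : Type} : cone (0 : Matrix ι ι R) (0 : Matrix ι κ R) 0 = 0 := by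
  unfold cone
  rw [neg_zero, Matrix.fromBlocks_zero]

theorem xyc_al_zero (y : R) : al y 0 = y • 1 := by
  unfold al
  rw [zero_smul, sub_zero]

theorem xyc_be_zero (u v : R) : be 0 u v = (u + v ^ 2) • 1 := by
  unfold be
  rw [zero_smul, sub_zero]

theorem xyc_Fc_zero (y v : R) : Fc 0 y v 0 = kos (y • 1) (v • 1) := by
  unfold Fc
  rw [xyc_al_zero, xyc_be_zero]
  congr 2
  ring

theorem xyc_kos_zero {n : Type} : kos (0 : Matrix n n R) 0 = 0 := by
  unfold kos
  rw [xyc_cone_zero, Matrix.fromBlocks_zero, xyc_cone_zero]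

/-- the blocks of `X` where `x = u = 0` -/
theorem RW_zero (y v : R) : RW 0 y 0 v = cone (Fc 0 y 0 v) 0 (kos (y • 1) (v • 1)) := by
  unfold RW
  rw [Th_zero, xyc_Fc_zero]

theorem RW_zero' (y v : R) : RW 0 y v 0 = cone (kos (y • 1) (v • 1)) 0 (Fc 0 y 0 v) := by
  unfold RW
  rw [Th_zero', xyc_Fc_zero]

theorem xyc_RW_zero : RW (0 : R) 0 0 0 = 0 := by
  rw [RW_zero, xyc_Fc_zero, zero_smul, xyc_kos_zero, xyc_cone_zero]

theorem Xc_zero : Xc (0 : R) 0 0 0 = 0 := by
  unfold Xc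
  rw [xyc_RW_zero, xyc_cone_zero, xyc_cone_zero]

/-- at the second point (where `s = 0`) -/
theorem Yc_zero : Yc (1 : R) 0 0 0 = 0 := by
  unfold Yc
  rw [sub_self, xyc_RW_zero, zero_mul, zero_smul, zero_smul, xyc_cone_zero, xyc_cone_zero]

/-- the values of `X` at the second point and of `Y` at the first point agree -/
theorem Xc_eq_Yc (s : R) : Xc (1 : R) 0 0 0 = Yc 0 0 0 s := by
  unfold Xc Yc
  rw [sub_zero, mul_zero, zero_smul, zero_smul]

/-! #### null-homotopies -/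

theorem xyc_F_nul (x y u v : R) (h3 : (3 : R) = 0) (hxy : x * y = u * v) :
    y ^ 6 ∈ nulI (kdeg (Fin 3)) (Fc x y u v) ∧ u ^ 6 ∈ nulI (kdeg (Fin 3)) (Fc x y u v) ∧
      v ^ 6 ∈ nulI (kdeg (Fin 3)) (Fc x y u v) := by
  have hS := xyc_Sm3 (R := R)
  have hab := al_be_comm x y u v
  -- commutation with polynomials in `Sm`
  have hcS : ∀ r s t : R, ∀ a b : R,
      (r • (1 : Matrix (Fin 3) (Fin 3) R) + s • Sm + t • (Sm * Sm)) * (a • 1 - b • Sm) =
        (a • 1 - b • Sm) * (r • (1 : Matrix (Fin 3) (Fin 3) R) + s • Sm + t • (Sm * Sm)) := by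
    intro r s t a b
    simp only [add_mul, mul_add, sub_mul, mul_sub, Matrix.smul_mul, Matrix.mul_smul, one_mul,
      mul_one, smul_smul, Matrix.mul_assoc]
    rw [mul_comm r a, mul_comm s a, mul_comm t a, mul_comm r b, mul_comm s b, mul_comm t b]
    abel
  refine ⟨?_, ?_, ?_⟩
  · -- `y ^ 3`
    have key := nulI_kos (a := al y v) (b := be x u v)
      (a' := (y ^ 2) • 1 + (y * v) • Sm + (v ^ 2) • (Sm * Sm)) (b' := 0) hab
      (hcS _ _ _ _ _) (hcS _ _ _ _ _) (by rw [zero_mul, mul_zero]) (by rw [zero_mul, mul_zero])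
      (y ^ 3) ?_
    · rw [← pow_mul] at key
      exact key
    · unfold al
      rw [mul_zero, add_zero]
      ext i j
      fin_cases i <;> fin_cases j <;>
        simp [Sm, Matrix.mul_apply, Fin.sum_univ_three] <;> ring
  · -- `u ^ 3`
    have key := nulI_kos (a := al y v) (b := be x u v)
      (a' := (x * v ^ 3) • 1 + (0 : R) • Sm + (0 : R) • (Sm * Sm))
      (b' := ((u + v ^ 2) ^ 2 - v ^ 4) • 1 + ((u + v ^ 2) * x) • Sm + (x ^ 2) • (Sm * Sm)) hab
      (hcS _ _ _ _ _) (hcS _ _ _ _ _) (hcS _ _ _ _ _) (hcS _ _ _ _ _) (u ^ 3) ?_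
    · rw [← pow_mul] at key
      exact key
    · unfold al be
      ext i j
      fin_cases i <;> fin_cases j <;>
        simp [Sm, Matrix.mul_apply, Fin.sum_univ_three]
      all_goals first
        | ring1
        | linear_combination (v ^ 3) * hxy + (u ^ 2 * v ^ 2 + u * v ^ 4) * h3
  · -- `v ^ 3`
    have key := nulI_kos (a := al y v) (b := be x u v)
      (a' := (-x) • 1 + (0 : R) • Sm + (0 : R) • (Sm * Sm))
      (b' := v • 1 + (0 : R) • Sm + (0 : R) • (Sm * Sm)) hab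
      (hcS _ _ _ _ _) (hcS _ _ _ _ _) (hcS _ _ _ _ _) (hcS _ _ _ _ _) (v ^ 3) ?_
    · rw [← pow_mul] at key
      exact key
    · unfold al be
      ext i j
      fin_cases i <;> fin_cases j <;>
        simp [Sm]
      all_goals first
        | ring1
        | linear_combination -hxy

/-- powers of `x, y, u, v` are null-homotopic on `RW` -/
theorem RW_nul (x y u v : R) (h3 : (3 : R) = 0) (hxy : x * y = u * v) :
    ∃ k : ℕ, x ^ k ∈ nulI rdeg (RW x y u v) ∧ y ^ k ∈ nulI rdeg (RW x y u v) ∧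
      u ^ k ∈ nulI rdeg (RW x y u v) ∧ v ^ k ∈ nulI rdeg (RW x y u v) := by
  have hxy' : x * y = v * u := by rw [hxy, mul_comm]
  obtain ⟨f1, f2, f3⟩ := xyc_F_nul x y u v h3 hxy
  obtain ⟨g1, g2, g3⟩ := xyc_F_nul x y v u h3 hxy'
  have hF : Cpx (kdeg (Fin 3)) (Fc x y u v) := cpx_kos (al_be_comm x y u v)
  have hG : Cpx (kdeg (Fin 3)) (Fc x y v u) := cpx_kos (al_be_comm x y v u)
  have hb : ∀ r : R, r ^ 6 ∈ nulI (kdeg (Fin 3)) (Fc x y u v) →
      r ^ 6 ∈ nulI (kdeg (Fin 3)) (Fc x y v u) → r ^ 12 ∈ nulI rdeg (RW x y u v) := by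
    intro r h1 h2
    have := nulI_cone_of_both hF hG (Th_lev x u v) (Th_chain x y u v h3 hxy) (r ^ 6) h1 h2
    rw [← pow_mul] at this
    exact this
  refine ⟨12, ?_, hb y f1 g1, hb u f2 g3, hb v f3 g2⟩
  have hk : ∀ a b c d : R, Upp (kdeg (Fin 3)) (d • km a b c) := by
    intro a b c d i j hij
    have := km_upp a b c i j hij
    rw [Matrix.smul_apply, this, smul_zero]
  have := nulI_cone hF hG (Th_lev x u v) (Th_chain x y u v h3 hxy) (x ^ 6)
    (x ^ 3 • km x u v) (x ^ 3 • km x v u) (Th x v u) (hk _ _ _ _) (hk _ _ _ _) (Th_lev x v u)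
    (Th_chain x y v u h3 hxy') (Th_homotopy x y u v h3 hxy) (Th_homotopy x y v u h3 hxy')
  rw [← pow_mul] at this
  exact this

theorem xyc_rad {ι : Type} [Fintype ι] [DecidableEq ι] (deg : ι → ℕ) (d : Matrix ι ι R)
    (S : Set R) (hS : ∀ r ∈ S, ∃ k : ℕ, r ^ k ∈ nulI deg d) (b : R) (hb : b ∈ Ideal.span S) :
    ∃ k : ℕ, b ^ k ∈ nulI deg d := by
  have h1 : Ideal.span S ≤ (nulI deg d).radical := by
    rw [Ideal.span_le]
    intro r hr
    exact hS r hr
  exact h1 hb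

theorem Xc_nul (x y u v : R) (h3 : (3 : R) = 0) (hxy : x * y = u * v) (b : R)
    (hb : b ∈ Ideal.span ({x, y, u, v} : Set R)) : ∃ k : ℕ, b ^ k ∈ nulI deg32 (Xc x y u v) := by
  have hxy' : x * y = v * u := by rw [hxy, mul_comm]
  obtain ⟨k, k1, k2, k3, k4⟩ := RW_nul x y u v h3 hxy
  obtain ⟨l, l1, l2, l3, l4⟩ := RW_nul x y v u h3 hxy'
  have h1 := RW_cpx x y u v h3 hxy
  have h2 := RW_cpx x y v u h3 hxy'
  have z12 : RW x y u v * (0 : Matrix I8 I8 R) = 0 * RW x y v u := by rw [mul_zero, zero_mul]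
  have z21 : RW x y v u * (0 : Matrix I8 I8 R) = 0 * RW x y u v := by rw [mul_zero, zero_mul]
  have h12 := cpx_cone h1 h2 (xyc_lev_zero _ _) z12
  have h21 := cpx_cone h2 h1 (xyc_lev_zero _ _) z21
  have key : ∀ r : R, r ^ k ∈ nulI rdeg (RW x y u v) → r ^ l ∈ nulI rdeg (RW x y v u) →
      ∃ m : ℕ, r ^ m ∈ nulI deg32 (Xc x y u v) := by
    intro r hr1 hr2
    have e1 : r ^ (k + l) ∈ nulI rdeg (RW x y u v) := by
      rw [pow_add]
      exact Ideal.mul_mem_right _ _ hr1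
    have e2 : r ^ (k + l) ∈ nulI rdeg (RW x y v u) := by
      rw [pow_add]
      exact Ideal.mul_mem_left _ _ hr2
    have f1 := nulI_cone_of_both h1 h2 (xyc_lev_zero _ _) z12 _ e1 e2
    have f2 := nulI_cone_of_both h2 h1 (xyc_lev_zero _ _) z21 _ e2 e1
    have g := nulI_cone_of_both h12 h21 (xyc_lev_zero _ _) (by rw [mul_zero, zero_mul]) _ f1 f2
    refine ⟨(k + l) * 2 * 2, ?_⟩
    rw [pow_mul, pow_mul]
    exact g
  refine xyc_rad _ _ _ ?_ b hb
  rintro r (rfl | rfl | rfl | rfl)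
  · exact key _ k1 l1
  · exact key _ k2 l2
  · exact key _ k3 l4
  · exact key _ k4 l3

theorem Yc_nul (x u v s : R) (h3 : (3 : R) = 0) (b : R)
    (hb : b ∈ Ideal.span ({1 - x, u, v, s * x} : Set R)) : ∃ k : ℕ, b ^ k ∈ nulI deg32 (Yc x u v s) := by
  have hxy : (1 - x) * 0 = u * 0 := by ring
  obtain ⟨k, k1, k2, k3, k4⟩ := RW_nul (1 - x) 0 u 0 h3 hxy
  have h1 := RW_cpx (1 - x) 0 u 0 h3 hxy
  have h2 := xyc_Y1_cpx x u v h3
  have key : ∀ r : R, r ^ k ∈ nulI rdeg (RW (1 - x) 0 u 0) →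
      ∃ m : ℕ, r ^ m ∈ nulI deg32 (Yc x u v s) := by
    intro r hr
    have f1 := nulI_cone_of_both h1 h1 (xyc_lev_smul _ v) (xyc_comm_smul _ _) _ hr hr
    have g := nulI_cone_of_both h2 h2 (xyc_lev_smul _ (s * x)) (xyc_comm_smul _ _) _ f1 f1
    refine ⟨k * 2 * 2, ?_⟩
    rw [pow_mul, pow_mul]
    exact g
  refine xyc_rad _ _ _ ?_ b hb
  rintro r (rfl | rfl | rfl | rfl)
  · exact key _ k1
  · exact key _ k3
  · have f1 := nulI_cone_smul h1 r
    have g := nulI_cone_of_both h2 h2 (xyc_lev_smul _ (s * x)) (xyc_comm_smul _ _) _ f1 f1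
    refine ⟨2 * 2, ?_⟩
    rw [pow_mul]
    exact g
  · exact ⟨2, nulI_cone_smul h2 (s * x)⟩

end XYC

end Pool.Agent.H19.KG
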