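import Pool.Agent.H19.KG.PKG
import Pool.Agent.H19.KG.Xyc
import Pool.Agent.H19.KG.Glu
import Pool.Agent.H19.KG.TEN
import Pool.Agent.H19.KG.Hla
import Pool.Agent.H19.KG.Len

set_option autoImplicit false

namespace Pool.Agent.H19.KG

open Matrix

theorem deg32_pos (i : I32) : 1 ≤ deg32 i ∧ deg32 i ≤ 6 := by
  rcases i with ((i | i) | (i | i)) | ((i | i) | (i | i)) <;>
    rcases i with (i | i) | (i | i) <;>
    simp [deg32, rdeg, cdeg, kdeg]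

section

variable {κ B N : Type} [Field κ] [CommRing B] [CommRing N] [IsDomain N] (D : Datum κ B N)

theorem Datum.A_surj (c : κ) : ∃ a : D.A, D.σ (D.toN a) = c := by
  obtain ⟨b, h1, h2⟩ := D.surj c c
  refine ⟨⟨b, ?_⟩, ?_⟩
  · change D.ρ₁ b = D.ρ₂ b
    rw [h1, h2]
  · change D.σ (D.τ b) = c
    rw [D.στ, h1]

theorem Datum.σ_ker (m : N) : D.σ m = 0 ↔ ∃ p q : N, m = D.τ D.y * p + D.τ D.v * q := by
  constructor
  · intro hm
    obtain ⟨b, rfl⟩ := D.τ_surj m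
    have hb := D.ker₁ b (by rw [← D.στ]; exact hm)
    rw [Ideal.mem_span_insert] at hb
    obtain ⟨a1, b1, hb1, rfl⟩ := hb
    rw [Ideal.mem_span_insert] at hb1
    obtain ⟨a2, b2, hb2, rfl⟩ := hb1
    rw [Ideal.mem_span_insert] at hb2
    obtain ⟨a3, b3, hb3, rfl⟩ := hb2
    rw [Ideal.mem_span_singleton] at hb3
    obtain ⟨a4, rfl⟩ := hb3
    refine ⟨D.τ a2, D.τ a4, ?_⟩
    simp only [map_add, map_mul, D.τx, D.τu]
    ring
  · rintro ⟨p, q, rfl⟩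
    rw [map_add, map_mul, map_mul, D.στ, D.στ, D.ρ₁y, D.ρ₁v]
    ring

/-- homology lengths of `X` on `N` -/
theorem hl_X : letI := D.toN.toAlgebra
    ∃ l : ℕ, 4 ≤ l ∧ hl D.A deg32 ((Xc D.x D.y D.u D.v).map D.τ) 1 = l ∧
      hl D.A deg32 ((Xc D.x D.y D.u D.v).map D.τ) 2 = 9 ∧
      hl D.A deg32 ((Xc D.x D.y D.u D.v).map D.τ) 3 = (3 * l : ℕ) ∧
      hl D.A deg32 ((Xc D.x D.y D.u D.v).map D.τ) 4 = 3 ∧
      ∀ j, 5 ≤ j → hl D.A deg32 ((Xc D.x D.y D.u D.v).map D.τ) j = 0 := by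
  let _ := D.toN.toAlgebra
  rw [Xc_map, D.τx, D.τu]
  obtain ⟨⟨hF4, hFt⟩, hF0⟩ := hl_F (A := D.A) D.σ (D.τ D.y) (D.τ D.v) D.A_surj D.σ_ker D.τy D.τv D.reg
  obtain ⟨hG1, hG0⟩ := hl_G (A := D.A) D.σ (D.τ D.y) (D.τ D.v) D.A_surj D.σ_ker D.τy D.τv D.reg
  obtain ⟨l, hl'⟩ := ENat.ne_top_iff_exists.mp hFt.ne
  rw [← hl'] at hF4
  -- the blocks
  have hz : ∀ e : Matrix I8 I8 N, hl D.A rdeg e 0 = 0 := by
    intro e
    apply hl_zero
    rintro (((i | i) | (i | i)) | ((i | i) | (i | i))) <;> simp [rdeg, cdeg, kdeg]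
  have hz' : ∀ e : Matrix (I8 ⊕ I8) (I8 ⊕ I8) N, hl D.A (cdeg rdeg rdeg) e 0 = 0 := by
    intro e
    apply hl_zero
    rintro (i | i) <;> rcases i with (((i | i) | (i | i)) | ((i | i) | (i | i))) <;>
      simp [rdeg, cdeg, kdeg]
  set P : Matrix I8 I8 N := RW 0 (D.τ D.y) 0 (D.τ D.v) with hP
  set Q : Matrix I8 I8 N := RW 0 (D.τ D.y) (D.τ D.v) 0 with hQ
  have hP1 : hl D.A rdeg P 1 = l := by
    rw [hP, RW_zero, rdeg, hl_cone, ← hl', hG0 0 (by decide), add_zero]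
  have hP2 : hl D.A rdeg P 2 = 3 := by
    rw [hP, RW_zero, rdeg, hl_cone, hF0 _ (by decide), hG1, zero_add]
  have hP3 : ∀ j, 3 ≤ j → hl D.A rdeg P j = 0 := by
    intro j hj
    obtain ⟨i, rfl⟩ : ∃ i, j = i + 1 := ⟨j - 1, by omega⟩
    rw [hP, RW_zero, rdeg, hl_cone, hF0 _ (by omega), hG0 _ (by omega), zero_add]
  have hQ1 : hl D.A rdeg Q 1 = 3 := by
    rw [hQ, RW_zero', rdeg, hl_cone, hG1, hF0 0 (by decide), add_zero]
  have hQ2 : hl D.A rdeg Q 2 = l := by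
    rw [hQ, RW_zero', rdeg, hl_cone, hG0 _ (by decide), ← hl', zero_add]
  have hQ3 : ∀ j, 3 ≤ j → hl D.A rdeg Q j = 0 := by
    intro j hj
    obtain ⟨i, rfl⟩ : ∃ i, j = i + 1 := ⟨j - 1, by omega⟩
    rw [hQ, RW_zero', rdeg, hl_cone, hF0 _ (by omega), hG0 _ (by omega), zero_add]
  have hX : ∀ j, hl D.A deg32 (Xc 0 (D.τ D.y) 0 (D.τ D.v)) (j + 2) =
      (hl D.A rdeg P (j + 2) + hl D.A rdeg Q (j + 1)) + (hl D.A rdeg Q (j + 1) + hl D.A rdeg P j) := by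
    intro j
    rw [Xc, deg32, hl_cone, hl_cone, hl_cone]
  have hX1 : hl D.A deg32 (Xc 0 (D.τ D.y) 0 (D.τ D.v)) 1 = hl D.A rdeg P 1 := by
    rw [Xc, deg32, hl_cone, hl_cone, hz', hz, add_zero, add_zero]
  refine ⟨l, ?_, ?_, ?_, ?_, ?_, ?_⟩
  · exact_mod_cast hF4
  · rw [hX1, hP1]
  · rw [hX 0, hz, hP2, hQ1]; norm_num
  · rw [hX 1, hP1, hP3 _ (by decide), hQ2]
    push_cast
    ring
  · rw [hX 2, hP2, hP3 _ (by decide), hQ3 _ (by decide)]; norm_num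
  · intro j hj
    obtain ⟨i, rfl⟩ : ∃ i, j = i + 2 := ⟨j - 2, by omega⟩
    rw [hX i, hP3 _ (by omega), hP3 _ (by omega), hQ3 _ (by omega)]; norm_num

omit [IsDomain N] in
theorem hl_Y : letI := D.toN.toAlgebra
    ∀ j, hl D.A deg32 ((Yc D.x D.u D.v D.s).map D.τ) j = 0 := by
  let _ := D.toN.toAlgebra
  intro j
  apply hl_contractible
  obtain ⟨k, hk⟩ := Yc_nul D.x D.u D.v D.s D.three (1 - D.x) (Ideal.subset_span (by simp))
  have := nulI_map D.τ hk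
  rwa [map_pow, map_sub, map_one, D.τx, sub_zero, one_pow] at this

end

/-- The glued complex and its Euler characteristic, for general `X`, `Y`. -/
theorem Datum.euler {κ B N : Type} [Field κ] [CommRing B] [IsDomain B] [CommRing N] [IsDomain N]
    (D : Datum κ B N) [IsLocalRing D.A] [IsNoetherianRing D.A]
    (hmax : ∀ a : D.A, a ∈ IsLocalRing.maximalIdeal D.A → D.ρ₁ (a : B) = 0)
    {ι : Type} [Fintype ι] [DecidableEq ι] (deg : ι → ℕ) (hdeg : ∀ i, 1 ≤ deg i ∧ deg i ≤ 6)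
    (X Y : Matrix ι ι B)
    (hX : Cpx deg X) (hY : Cpx deg Y) (hX1 : X.map D.ρ₁ = 0) (hY2 : Y.map D.ρ₂ = 0)
    (hXY : X.map D.ρ₂ = Y.map D.ρ₁)
    (hXn : ∀ b, D.ρ₁ b = 0 → ∃ k : ℕ, b ^ k ∈ nulI deg X)
    (hYn : ∀ b, D.ρ₂ b = 0 → ∃ k : ℕ, b ^ k ∈ nulI deg Y)
    (hYτ : letI := D.toN.toAlgebra; ∀ j, hl D.A deg (Y.map D.τ) j = 0) : letI := D.toN.toAlgebra
    ∃ (n : ℕ → ℕ) (E : ∀ j : ℕ, (Fin (n (j + 1)) → D.A) →ₗ[D.A] (Fin (n j) → D.A)),
      n 0 = 0 ∧ (∀ j, 6 < j → n j = 0) ∧ (∀ j, (E j).comp (E (j + 1)) = 0) ∧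
      (∀ j, Module.length D.A
          ↥(Submodule.map (LinearMap.range (E (j + 1))).mkQ (LinearMap.ker (E j))) < ⊤) ∧
      ∀ j, Module.length D.A
          ↥(Submodule.map (LinearMap.range ((E (j + 1)).rTensor N)).mkQ
              (LinearMap.ker ((E j).rTensor N))) = hl D.A deg (X.map D.τ) (j + 1) := by
  let alg : Algebra D.A N := D.toN.toAlgebra
  obtain ⟨d, T, T', hTT', hT'T, hT, hT', hconj, hcpx, hnul⟩ :=
    D.glue deg X Y hX hY hX1 hY2 hXY hXn hYn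
  set dg : ι ⊕ ι → ℕ := Sum.elim deg deg with hdg
  have hdgb : ∀ i, 1 ≤ dg i ∧ dg i ≤ 6 := by
    rintro (i | i)
    · exact hdeg i
    · exact hdeg i
  refine ⟨nn dg, DD dg d, ?_, ?_, DD_comp dg d hcpx, ?_, ?_⟩
  · rw [nn, Fintype.card_eq_zero_iff]
    exact ⟨fun i => by have := hdgb i.1; have := i.2; omega⟩
  · intro j hj
    rw [nn, Fintype.card_eq_zero_iff]
    exact ⟨fun i => by have := hdgb i.1; have := i.2; omega⟩
  · intro j
    rw [DD_len dg d hcpx]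
    exact hl_finite dg d (fun a ha => hnul a (hmax a ha)) (j + 1)
  · intro j
    have e1 : d.map (algebraMap D.A N) = (d.map D.A.subtype).map D.τ := by
      ext a b; rfl
    have e2 : (d.map (algebraMap D.A N)) * (T'.map D.τ) =
        (T'.map D.τ) * (fromBlocks (X.map D.τ) 0 0 (Y.map D.τ)) := by
      rw [e1, ← Matrix.map_mul, hconj, Matrix.map_mul, Matrix.fromBlocks_map]
      simp
    rw [DD_len_tensor dg d N hcpx, hl_conj dg _ _ (T.map D.τ) (T'.map D.τ)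
      (by rw [← Matrix.map_mul, hTT']; simp)
      (by rw [← Matrix.map_mul, hT'T]; simp) (fun i k hik => by simp [hT i k hik])
      (fun i k hik => by simp [hT' i k hik]) e2, hdg, hl_dsum, hYτ, add_zero]

theorem final :
    ¬ (∀ (A : Type) [CommRing A] [IsDomain A] [IsLocalRing A] [IsNoetherianRing A] (d : ℕ),
      ringKrullDim A = (d : WithBot ℕ∞) → 1 ≤ d →
      (∀ (p : Ideal A) [p.IsPrime], p ≠ IsLocalRing.maximalIdeal A →
        ∃ s : Finset (Localization.AtPrime p),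
          Ideal.span (s : Set (Localization.AtPrime p)) =
              IsLocalRing.maximalIdeal (Localization.AtPrime p) ∧
            (s.card : WithBot ℕ∞) ≤ ringKrullDim (Localization.AtPrime p)) →
      ∀ (M : Type) [AddCommGroup M] [Module A M] [Module.Finite A M],
      (∀ p ∈ Module.support A M, ∃ k : ℕ,
          ringKrullDim (A ⧸ p.asIdeal) ≤ (k : WithBot ℕ∞) ∧ 2 * k ≤ d) →
      ∀ (N : ℕ) (n : ℕ → ℕ) (D : ∀ j : ℕ, (Fin (n (j + 1)) → A) →ₗ[A] (Fin (n j) → A)),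
      n 0 = 0 → (∀ j, N < j → n j = 0) → (∀ j, (D j).comp (D (j + 1)) = 0) →
      (∀ j, Module.length A
          ↥(Submodule.map (LinearMap.range (D (j + 1))).mkQ (LinearMap.ker (D j))) < ⊤) →
      ∑ j ∈ Finset.range (N + 1), (-1 : ℤ) ^ j *
        ((Module.length A
          ↥(Submodule.map (LinearMap.range ((D (j + 1)).rTensor M)).mkQ
              (LinearMap.ker ((D j).rTensor M)))).toNat : ℤ) = 0) := by
  intro H
  obtain ⟨κ, B, N, i1, i2, i3, i4, i5, D, i6, i7, ⟨dim, hdim, h4⟩, hmax, hreg, hsurj', hsupp⟩ :=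
    exists_package
  let alg : Algebra D.A N := D.toN.toAlgebra
  obtain ⟨n, E, hn0, hn6, hE, hfin, hten⟩ := D.euler hmax deg32 deg32_pos
      (Xc D.x D.y D.u D.v) (Yc D.x D.u D.v D.s) (Xc_cpx _ _ _ _ D.three D.xy)
      (Yc_cpx _ _ _ _ D.three)
      (by rw [Xc_map, D.ρ₁x, D.ρ₁y, D.ρ₁u, D.ρ₁v, Xc_zero])
      (by rw [Yc_map, D.ρ₂x, D.ρ₂u, D.ρ₂v, D.ρ₂s, Yc_zero])
      (by rw [Xc_map, Yc_map, D.ρ₂x, D.ρ₂y, D.ρ₂u, D.ρ₂v, D.ρ₁x, D.ρ₁u, D.ρ₁v]; exact Xc_eq_Yc _)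
      (fun b hb => Xc_nul _ _ _ _ D.three D.xy b (D.ker₁ b hb))
      (fun b hb => Yc_nul _ _ _ _ D.three b (D.ker₂ b hb)) (hl_Y D)
  have hsurj : Function.Surjective (algebraMap D.A N) := hsurj'
  have : Module.Finite D.A N := Module.Finite.of_surjective (Algebra.linearMap D.A N) hsurj
  have key := H D.A dim hdim (by omega) hreg N (fun p hp => ⟨2, hsupp p hp, by omega⟩) 6 n E hn0 hn6
    hE hfin
  obtain ⟨l, hl4, h1, h2, h3, h4', h0⟩ := hl_X D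
  simp only [hten] at key
  simp only [Finset.sum_range_succ, Finset.sum_range_zero, Nat.reduceAdd, zero_add] at key
  rw [h1, h2, h3, h4', h0 5 (by omega), h0 6 (by omega), h0 7 (by omega)] at key
  simp at key
  omega

end Pool.Agent.H19.KG
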