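import Pool.Agent.H19.KG.Defs

set_option autoImplicit false

/-! Lengths of subquotients `q.map p.mkQ`. -/

namespace Pool.Agent.H19.KG

section

variable {A V W V' : Type*} [CommRing A] [AddCommGroup V] [Module A V] [AddCommGroup W] [Module A W]
  [AddCommGroup V'] [Module A V']

theorem length_map_of_ker (p q : Submodule A V) (g : V →ₗ[A] W) (hg : LinearMap.ker g = p) :
    Module.length A ↥(q.map p.mkQ) = Module.length A ↥(q.map g) := by
  have h : p ≤ LinearMap.ker g := hg.ge
  have hinj : Function.Injective (p.liftQ g h) := by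
    rw [← LinearMap.ker_eq_bot]
    exact Submodule.ker_liftQ_eq_bot _ _ _ hg.le
  have e := Submodule.equivMapOfInjective (p.liftQ g h) hinj (q.map p.mkQ)
  rw [e.length_eq, ← Submodule.map_comp, Submodule.liftQ_mkQ]

/-- the length of a subquotient does not change under an injective map -/
theorem length_map_inj (f : V →ₗ[A] W) (hf : Function.Injective f) (p q : Submodule A V) :
    Module.length A ↥((q.map f).map (p.map f).mkQ) = Module.length A ↥(q.map p.mkQ) := by
  rw [← Submodule.map_comp]
  symm
  apply length_map_of_ker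
  rw [LinearMap.ker_comp, Submodule.ker_mkQ, Submodule.comap_map_eq_of_injective hf]

theorem length_prod_submodule (P : Submodule A V) (Q : Submodule A V') :
    Module.length A ↥(P.prod Q) = Module.length A P + Module.length A Q := by
  let e : ↥(P.prod Q) ≃ₗ[A] P × Q :=
    { toFun := fun z => (⟨z.1.1, z.2.1⟩, ⟨z.1.2, z.2.2⟩)
      invFun := fun z => ⟨(z.1.1, z.2.1), ⟨z.1.2, z.2.2⟩⟩
      map_add' := fun _ _ => rfl
      map_smul' := fun _ _ => rfl
      left_inv := fun _ => rfl
      right_inv := fun _ => rfl }
  rw [e.length_eq, Module.length_prod]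

theorem length_subquot_prod (p q : Submodule A V) (p' q' : Submodule A V') :
    Module.length A ↥((q.prod q').map (p.prod p').mkQ) =
      Module.length A ↥(q.map p.mkQ) + Module.length A ↥(q'.map p'.mkQ) := by
  rw [length_map_of_ker _ _ (p.mkQ.prodMap p'.mkQ) (by rw [LinearMap.ker_prodMap]; simp),
    LinearMap.prodMap_map_prod, length_prod_submodule]

theorem length_subquot_eq_zero (p q : Submodule A V) (h : q ≤ p) :
    Module.length A ↥(q.map p.mkQ) = 0 := by
  have : q.map p.mkQ = ⊥ := by
    rw [← le_bot_iff, Submodule.map_le_iff_le_comap, ← LinearMap.ker, Submodule.ker_mkQ]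
    exact h
  rw [this]
  exact Module.length_bot

end

section

variable {A N : Type} [CommRing A] [CommRing N] [Algebra A N] {ι κ : Type}

theorem mem_Vj {deg : ι → ℕ} {j : ℕ} {w : ι → N} : w ∈ Vj A N deg j ↔ ∀ i, deg i ≠ j → w i = 0 := Iff.rfl

theorem act_apply [Fintype κ] (e : Matrix ι κ N) (w : κ → N) : act A e w = e.mulVec w := rfl

theorem act_mul [Fintype ι] [Fintype κ] {l : Type} (e : Matrix l ι N) (f : Matrix ι κ N) (w : κ → N) :
    act A (e * f) w = act A e (act A f w) := by
  simp [act_apply, Matrix.mulVec_mulVec]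

end

end Pool.Agent.H19.KG
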