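import Pool.Agent.H19.KG.HlBasic

set_option autoImplicit false

/-! Module HLK: homology of the Koszul complexes over `N`. -/

namespace Pool.Agent.H19.KG

open Matrix

section HLK

variable {A N : Type} [CommRing A] [CommRing N] [Algebra A N] {n : Type} [Fintype n] [DecidableEq n]
  (a b : Matrix n n N)

/-- a vector with four components -/
def hlk4 (w1 w2 w3 w4 : n → N) : I4 n → N := Sum.elim (Sum.elim w1 w2) (Sum.elim w3 w4)

omit [Fintype n] [DecidableEq n] in
theorem hlk4_eta (w : I4 n → N) :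
    w = hlk4 (fun i => w (Sum.inl (Sum.inl i))) (fun i => w (Sum.inl (Sum.inr i)))
      (fun i => w (Sum.inr (Sum.inl i))) (fun i => w (Sum.inr (Sum.inr i))) := by
  funext i
  rcases i with (i | i) | (i | i) <;> rfl

omit [DecidableEq n] in
theorem hlk_act (w1 w2 w3 w4 : n → N) :
    act A (kos a b) (hlk4 w1 w2 w3 w4) =
      hlk4 (b *ᵥ w2 + a *ᵥ w3) (a *ᵥ w4) (-(b *ᵥ w4)) 0 := by
  rw [act_apply]
  unfold kos cone hlk4
  simp only [Matrix.fromBlocks_mulVec, Sum.elim_comp_inl, Sum.elim_comp_inr, Matrix.zero_mulVec,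
    Matrix.neg_mulVec, neg_zero, add_zero, zero_add]
  funext i
  rcases i with (i | i) | (i | i) <;> simp

omit [Fintype n] [DecidableEq n] in
theorem hlk_mem (j : ℕ) (w1 w2 w3 w4 : n → N) :
    hlk4 w1 w2 w3 w4 ∈ Vj A N (kdeg n) j ↔
      (1 ≠ j → w1 = 0) ∧ (2 ≠ j → w2 = 0) ∧ (2 ≠ j → w3 = 0) ∧ (3 ≠ j → w4 = 0) := by
  rw [mem_Vj]
  constructor
  · intro h
    refine ⟨fun hj => ?_, fun hj => ?_, fun hj => ?_, fun hj => ?_⟩
    · funext i; exact h (Sum.inl (Sum.inl i)) hj
    · funext i; exact h (Sum.inl (Sum.inr i)) hj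
    · funext i; exact h (Sum.inr (Sum.inl i)) hj
    · funext i; exact h (Sum.inr (Sum.inr i)) hj
  · rintro ⟨h1, h2, h3, h4⟩ i hi
    rcases i with (i | i) | (i | i)
    · exact congrFun (h1 hi) i
    · exact congrFun (h2 hi) i
    · exact congrFun (h3 hi) i
    · exact congrFun (h4 hi) i

/-- the inclusion of the component of degree one -/
def hlkI (A N n : Type) [CommRing A] [CommRing N] [Algebra A N] : (n → N) →ₗ[A] (I4 n → N) where
  toFun w := hlk4 w 0 0 0
  map_add' := by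
    intro x y
    funext i
    rcases i with (i | i) | (i | i) <;> simp [hlk4]
  map_smul' := by
    intro c x
    funext i
    rcases i with (i | i) | (i | i) <;> simp [hlk4]

omit [DecidableEq n] in
theorem hl_kos_one : hl A (kdeg n) (kos a b) 1 =
    Module.length A ((n → N) ⧸ (LinearMap.range (act A a) ⊔ LinearMap.range (act A b))) := by
  have hinj : Function.Injective (hlkI A N n) := by
    intro x y h
    funext i
    exact congrFun h (Sum.inl (Sum.inl i))
  have h1 : Vj A N (kdeg n) 1 ⊓ LinearMap.ker (act A (kos a b)) =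
      (⊤ : Submodule A (n → N)).map (hlkI A N n) := by
    ext w
    rw [Submodule.mem_inf, LinearMap.mem_ker, Submodule.mem_map]
    constructor
    · rintro ⟨hw, _⟩
      rw [hlk4_eta w, hlk_mem] at hw
      obtain ⟨_, h2, h3, h4⟩ := hw
      refine ⟨fun i => w (Sum.inl (Sum.inl i)), Submodule.mem_top, ?_⟩
      rw [hlk4_eta w, h2 (by decide), h3 (by decide), h4 (by decide)]
      rfl
    · rintro ⟨z, _, rfl⟩
      change hlk4 z 0 0 0 ∈ _ ∧ act A (kos a b) (hlk4 z 0 0 0) = 0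
      rw [hlk_mem, hlk_act]
      refine ⟨⟨fun h => absurd rfl h, fun _ => rfl, fun _ => rfl, fun _ => rfl⟩, ?_⟩
      simp only [Matrix.mulVec_zero, add_zero, neg_zero]
      funext i
      rcases i with (i | i) | (i | i) <;> rfl
  have h2 : (Vj A N (kdeg n) (1 + 1)).map (act A (kos a b)) =
      (LinearMap.range (act A a) ⊔ LinearMap.range (act A b)).map (hlkI A N n) := by
    ext w
    rw [Submodule.mem_map, Submodule.mem_map]
    constructor
    · rintro ⟨z, hz, rfl⟩
      rw [hlk4_eta z, hlk_mem] at hz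
      obtain ⟨h1, _, _, h4⟩ := hz
      rw [hlk4_eta z, h1 (by decide), h4 (by decide), hlk_act]
      refine ⟨b *ᵥ (fun i => z (Sum.inl (Sum.inr i))) + a *ᵥ (fun i => z (Sum.inr (Sum.inl i))),
        ?_, ?_⟩
      · refine Submodule.add_mem _ ?_ ?_
        · exact Submodule.mem_sup_right ⟨_, rfl⟩
        · exact Submodule.mem_sup_left ⟨_, rfl⟩
      · change hlk4 _ 0 0 0 = _
        simp only [Matrix.mulVec_zero, neg_zero]
    · rintro ⟨z, hz, rfl⟩
      obtain ⟨z1, ⟨w1, rfl⟩, z2, ⟨w2, rfl⟩, rfl⟩ := Submodule.mem_sup.mp hz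
      refine ⟨hlk4 0 w2 w1 0, ?_, ?_⟩
      · rw [hlk_mem]
        exact ⟨fun _ => rfl, fun h => absurd rfl h, fun h => absurd rfl h, fun _ => rfl⟩
      · rw [hlk_act]
        change _ = hlk4 (act A a w1 + act A b w2) 0 0 0
        rw [act_apply, act_apply, add_comm (a *ᵥ w1)]
        simp only [Matrix.mulVec_zero, neg_zero]
  unfold hl
  rw [h1, h2, length_map_inj _ hinj, Submodule.map_top, Submodule.range_mkQ, Module.length_top]

omit [DecidableEq n] in
theorem hl_kos_two (hab : a * b = b * a) (hb : ∀ w : n → N, b *ᵥ w = 0 → w = 0)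
    (hba : ∀ w z : n → N, a *ᵥ w = b *ᵥ z → ∃ w', w = b *ᵥ w') :
    hl A (kdeg n) (kos a b) 2 = 0 := by
  unfold hl
  refine length_subquot_eq_zero _ _ ?_
  rintro w ⟨hw, hk⟩
  rw [SetLike.mem_coe, LinearMap.mem_ker] at hk
  rw [SetLike.mem_coe] at hw
  rw [hlk4_eta w] at hw hk ⊢
  generalize (fun i => w (Sum.inl (Sum.inl i))) = w1 at *
  generalize (fun i => w (Sum.inl (Sum.inr i))) = w2 at *
  generalize (fun i => w (Sum.inr (Sum.inl i))) = w3 at *
  generalize (fun i => w (Sum.inr (Sum.inr i))) = w4 at *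
  rw [hlk_mem] at hw
  rw [hlk_act] at hk
  obtain ⟨h1, _, _, h4⟩ := hw
  have e1 : w1 = 0 := h1 (by decide)
  have e4 : w4 = 0 := h4 (by decide)
  have hk1 : b *ᵥ w2 + a *ᵥ w3 = 0 := by
    funext i
    exact congrFun hk (Sum.inl (Sum.inl i))
  obtain ⟨w', hw'⟩ := hba w3 (-w2) (by rw [Matrix.mulVec_neg]; exact eq_neg_of_add_eq_zero_right hk1)
  have e2 : w2 = -(a *ᵥ w') := by
    have h5 : b *ᵥ (w2 + a *ᵥ w') = 0 := by
      rw [Matrix.mulVec_add, Matrix.mulVec_mulVec, ← hab, ← Matrix.mulVec_mulVec, ← hw']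
      exact hk1
    exact eq_neg_of_add_eq_zero_left (hb _ h5)
  refine ⟨hlk4 0 0 0 (-w'), ?_, ?_⟩
  · rw [SetLike.mem_coe, hlk_mem]
    exact ⟨fun _ => rfl, fun _ => rfl, fun _ => rfl, fun h => absurd rfl h⟩
  · rw [hlk_act, e1, e2, hw', e4]
    simp only [Matrix.mulVec_zero, Matrix.mulVec_neg, neg_neg, add_zero]

omit [DecidableEq n] in
theorem hl_kos_three (hb : ∀ w : n → N, b *ᵥ w = 0 → w = 0) :
    hl A (kdeg n) (kos a b) 3 = 0 := by
  unfold hl
  refine length_subquot_eq_zero _ _ ?_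
  rintro w ⟨hw, hk⟩
  rw [SetLike.mem_coe, LinearMap.mem_ker] at hk
  rw [SetLike.mem_coe] at hw
  have hz : w = 0 := by
    rw [hlk4_eta w] at hw hk ⊢
    generalize (fun i => w (Sum.inl (Sum.inl i))) = w1 at *
    generalize (fun i => w (Sum.inl (Sum.inr i))) = w2 at *
    generalize (fun i => w (Sum.inr (Sum.inl i))) = w3 at *
    generalize (fun i => w (Sum.inr (Sum.inr i))) = w4 at *
    rw [hlk_mem] at hw
    rw [hlk_act] at hk
    obtain ⟨h1, h2, h3, _⟩ := hw
    have hk3 : b *ᵥ w4 = 0 := by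
      rw [← neg_eq_zero]
      funext i
      exact congrFun hk (Sum.inr (Sum.inl i))
    rw [h1 (by decide), h2 (by decide), h3 (by decide), hb w4 hk3]
    funext i
    rcases i with (i | i) | (i | i) <;> rfl
  rw [hz]
  exact Submodule.zero_mem _

end HLK

end Pool.Agent.H19.KG
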