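import Pool.Agent.H19.KG.Defs

set_option autoImplicit false

/-!
Module NUL: cones and null-homotopies.
-/

namespace Pool.Agent.H19.KG

open Matrix

section NUL

variable {R : Type} [CommRing R] {ι κ n : Type} [Fintype ι] [DecidableEq ι] [Fintype κ]
  [DecidableEq κ] [Fintype n] [DecidableEq n]

theorem mem_nulI {deg : ι → ℕ} {d : Matrix ι ι R} {r : R} :
    r ∈ nulI deg d ↔ ∃ h : Matrix ι ι R, Upp deg h ∧ d * h + h * d = r • (1 : Matrix ι ι R) :=
  Iff.rfl

theorem nulI_map {R' : Type} [CommRing R'] (f : R →+* R') {deg : ι → ℕ} {d : Matrix ι ι R} {r : R}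
    (h : r ∈ nulI deg d) : f r ∈ nulI deg (d.map f) := by
  obtain ⟨h, hh, e⟩ := mem_nulI.mp h
  refine mem_nulI.mpr ⟨h.map f, fun i j hij => by simp [hh i j hij], ?_⟩
  rw [← Matrix.map_mul, ← Matrix.map_mul, ← Matrix.map_add f (map_add f), e]
  ext i j
  by_cases hij : i = j
  · subst hij
    simp
  · simp [Matrix.one_apply, hij]

theorem cpx_cone {a : ι → ℕ} {b : κ → ℕ} {dF : Matrix ι ι R} {Θ : Matrix ι κ R} {dG : Matrix κ κ R}
    (hF : Cpx a dF) (hG : Cpx b dG) (hΘ : Lev a b Θ) (h : dF * Θ = Θ * dG) :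
    Cpx (cdeg a b) (cone dF Θ dG) := by
  refine ⟨?_, ?_⟩
  · rintro (i | i) (j | j) hij
    · exact hF.low i j hij
    · exact hΘ i j (fun hh => hij (by simp only [cdeg, Sum.elim_inl, Sum.elim_inr]; omega))
    · rfl
    · have : dG i j = 0 := hG.low i j (fun hh => hij (by simp only [cdeg, Sum.elim_inr]; omega))
      change -(dG i j) = 0
      rw [this, neg_zero]
  · rw [cone, fromBlocks_multiply]
    have h1 : dF * Θ + Θ * -dG = 0 := by rw [h, Matrix.mul_neg]; abel
    rw [h1, hF.sq]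
    simp [hG.sq]

/-- If `H` is a homotopy for `r` up to a matrix of square zero, then `r ^ 2` is null-homotopic. -/
theorem nulI_almost {deg : ι → ℕ} {D : Matrix ι ι R} (hD : Cpx deg D) (r : R)
    (H Δ : Matrix ι ι R) (hH : Upp deg H) (e : D * H + H * D = r • (1 : Matrix ι ι R) + Δ)
    (hΔ : Δ * Δ = 0) : r ^ 2 ∈ nulI deg D := by
  have hcomm : D * Δ = Δ * D := by
    have h1 : D * (D * H + H * D) = (D * H + H * D) * D := by
      rw [mul_add, add_mul, ← mul_assoc, hD.sq, mul_assoc H D D, hD.sq]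
      simp [mul_assoc]
    rw [e, mul_add, add_mul] at h1
    simpa using h1
  have hlev : ∀ i j, deg i ≠ deg j → Δ i j = 0 := by
    intro i j hij
    have h1 : (D * H + H * D) i j = (r • (1 : Matrix ι ι R) + Δ) i j := by rw [e]
    have hne : i ≠ j := fun hh => hij (by rw [hh])
    have h2 : (D * H) i j = 0 := by
      rw [Matrix.mul_apply]
      apply Finset.sum_eq_zero
      intro k _
      by_cases hk : deg k = deg i + 1
      · rw [hH k j (by omega), mul_zero]
      · rw [hD.low i k hk, zero_mul]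
    have h3 : (H * D) i j = 0 := by
      rw [Matrix.mul_apply]
      apply Finset.sum_eq_zero
      intro k _
      by_cases hk : deg i = deg k + 1
      · rw [hD.low k j (by omega), mul_zero]
      · rw [hH i k hk, zero_mul]
    rw [Matrix.add_apply, h2, h3, Matrix.add_apply, Matrix.smul_apply, Matrix.one_apply_ne hne] at h1
    simpa using h1.symm
  refine mem_nulI.mpr ⟨(r • (1 : Matrix ι ι R) - Δ) * H, ?_, ?_⟩
  · intro i j hij
    rw [Matrix.mul_apply]
    apply Finset.sum_eq_zero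
    intro k _
    by_cases hk : deg i = deg k
    · rw [hH k j (by omega), mul_zero]
    · have hne : i ≠ k := fun hh => hk (by rw [hh])
      rw [Matrix.sub_apply, Matrix.smul_apply, Matrix.one_apply_ne hne, hlev i k hk]
      simp
  · have h1 : D * ((r • (1 : Matrix ι ι R) - Δ) * H) = (r • (1 : Matrix ι ι R) - Δ) * (D * H) := by
      rw [← mul_assoc, ← mul_assoc]
      congr 1
      rw [mul_sub, sub_mul, hcomm]
      simp
    rw [h1, mul_assoc, ← mul_add, e, sub_mul, mul_add, mul_add, hΔ]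
    simp only [Matrix.smul_mul, Matrix.mul_smul, mul_one, one_mul, smul_smul, pow_two]
    abel

/-- the general homotopy on a cone: `H = [[kF, 0], [Θ', -kG]]`. -/
theorem nulI_cone {a : ι → ℕ} {b : κ → ℕ} {dF : Matrix ι ι R} {Θ : Matrix ι κ R} {dG : Matrix κ κ R}
    (hF : Cpx a dF) (hG : Cpx b dG) (hΘ : Lev a b Θ) (h : dF * Θ = Θ * dG) (r : R)
    (kF : Matrix ι ι R) (kG : Matrix κ κ R) (Θ' : Matrix κ ι R)
    (hkF : Upp a kF) (hkG : Upp b kG) (hΘ' : Lev b a Θ') (h' : dG * Θ' = Θ' * dF)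
    (eF : dF * kF + kF * dF + Θ * Θ' = r • (1 : Matrix ι ι R))
    (eG : dG * kG + kG * dG + Θ' * Θ = r • (1 : Matrix κ κ R)) :
    r ^ 2 ∈ nulI (cdeg a b) (cone dF Θ dG) := by
  refine nulI_almost (cpx_cone hF hG hΘ h) r (fromBlocks kF 0 Θ' (-kG))
    (fromBlocks 0 (kF * Θ - Θ * kG) 0 0) ?_ ?_ ?_
  · rintro (i | i) (j | j) hij
    · exact hkF i j hij
    · rfl
    · exact hΘ' i j (fun hh => hij (by simp only [cdeg, Sum.elim_inl, Sum.elim_inr]; omega))
    · have : kG i j = 0 := hkG i j (fun hh => hij (by simp only [cdeg, Sum.elim_inr]; omega))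
      change -(kG i j) = 0
      rw [this, neg_zero]
  · rw [cone, fromBlocks_multiply, fromBlocks_multiply, fromBlocks_add, ← fromBlocks_one,
      fromBlocks_smul, fromBlocks_add, ← eF, ← eG]
    congr 1
    · simp
      abel
    · simp
      abel
    · simp [h']
    · simp
      abel
  · rw [fromBlocks_multiply]
    simp

theorem nulI_cone_of_both {a : ι → ℕ} {b : κ → ℕ} {dF : Matrix ι ι R} {Θ : Matrix ι κ R}
    {dG : Matrix κ κ R}
    (hF : Cpx a dF) (hG : Cpx b dG) (hΘ : Lev a b Θ) (h : dF * Θ = Θ * dG) (r : R)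
    (h1 : r ∈ nulI a dF) (h2 : r ∈ nulI b dG) :
    r ^ 2 ∈ nulI (cdeg a b) (cone dF Θ dG) := by
  obtain ⟨kF, hkF, eF⟩ := mem_nulI.mp h1
  obtain ⟨kG, hkG, eG⟩ := mem_nulI.mp h2
  exact nulI_cone hF hG hΘ h r kF kG 0 hkF hkG (fun _ _ _ => rfl) (by simp) (by simpa using eF)
    (by simpa using eG)

/-- on the cone of multiplication by `r`, `r^2` is null-homotopic -/
theorem nulI_cone_smul {a : ι → ℕ} {dF : Matrix ι ι R} (hF : Cpx a dF) (r : R) :
    r ^ 2 ∈ nulI (cdeg a a) (cone dF (r • 1) dF) := by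
  have hlev : ∀ c : R, Lev a a (c • (1 : Matrix ι ι R)) := by
    intro c i j hij
    have hne : i ≠ j := fun hh => hij (by rw [hh])
    rw [Matrix.smul_apply, Matrix.one_apply_ne hne, smul_zero]
  refine nulI_cone hF hF (hlev r) (by simp) r 0 0 1 (fun _ _ _ => rfl) (fun _ _ _ => rfl) ?_
    (by simp) (by simp) (by simp)
  simpa using hlev 1

theorem cpx_zero (m : ℕ) : Cpx (fun _ : n => m) (0 : Matrix n n R) :=
  ⟨fun _ _ _ => rfl, by simp⟩

theorem lev_const (m : ℕ) (b : Matrix ι κ R) : Lev (fun _ : ι => m) (fun _ : κ => m) b :=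
  fun _ _ hij => absurd rfl hij

theorem cpx_kos_inner (b : Matrix n n R) :
    Cpx (cdeg (fun _ : n => 1) (fun _ : n => 1)) (cone 0 b 0) :=
  cpx_cone (cpx_zero 1) (cpx_zero 1) (lev_const 1 b) (by simp)

theorem lev_kos_outer (a : Matrix n n R) :
    Lev (cdeg (fun _ : n => 1) (fun _ : n => 1)) (cdeg (fun _ : n => 1) (fun _ : n => 1))
      (fromBlocks a 0 0 a) := by
  rintro (i | i) (j | j) hij
  · exact absurd rfl hij
  · rfl
  · rfl
  · exact absurd rfl hij

theorem kos_outer_comm {a b : Matrix n n R} (h : a * b = b * a) :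
    cone 0 b 0 * fromBlocks a 0 0 a = fromBlocks a 0 0 a * cone 0 b 0 := by
  rw [cone, fromBlocks_multiply, fromBlocks_multiply]
  simp [h]

theorem cpx_kos {a b : Matrix n n R} (h : a * b = b * a) : Cpx (kdeg n) (kos a b) :=
  cpx_cone (cpx_kos_inner b) (cpx_kos_inner b) (lev_kos_outer a) (kos_outer_comm h)

theorem nulI_kos {a b a' b' : Matrix n n R} (h : a * b = b * a)
    (h1 : a' * a = a * a') (h2 : a' * b = b * a') (h3 : b' * a = a * b') (h4 : b' * b = b * b')
    (r : R) (e : a * a' + b * b' = r • (1 : Matrix n n R)) :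
    r ^ 2 ∈ nulI (kdeg n) (kos a b) := by
  have hupp : Upp (cdeg (fun _ : n => 1) (fun _ : n => 1))
      (fromBlocks 0 0 b' 0 : Matrix (n ⊕ n) (n ⊕ n) R) := by
    rintro (i | i) (j | j) hij
    · rfl
    · rfl
    · exact absurd rfl hij
    · rfl
  have key : cone 0 b 0 * fromBlocks 0 0 b' 0 + fromBlocks 0 0 b' 0 * cone 0 b 0 +
      fromBlocks a 0 0 a * fromBlocks a' 0 0 a' = r • (1 : Matrix (n ⊕ n) (n ⊕ n) R) := by
    rw [cone, fromBlocks_multiply, fromBlocks_multiply, fromBlocks_multiply, fromBlocks_add,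
      fromBlocks_add, ← fromBlocks_one, fromBlocks_smul, ← e]
    congr 1
    · simp
      abel
    · simp
    · simp
    · simp [h4]
      abel
  have key' : cone 0 b 0 * fromBlocks 0 0 b' 0 + fromBlocks 0 0 b' 0 * cone 0 b 0 +
      fromBlocks a' 0 0 a' * fromBlocks a 0 0 a = r • (1 : Matrix (n ⊕ n) (n ⊕ n) R) := by
    rw [← key]
    congr 1
    rw [fromBlocks_multiply, fromBlocks_multiply]
    simp [h1]
  exact nulI_cone (cpx_kos_inner b) (cpx_kos_inner b) (lev_kos_outer a) (kos_outer_comm h) r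
    (fromBlocks 0 0 b' 0) (fromBlocks 0 0 b' 0) (fromBlocks a' 0 0 a') hupp hupp
    (lev_kos_outer a') (kos_outer_comm h2) key key'

end NUL

end Pool.Agent.H19.KG
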