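import Pool.Agent.H19.KG.Defs
import Pool.Agent.H59.NC.Mod

set_option autoImplicit false

/-! The ring layer: `exists_package` (helper59). -/

namespace Pool.Agent.H19.KG

open Pool.Agent.H59.NC

instance : CharP kk 3 :=
  charP_of_injective_algebraMap (R := PP) (IsFractionRing.injective PP kk) 3

theorem three_B : (3 : BB) = 0 := by
  have h0 : (3 : kk) = 0 := by
    have := CharP.cast_eq_zero kk 3
    exact_mod_cast this
  have h1 : algebraMap CC BB (algebraMap kk CC 3) = 0 := by rw [h0, map_zero, map_zero]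
  have h2 : algebraMap CC BB (algebraMap kk CC 3) = 3 := by
    rw [map_ofNat, map_ofNat]
  rw [← h2, h1]

noncomputable def sigmaM : MM →+* kk :=
  IsLocalization.lift (M := PM.primeCompl) (S := MM) (g := Phi.comp (piM : Q3 →+* Polynomial kk))
    (fun y => IsUnit.mk0 _ (by
      intro h0
      exact y.2 (Phi_injective (by rw [map_zero]; exact h0))))

theorem sigmaM_Q (f : Q3) : sigmaM (algebraMap Q3 MM f) = Phi (piM f) :=
  IsLocalization.lift_eq _ _

theorem sigma_rho (b : BB) : sigmaM (rho b) = ε1 b := by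
  obtain ⟨c, t, ht, hc⟩ := surj_B b
  have h1 : sigmaM (rho b) * e1 t = e1 c := by
    have h2 := congrArg (fun z => sigmaM (rho z)) hc
    simp only [map_mul, rho_C, sigmaM_Q, ← e1_eq] at h2
    exact h2
  have h3 : ε1 b * e1 t = e1 c := by
    have h4 := congrArg ε1 hc
    rwa [map_mul, ε1_C, ε1_C] at h4
  exact mul_right_cancel₀ ht.1 (h1.trans h3.symm)

/-- The datum of the counterexample. -/
noncomputable def theDatum : Datum kk BB MM where
  x := xB
  y := yB
  u := uB
  v := wB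
  s := sB
  ρ₁ := ε1
  ρ₂ := ε2
  τ := rho
  σ := sigmaM
  three := three_B
  xy := xy_B
  ρ₁x := ε1_x
  ρ₁y := ε1_y
  ρ₁u := ε1_u
  ρ₁v := ε1_w
  ρ₂x := ε2_x
  ρ₂y := ε2_y
  ρ₂u := ε2_u
  ρ₂v := ε2_w
  ρ₂s := ε2_s
  surj := ε_surj
  ker₁ := by
    intro b hb
    have : b ∈ RingHom.ker ε1 := hb
    rwa [ker_ε1] at this
  ker₂ := by
    intro b hb
    have h : b ∈ RingHom.ker ε2 := hb
    rw [ker_ε2] at h
    have h2 : Ideal.span ({1 - xB, sB * xB, uB, wB} : Set BB) ≤
        Ideal.span ({1 - xB, uB, wB, sB * xB} : Set BB) := by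
      rw [Ideal.span_le]
      rintro z (rfl | rfl | rfl | rfl)
      · exact Ideal.subset_span (Or.inl rfl)
      · exact Ideal.subset_span (Or.inr (Or.inr (Or.inr rfl)))
      · exact Ideal.subset_span (Or.inr (Or.inl rfl))
      · exact Ideal.subset_span (Or.inr (Or.inr (Or.inl rfl)))
    exact h2 h
  τ_surj := rho_surjective_B
  τx := rho_x
  τu := rho_u
  τy := by rw [rho_y]; exact yM_ne
  τv := by rw [rho_w]; exact wM_ne
  στ := sigma_rho
  reg := by
    intro m n h
    rw [rho_y, rho_w] at h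
    obtain ⟨c, hc⟩ := wM_dvd (z := m) ⟨n, h⟩
    exact ⟨c, by rw [rho_w, hc]⟩

theorem exists_package : ∃ (κ B N : Type) (_ : Field κ) (_ : CommRing B) (_ : IsDomain B)
    (_ : CommRing N) (_ : IsDomain N) (D : Datum κ B N) (_ : IsLocalRing D.A)
    (_ : IsNoetherianRing D.A),
    (∃ d : ℕ, ringKrullDim D.A = (d : WithBot ℕ∞) ∧ 4 ≤ d) ∧
    (∀ a : D.A, a ∈ IsLocalRing.maximalIdeal D.A → D.ρ₁ (a : B) = 0) ∧
    (∀ (p : Ideal D.A) [p.IsPrime], p ≠ IsLocalRing.maximalIdeal D.A →
      ∃ s : Finset (Localization.AtPrime p),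
        Ideal.span (s : Set (Localization.AtPrime p)) =
          IsLocalRing.maximalIdeal (Localization.AtPrime p) ∧
        (s.card : WithBot ℕ∞) ≤ ringKrullDim (Localization.AtPrime p)) ∧
    Function.Surjective D.toN ∧
    (letI := D.toN.toAlgebra
     ∀ p ∈ Module.support D.A N, ringKrullDim (D.A ⧸ p.asIdeal) ≤ ((2 : ℕ) : WithBot ℕ∞)) :=
  ⟨kk, BB, MM, inferInstance, inferInstance, inferInstance, inferInstance, inferInstance,
    theDatum, inferInstanceAs (IsLocalRing AA), inferInstanceAs (IsNoetherianRing AA),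
    ⟨4, dim_AA, le_rfl⟩, fun a ha => (mem_max (a := a)).1 ha,
    fun p hpp hp => @regular_frozen p hpp hp, rhoA_surjective, support_MM⟩

end Pool.Agent.H19.KG
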