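import Pool.Agent.H19.KG.Defs

set_option autoImplicit false

/-!
ALL module statements, with `sorry`. Each module is a file `KG/<Name>.lean` proving its statements under
the same names. Local development only: never imported by a hand-in.
-/

namespace Pool.Agent.H19.KG

open Matrix

/-! ### PKG (the ring layer; helper59) -/

theorem exists_package : ∃ (κ B N : Type) (_ : Field κ) (_ : CommRing B) (_ : IsDomain B)
    (_ : CommRing N) (_ : IsDomain N) (D : Datum κ B N) (_ : IsLocalRing D.A)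
    (_ : IsNoetherianRing D.A),
    (∃ d : ℕ, ringKrullDim D.A = (d : WithBot ℕ∞) ∧ 4 ≤ d) ∧
    (∀ a : D.A, a ∈ IsLocalRing.maximalIdeal D.A → D.ρ₁ (a : B) = 0) ∧
    (∀ (p : Ideal D.A) [p.IsPrime], p ≠ IsLocalRing.maximalIdeal D.A →
      ∃ s : Finset (Localization.AtPrime p),
        Ideal.span (s : Set (Localization.AtPrime p)) =
          IsLocalRing.maximalIdeal (Localization.AtPrime p) ∧
        (s.card : WithBot ℕ∞) ≤ ringKrullDim (Localization.AtPrime p)) ∧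
    Function.Surjective D.toN ∧
    (letI := D.toN.toAlgebra
     ∀ p ∈ Module.support D.A N, ringKrullDim (D.A ⧸ p.asIdeal) ≤ ((2 : ℕ) : WithBot ℕ∞)) := by
  sorry

/-! ### NUL (cones and null-homotopies) -/

section NUL

variable {R : Type} [CommRing R] {ι κ n : Type} [Fintype ι] [DecidableEq ι] [Fintype κ]
  [DecidableEq κ] [Fintype n] [DecidableEq n]

theorem nulI_map {R' : Type} [CommRing R'] (f : R →+* R') {deg : ι → ℕ} {d : Matrix ι ι R} {r : R}
    (h : r ∈ nulI deg d) : f r ∈ nulI deg (d.map f) := by sorry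

theorem cpx_cone {a : ι → ℕ} {b : κ → ℕ} {dF : Matrix ι ι R} {Θ : Matrix ι κ R} {dG : Matrix κ κ R}
    (hF : Cpx a dF) (hG : Cpx b dG) (hΘ : Lev a b Θ) (h : dF * Θ = Θ * dG) :
    Cpx (cdeg a b) (cone dF Θ dG) := by sorry

/-- the general homotopy on a cone: `H = [[kF, 0], [Θ', -kG]]`. -/
theorem nulI_cone {a : ι → ℕ} {b : κ → ℕ} {dF : Matrix ι ι R} {Θ : Matrix ι κ R} {dG : Matrix κ κ R}
    (hF : Cpx a dF) (hG : Cpx b dG) (hΘ : Lev a b Θ) (h : dF * Θ = Θ * dG) (r : R)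
    (kF : Matrix ι ι R) (kG : Matrix κ κ R) (Θ' : Matrix κ ι R)
    (hkF : Upp a kF) (hkG : Upp b kG) (hΘ' : Lev b a Θ') (h' : dG * Θ' = Θ' * dF)
    (eF : dF * kF + kF * dF + Θ * Θ' = r • (1 : Matrix ι ι R))
    (eG : dG * kG + kG * dG + Θ' * Θ = r • (1 : Matrix κ κ R)) :
    r ^ 2 ∈ nulI (cdeg a b) (cone dF Θ dG) := by sorry

theorem nulI_cone_of_both {a : ι → ℕ} {b : κ → ℕ} {dF : Matrix ι ι R} {Θ : Matrix ι κ R}
    {dG : Matrix κ κ R}
    (hF : Cpx a dF) (hG : Cpx b dG) (hΘ : Lev a b Θ) (h : dF * Θ = Θ * dG) (r : R)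
    (h1 : r ∈ nulI a dF) (h2 : r ∈ nulI b dG) :
    r ^ 2 ∈ nulI (cdeg a b) (cone dF Θ dG) := by sorry

/-- on the cone of multiplication by `r`, `r^2` is null-homotopic -/
theorem nulI_cone_smul {a : ι → ℕ} {dF : Matrix ι ι R} (hF : Cpx a dF) (r : R) :
    r ^ 2 ∈ nulI (cdeg a a) (cone dF (r • 1) dF) := by sorry

theorem cpx_kos {a b : Matrix n n R} (h : a * b = b * a) : Cpx (kdeg n) (kos a b) := by sorry

theorem nulI_kos {a b a' b' : Matrix n n R} (h : a * b = b * a)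
    (h1 : a' * a = a * a') (h2 : a' * b = b * a') (h3 : b' * a = a * b') (h4 : b' * b = b * b')
    (r : R) (e : a * a' + b * b' = r • (1 : Matrix n n R)) :
    r ^ 2 ∈ nulI (kdeg n) (kos a b) := by sorry

end NUL

/-! ### EXF (explicit matrices) -/

section EXF

variable {R : Type} [CommRing R] (x y u v : R)

theorem Th_lev : Lev (kdeg (Fin 3)) (kdeg (Fin 3)) (Th x u v) := by sorry

theorem Th_chain (h3 : (3 : R) = 0) (hxy : x * y = u * v) :
    Fc x y u v * Th x u v = Th x u v * Fc x y v u := by sorry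

theorem km_upp : Upp (kdeg (Fin 3)) (km x u v) := by sorry

theorem Th_homotopy (h3 : (3 : R) = 0) (hxy : x * y = u * v) :
    Fc x y u v * (x ^ 3 • km x u v) + (x ^ 3 • km x u v) * Fc x y u v + Th x u v * Th x v u
      = x ^ 6 • (1 : Matrix (I4 (Fin 3)) (I4 (Fin 3)) R) := by sorry

/-- `Θ` vanishes where `x = u = 0` -/
theorem Th_zero (v : R) : Th 0 0 v = 0 := by sorry

/-- `Θ` vanishes where `x = v = 0` -/
theorem Th_zero' (u : R) : Th 0 u 0 = 0 := by sorry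

end EXF

/-! ### XYC (the complexes `RW`, `X` and `Y`) -/

section XYC

variable {R R' : Type} [CommRing R] [CommRing R']

theorem al_be_comm (x y u v : R) : al y v * be x u v = be x u v * al y v := by sorry

theorem RW_cpx (x y u v : R) (h3 : (3 : R) = 0) (hxy : x * y = u * v) : Cpx rdeg (RW x y u v) := by
  sorry

/-- powers of `x, y, u, v` are null-homotopic on `RW` -/
theorem RW_nul (x y u v : R) (h3 : (3 : R) = 0) (hxy : x * y = u * v) :
    ∃ k : ℕ, x ^ k ∈ nulI rdeg (RW x y u v) ∧ y ^ k ∈ nulI rdeg (RW x y u v) ∧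
      u ^ k ∈ nulI rdeg (RW x y u v) ∧ v ^ k ∈ nulI rdeg (RW x y u v) := by sorry

theorem RW_map (f : R →+* R') (x y u v : R) :
    (RW x y u v).map f = RW (f x) (f y) (f u) (f v) := by sorry

theorem Xc_map (f : R →+* R') (x y u v : R) :
    (Xc x y u v).map f = Xc (f x) (f y) (f u) (f v) := by sorry

theorem Yc_map (f : R →+* R') (x u v s : R) :
    (Yc x u v s).map f = Yc (f x) (f u) (f v) (f s) := by sorry

theorem Xc_cpx (x y u v : R) (h3 : (3 : R) = 0) (hxy : x * y = u * v) : Cpx deg32 (Xc x y u v) := by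
  sorry

theorem Yc_cpx (x u v s : R) (h3 : (3 : R) = 0) : Cpx deg32 (Yc x u v s) := by sorry

theorem Xc_zero : Xc (0 : R) 0 0 0 = 0 := by sorry

theorem Yc_zero (s : R) : Yc 1 0 0 s = 0 := by sorry

/-- the values of `X` at the second point and of `Y` at the first point agree -/
theorem Xc_eq_Yc (s : R) : Xc (1 : R) 0 0 0 = Yc 0 0 0 s := by sorry

/-- the blocks of `X` where `x = u = 0` -/
theorem RW_zero (y v : R) : RW 0 y 0 v = cone (Fc 0 y 0 v) 0 (kos (y • 1) (v • 1)) := by sorry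

theorem RW_zero' (y v : R) : RW 0 y v 0 = cone (kos (y • 1) (v • 1)) 0 (Fc 0 y 0 v) := by sorry

theorem Xc_nul (x y u v : R) (h3 : (3 : R) = 0) (hxy : x * y = u * v) (b : R)
    (hb : b ∈ Ideal.span ({x, y, u, v} : Set R)) : ∃ k : ℕ, b ^ k ∈ nulI deg32 (Xc x y u v) := by
  sorry

theorem Yc_nul (x u v s : R) (h3 : (3 : R) = 0) (b : R)
    (hb : b ∈ Ideal.span ({1 - x, u, v, s * x} : Set R)) : ∃ k : ℕ, b ^ k ∈ nulI deg32 (Yc x u v s) := by
  sorry

end XYC

/-! ### GLU (gluing) -/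

theorem Datum.glue {κ B N : Type} [Field κ] [CommRing B] [CommRing N] (D : Datum κ B N)
    {ι : Type} [Fintype ι] [DecidableEq ι] (deg : ι → ℕ) (X Y : Matrix ι ι B)
    (hX : Cpx deg X) (hY : Cpx deg Y) (hX1 : X.map D.ρ₁ = 0) (hY2 : Y.map D.ρ₂ = 0)
    (hXY : X.map D.ρ₂ = Y.map D.ρ₁)
    (hXn : ∀ b, D.ρ₁ b = 0 → ∃ k : ℕ, b ^ k ∈ nulI deg X)
    (hYn : ∀ b, D.ρ₂ b = 0 → ∃ k : ℕ, b ^ k ∈ nulI deg Y) :
    ∃ (d : Matrix (ι ⊕ ι) (ι ⊕ ι) D.A) (T T' : Matrix (ι ⊕ ι) (ι ⊕ ι) B),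
      T * T' = 1 ∧ T' * T = 1 ∧ Lev (Sum.elim deg deg) (Sum.elim deg deg) T ∧
      Lev (Sum.elim deg deg) (Sum.elim deg deg) T' ∧
      d.map D.A.subtype * T' = T' * fromBlocks X 0 0 Y ∧
      Cpx (Sum.elim deg deg) d ∧
      ∀ a : D.A, D.ρ₁ (a : B) = 0 → ∃ k : ℕ, a ^ k ∈ nulI (Sum.elim deg deg) d := by
  sorry

/-! ### TEN (free modules `Fin n → A` and tensor products) -/

section TEN

variable {A : Type} [CommRing A] {ι : Type} [Fintype ι] (deg : ι → ℕ) (d : Matrix ι ι A)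

theorem DD_comp (h : Cpx deg d) (j : ℕ) : (DD deg d j).comp (DD deg d (j + 1)) = 0 := by sorry

theorem DD_len (h : Cpx deg d) (j : ℕ) :
    Module.length A ↥(Submodule.map (LinearMap.range (DD deg d (j + 1))).mkQ
      (LinearMap.ker (DD deg d j))) = hl A deg d (j + 1) := by sorry

theorem DD_len_tensor (N : Type) [CommRing N] [Algebra A N] (h : Cpx deg d) (j : ℕ) :
    Module.length A ↥(Submodule.map (LinearMap.range ((DD deg d (j + 1)).rTensor N)).mkQ
      (LinearMap.ker ((DD deg d j).rTensor N))) = hl A deg (d.map (algebraMap A N)) (j + 1) := by sorry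

end TEN

/-! ### HLA (lengths of homology: additivity) -/

section HLA

variable {A N : Type} [CommRing A] [CommRing N] [Algebra A N] {ι κ : Type} [Fintype ι] [DecidableEq ι]
  [Fintype κ] [DecidableEq κ]

theorem hl_cone (a : ι → ℕ) (b : κ → ℕ) (dF : Matrix ι ι N) (dG : Matrix κ κ N) (j : ℕ) :
    hl A (cdeg a b) (cone dF 0 dG) (j + 1) = hl A a dF (j + 1) + hl A b dG j := by sorry

theorem hl_dsum (a : ι → ℕ) (b : κ → ℕ) (dF : Matrix ι ι N) (dG : Matrix κ κ N) (j : ℕ) :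
    hl A (Sum.elim a b) (fromBlocks dF 0 0 dG) j = hl A a dF j + hl A b dG j := by sorry

theorem hl_contractible (deg : ι → ℕ) (e : Matrix ι ι N) (h : (1 : N) ∈ nulI deg e) (j : ℕ) :
    hl A deg e j = 0 := by sorry

theorem hl_conj (deg : ι → ℕ) (e e' T T' : Matrix ι ι N) (h1 : T * T' = 1) (h2 : T' * T = 1)
    (hT : Lev deg deg T) (hT' : Lev deg deg T') (h : e' * T' = T' * e) (j : ℕ) :
    hl A deg e' j = hl A deg e j := by sorry

theorem hl_zero (deg : ι → ℕ) (e : Matrix ι ι N) (j : ℕ) (h : ∀ i, deg i ≠ j) : hl A deg e j = 0 := by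
  sorry

theorem hl_finite [IsLocalRing A] [IsNoetherianRing A] (deg : ι → ℕ) (d : Matrix ι ι A)
    (h : ∀ a ∈ IsLocalRing.maximalIdeal A, ∃ k : ℕ, a ^ k ∈ nulI deg d) (j : ℕ) :
    hl A deg d j < ⊤ := by sorry

end HLA

/-! ### HLK (homology of the Koszul complexes over `N`) -/

section HLK

variable {A N : Type} [CommRing A] [CommRing N] [Algebra A N] {n : Type} [Fintype n] [DecidableEq n]
  (a b : Matrix n n N)

theorem hl_kos_one : hl A (kdeg n) (kos a b) 1 =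
    Module.length A ((n → N) ⧸ (LinearMap.range (act A a) ⊔ LinearMap.range (act A b))) := by sorry

theorem hl_kos_two (hab : a * b = b * a) (hb : ∀ w : n → N, b *ᵥ w = 0 → w = 0)
    (hba : ∀ w z : n → N, a *ᵥ w = b *ᵥ z → ∃ w', w = b *ᵥ w') :
    hl A (kdeg n) (kos a b) 2 = 0 := by sorry

theorem hl_kos_three (hb : ∀ w : n → N, b *ᵥ w = 0 → w = 0) :
    hl A (kdeg n) (kos a b) 3 = 0 := by sorry

end HLK

/-! ### LEN (lengths over `A` of the complexes on `N`) -/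

section LEN

variable {κ A N : Type} [Field κ] [CommRing A] [CommRing N] [IsDomain N] [Algebra A N]
  (σ : N →+* κ) (y v : N)

/-- the complexes which become Koszul on `y, v` -/
theorem hl_G (hA : ∀ c : κ, ∃ a : A, σ (algebraMap A N a) = c)
    (hσ : ∀ m : N, σ m = 0 ↔ ∃ p q : N, m = y * p + v * q) (hy : y ≠ 0) (hv : v ≠ 0)
    (reg : ∀ m n : N, y * m = v * n → ∃ m', m = v * m') :
    hl A (kdeg (Fin 3)) (kos (y • (1 : Matrix (Fin 3) (Fin 3) N)) (v • 1)) 1 = 3 ∧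
    ∀ j, j ≠ 1 → hl A (kdeg (Fin 3)) (kos (y • (1 : Matrix (Fin 3) (Fin 3) N)) (v • 1)) j = 0 := by
  sorry

/-- the complex `F` on `N` -/
theorem hl_F (hA : ∀ c : κ, ∃ a : A, σ (algebraMap A N a) = c)
    (hσ : ∀ m : N, σ m = 0 ↔ ∃ p q : N, m = y * p + v * q) (hy : y ≠ 0) (hv : v ≠ 0)
    (reg : ∀ m n : N, y * m = v * n → ∃ m', m = v * m') :
    (4 ≤ hl A (kdeg (Fin 3)) (Fc 0 y 0 v) 1 ∧ hl A (kdeg (Fin 3)) (Fc 0 y 0 v) 1 < ⊤) ∧
    ∀ j, j ≠ 1 → hl A (kdeg (Fin 3)) (Fc 0 y 0 v) j = 0 := by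
  sorry

end LEN

end Pool.Agent.H19.KG
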